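import Pool.Agent.H87.SLO.Tup
import Pool.Agent.H19.BFL.Stmts

/-!
# Tuples: pairs of an event, and the choice of the other times as a function of the line
-/

set_option autoImplicit false

namespace Pool.LBL

open Finset Real
open Pool.Agent.H49.Ent Pool.Agent.H32.Dense Pool.STK Pool.KAF Pool.KVA Pool.SLO
open Pool.BFL (Pb)

variable {Ω Λ : Type} [Fintype Ω] {p : Ω → ℝ}

theorem nn (hp : ∀ ω, 0 ≤ p ω) (A : Ω → Prop) : 0 ≤ Pb p A := by
  classical
  unfold Pb
  exact Finset.sum_nonneg fun ω _ => by split_ifs; exacts [hp ω, le_rfl]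

theorem pmono (hp : ∀ ω, 0 ≤ p ω) {A B : Ω → Prop} (h : ∀ ω, 0 < p ω → A ω → B ω) :
    Pb p A ≤ Pb p B := by
  classical
  unfold Pb
  refine Finset.sum_le_sum fun w _ => ?_
  by_cases hA : A w
  · rw [if_pos hA]
    rcases (hp w).eq_or_lt with hz | hz
    · rw [← hz]
      split_ifs <;> exact le_rfl
    · rw [if_pos (h w hz hA)]
  · rw [if_neg hA]
    split_ifs
    · exact hp w
    · exact le_rfl

/-- `A` is contained in `G` up to finitely many bad events. -/
theorem pbad (hp : ∀ ω, 0 ≤ p ω) {ι : Type} (s : Finset ι) {A G : Ω → Prop} (B : ι → Ω → Prop)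
    (h : ∀ ω, 0 < p ω → A ω → (∃ i ∈ s, B i ω) ∨ G ω) :
    Pb p A ≤ ∑ i ∈ s, Pb p (B i) + Pb p G := by
  classical
  unfold Pb
  rw [Finset.sum_comm, ← Finset.sum_add_distrib]
  refine Finset.sum_le_sum fun w _ => ?_
  have h0 : ∀ i, 0 ≤ (if B i w then p w else 0) := fun i => by
    split_ifs <;> first | exact hp w | exact le_rfl
  have hG : 0 ≤ (if G w then p w else 0) := by split_ifs <;> first | exact hp w | exact le_rfl
  have hs := Finset.sum_nonneg fun i (_ : i ∈ s) => h0 i
  by_cases hA : A w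
  · rw [if_pos hA]
    rcases (hp w).eq_or_lt with hz | hz
    · rw [← hz] at hs hG ⊢
      linarith
    · rcases h w hz hA with ⟨i, hi, hB⟩ | h1
      · have h2 := Finset.single_le_sum (fun i (_ : i ∈ s) => h0 i) hi
        rw [if_pos hB] at h2
        linarith
      · rw [if_pos h1]
        linarith
  · rw [if_neg hA]
    linarith

theorem pmarg {W : Type} [Fintype W] {q : W → ℝ} {f : W → Ω}
    (h : Marg q p f) (A : Ω → Prop) : Pb q (fun w => A (f w)) = Pb p A := by
  classical
  have h1 := h.ex (fun ω => if A ω then 1 else 0)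
  unfold Pool.Agent.H32.Dense.Ex at h1
  have e1 : Pb q (fun w => A (f w)) = ∑ w, q w * (if A (f w) then 1 else 0) := by
    unfold Pb
    refine Finset.sum_congr rfl fun w _ => ?_
    by_cases k : A (f w)
    · rw [if_pos k, if_pos k, mul_one]
    · rw [if_neg k, if_neg k, mul_zero]
  have e2 : Pb p A = ∑ ω, p ω * (if A ω then 1 else 0) := by
    unfold Pb
    refine Finset.sum_congr rfl fun w _ => ?_
    by_cases k : A w
    · rw [if_pos k, if_pos k, mul_one]
    · rw [if_neg k, if_neg k, mul_zero]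
  rw [e1, e2]
  exact h1

open Classical in
theorem Pb_tup (hp : ∀ ω, 0 ≤ p ω) (L : Ω → Λ) (N : ℕ) (Φ : (Fin (N + 1) → Ω) → Prop) :
    Pb (tup p L N) Φ = ∑ z ∈ univ.image L, law p L z *
      ∑ v : Fin (N + 1) → Ω, if Φ v then ∏ j, cond p L z (v j) else 0 := by
  unfold Pb
  simp only [Finset.mul_sum]
  rw [Finset.sum_comm]
  refine Finset.sum_congr rfl fun v _ => ?_
  by_cases h : Φ v
  · simp only [if_pos h]
    exact tup_mix hp L N v
  · simp only [if_neg h, mul_zero, Finset.sum_const_zero]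

open Classical in
theorem Pb_cond_mix (hp : ∀ ω, 0 ≤ p ω) (L : Ω → Λ) (G : Ω → Prop) :
    Pb p G = ∑ z ∈ univ.image L, law p L z * Pb (cond p L z) G := by
  have h1 := Pb_tup hp L 0 (fun v => G (v 0))
  have h2 : Pb (tup p L 0) (fun v => G (v 0)) = Pb p G := pmarg (tup_marg hp L 0 0) G
  rw [← h2, h1]
  refine Finset.sum_congr rfl fun z _ => ?_
  congr 1
  unfold Pb
  rw [← (Equiv.funUnique (Fin 1) Ω).symm.sum_comp]
  refine Finset.sum_congr rfl fun ω _ => ?_
  simp

/-- **Pairs.** -/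
theorem pair_sq (hp : IsLaw p) (L : Ω → Λ) (G : Ω → Prop) :
    Pb p G ^ 2 ≤ Pb (tup p L 1) (fun v => G (v 0) ∧ G (v 1)) := by
  classical
  have h0 := hp.nonneg
  have h1 := Pb_cond_mix h0 L G
  have h2 : Pb (tup p L 1) (fun v => G (v 0) ∧ G (v 1)) =
      ∑ z ∈ univ.image L, law p L z * Pb (cond p L z) G ^ 2 := by
    rw [Pb_tup h0]
    refine Finset.sum_congr rfl fun z _ => ?_
    congr 1
    refine (Finset.sum_congr rfl fun v _ => (?_ : _ =
      ∏ j : Fin 2, if G (v j) then cond p L z (v j) else 0)).trans ?_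
    · rw [Fin.prod_univ_two]
      by_cases a : G (v 0) <;> by_cases b : G (v 1) <;> simp [a, b]
    · refine (sum_pi_prod fun (_ : Fin 2) x => if G x then cond p L z x else 0).trans ?_
      rw [Fin.prod_univ_two]
      unfold Pb
      rw [sq]
  have h3 : ∑ z ∈ univ.image L, law p L z = 1 := by
    have h4 := Pb_cond_mix h0 L (fun _ => True)
    have h5 : Pb p (fun _ => True) = 1 := by
      unfold Pb
      simpa using hp.sum_one
    rw [h5] at h4
    rw [h4]
    refine Finset.sum_congr rfl fun z hz => ?_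
    by_cases h6 : law p L z = 0
    · rw [h6, zero_mul]
    · have h7 : Pb (cond p L z) (fun _ => True) = 1 := by
        unfold Pb
        simpa using sum_cond p L h6
      rw [h7, mul_one]
  rw [h2]
  have h6 : 0 ≤ ∑ z ∈ univ.image L, law p L z * (Pb (cond p L z) G - Pb p G) ^ 2 :=
    Finset.sum_nonneg fun z _ => mul_nonneg (law_nonneg h0 L z) (sq_nonneg _)
  have h7 : ∑ z ∈ univ.image L, law p L z * (Pb (cond p L z) G - Pb p G) ^ 2 =
      ∑ z ∈ univ.image L, law p L z * Pb (cond p L z) G ^ 2 -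
        2 * Pb p G * ∑ z ∈ univ.image L, law p L z * Pb (cond p L z) G +
        Pb p G ^ 2 * ∑ z ∈ univ.image L, law p L z := by
    rw [Finset.mul_sum, Finset.mul_sum, ← Finset.sum_sub_distrib, ← Finset.sum_add_distrib]
    refine Finset.sum_congr rfl fun z _ => ?_
    ring
  rw [h7, ← h1, h3] at h6
  linarith

/-- **The other times as a function of the line.** -/
theorem tup_fix (hp : IsLaw p) (L : Ω → Λ) (N : ℕ) (Φ : (Fin (N + 1) → Ω) → Prop) :
    ∃ f : Λ → Fin N → Ω, (∀ ω, 0 < p ω → ∀ j, L (f (L ω) j) = L ω ∧ 0 < p (f (L ω) j)) ∧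
      Pb (tup p L N) Φ ≤ Pb p (fun ω => Φ (Fin.cons ω (f (L ω)))) := by
  classical
  have h0 := hp.nonneg
  obtain ⟨ω₀⟩ : Nonempty Ω := by
    by_contra h
    rw [not_nonempty_iff] at h
    have := hp.sum_one
    simp at this
  obtain ⟨W, hW⟩ : ∃ W : Λ → (Fin N → Ω) → ℝ, W = fun z u =>
      Pb (cond p L z) (fun ω => Φ (Fin.cons ω u)) := ⟨_, rfl⟩
  obtain ⟨S, hS⟩ : ∃ S : Λ → Finset (Fin N → Ω), S = fun z =>
      univ.filter fun u => ∀ j, L (u j) = z ∧ 0 < p (u j) := ⟨_, rfl⟩
  have hSm : ∀ z u, u ∈ S z ↔ ∀ j, L (u j) = z ∧ 0 < p (u j) := fun z u => by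
    rw [hS]
    simp
  have key : ∀ z, ∃ u : Fin N → Ω, ((S z).Nonempty → u ∈ S z ∧ ∀ u' ∈ S z, W z u' ≤ W z u) := by
    intro z
    by_cases h : (S z).Nonempty
    · obtain ⟨u, h1, h2⟩ := Finset.exists_max_image (S z) (W z) h
      exact ⟨u, fun _ => ⟨h1, h2⟩⟩
    · exact ⟨fun _ => ω₀, fun h' => absurd h' h⟩
  choose f hf using key
  have hne : ∀ ω, 0 < p ω → (S (L ω)).Nonempty := fun ω hω =>
    ⟨fun _ => ω, (hSm _ _).2 fun _ => ⟨rfl, hω⟩⟩
  refine ⟨f, fun ω hω j => (hSm _ _).1 (hf _ (hne ω hω)).1 j, ?_⟩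
  rw [Pb_tup h0]
  have e1 : Pb p (fun ω => Φ (Fin.cons ω (f (L ω)))) =
      ∑ z ∈ univ.image L, law p L z * W z (f z) := by
    rw [Pb_cond_mix h0 L]
    refine Finset.sum_congr rfl fun z _ => ?_
    congr 1
    rw [hW]
    unfold Pb
    refine Finset.sum_congr rfl fun ω _ => ?_
    by_cases h : L ω = z
    · subst h
      rfl
    · have e : cond p L z ω = 0 := by
        unfold Pool.Agent.H49.Ent.cond
        rw [if_neg h]
      rw [e]
      split_ifs <;> rfl
  rw [e1]
  refine Finset.sum_le_sum fun z hz => ?_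
  rcases (law_nonneg h0 L z).eq_or_lt with h5 | h5
  · rw [← h5, zero_mul, zero_mul]
  refine mul_le_mul_of_nonneg_left ?_ h5.le
  have hc0 : ∀ ω, 0 ≤ cond p L z ω := cond_nonneg h0 L z
  have hc1 : ∑ ω, cond p L z ω = 1 := sum_cond p L h5.ne'
  -- split the first time
  have e2 : (∑ v : Fin (N + 1) → Ω, if Φ v then ∏ j, cond p L z (v j) else 0) =
      ∑ u : Fin N → Ω, (∏ j, cond p L z (u j)) * W z u := by
    rw [← (Fin.consEquiv (fun _ : Fin (N + 1) => Ω)).sum_comp, Fintype.sum_prod_type,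
      Finset.sum_comm]
    refine Finset.sum_congr rfl fun u _ => ?_
    rw [hW]
    simp only
    unfold Pb
    rw [Finset.mul_sum]
    refine Finset.sum_congr rfl fun ω _ => ?_
    have e3 : Fin.consEquiv (fun _ : Fin (N + 1) => Ω) (ω, u) = Fin.cons ω u := rfl
    rw [e3]
    by_cases h : Φ (Fin.cons ω u)
    · rw [if_pos h, if_pos h, Fin.prod_univ_succ]
      simp only [Fin.cons_zero, Fin.cons_succ]
      ring
    · rw [if_neg h, if_neg h, mul_zero]
  rw [e2]
  have hzne : (S z).Nonempty := by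
    rw [Finset.mem_image] at hz
    by_contra h
    have : ∀ ω, cond p L z ω = 0 := by
      intro ω
      by_cases h6 : L ω = z
      · rcases (h0 ω).eq_or_lt with h7 | h7
        · unfold Pool.Agent.H49.Ent.cond
          rw [if_pos h6, ← h7, zero_div]
        · exact absurd (h6 ▸ hne ω h7) h
      · unfold Pool.Agent.H49.Ent.cond
        rw [if_neg h6]
    rw [Finset.sum_congr rfl fun ω _ => this ω, Finset.sum_const_zero] at hc1
    exact zero_ne_one hc1
  have h8 : ∀ u : Fin N → Ω, (∏ j, cond p L z (u j)) * W z u ≤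
      (∏ j, cond p L z (u j)) * W z (f z) := by
    intro u
    by_cases h9 : u ∈ S z
    · exact mul_le_mul_of_nonneg_left ((hf z hzne).2 u h9)
        (Finset.prod_nonneg fun j _ => hc0 _)
    · have : ∏ j, cond p L z (u j) = 0 := by
        rw [hSm] at h9
        push Not at h9
        obtain ⟨j, hj⟩ := h9
        refine Finset.prod_eq_zero (Finset.mem_univ j) ?_
        unfold Pool.Agent.H49.Ent.cond
        split_ifs with h10
        · have := le_antisymm (hj h10) (h0 _)
          rw [this, zero_div]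
        · rfl
      rw [this, zero_mul, zero_mul]
  refine (Finset.sum_le_sum fun u _ => h8 u).trans ?_
  rw [← Finset.sum_mul, sum_pi_prod fun (_ : Fin N) x => cond p L z x]
  simp only [hc1, Finset.prod_const_one, one_mul, le_refl]

end Pool.LBL
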