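import Pool.Agent.H36.LBL.Unq
import Pool.Agent.H36.LBL.Fix
import Pool.Agent.H64.POT.Ok
import Mathlib.LinearAlgebra.Matrix.Block

/-!
# The covector of a body which is conserved along the lines (K_POT, last step)

`cov_last`: `A (pt ω)` is a body at the point, `M ω` the change of the charts. If the body is
conserved along the lines, contains the three-point vectors of the slopes and has a covector, then
the covector with the smallest leading coordinate is, in the chart of the line, a function of the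
line, and makes the slopes affine in the time.
-/

set_option autoImplicit false

namespace Pool.LBL

open Finset Real Matrix
open Pool.Agent.H49.Ent Pool.Agent.H32.Dense Pool.STK Pool.SLO
open Pool.BFL (Pb)
open Pool.QT64 (d3)

variable {c k : ℕ}

/-! ### Unipotent matrices -/

/-- Unipotent and lower triangular. -/
structure Uni (M : Matrix (Fin c) (Fin c) ℝ) : Prop where
  one : ∀ i, M i i = 1
  zero : ∀ i j, i < j → M i j = 0

theorem Uni.det {M : Matrix (Fin c) (Fin c) ℝ} (h : Uni M) : M.det = 1 := by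
  rw [Matrix.det_of_isLowerTriangular M (fun i j hij => h.zero i j hij)]
  exact Finset.prod_eq_one fun i _ => h.one i

/-- The leading coordinate is `l`, with the value `1`. -/
def Ld (l : Fin c) (x : Fin c → ℝ) : Prop := x l = 1 ∧ ∀ j, l < j → x j = 0

theorem Uni.ld {M : Matrix (Fin c) (Fin c) ℝ} (h : Uni M) {l : Fin c} {x : Fin c → ℝ}
    (hx : Ld l x) : Ld l (x ᵥ* M) := by
  constructor
  · show ∑ a, x a * M a l = 1
    rw [Finset.sum_eq_single l, hx.1, h.one, one_mul]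
    · intro a _ ha
      rcases lt_or_gt_of_ne ha with h1 | h1
      · rw [h.zero a l h1, mul_zero]
      · rw [hx.2 a h1, zero_mul]
    · intro h1
      exact absurd (mem_univ l) h1
  · intro j hj
    show ∑ a, x a * M a j = 0
    refine Finset.sum_eq_zero fun a _ => ?_
    rcases lt_or_ge a j with h1 | h1
    · rw [h.zero a j h1, mul_zero]
    · rw [hx.2 a (hj.trans_le h1), zero_mul]

theorem Uni.ld_of {M : Matrix (Fin c) (Fin c) ℝ} (h : Uni M) {l : Fin c} {y : Fin c → ℝ}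
    (hy : Ld l (y ᵥ* M)) : Ld l y := by
  have key : ∀ N : ℕ, ∀ j : Fin c, c - j.1 ≤ N → l < j → y j = 0 := by
    intro N
    induction N with
    | zero =>
      intro j hj
      have := j.2
      omega
    | succ N ih =>
      intro j hj hlj
      have h1 := hy.2 j hlj
      have h2 : (y ᵥ* M) j = y j := by
        show ∑ a, y a * M a j = y j
        rw [Finset.sum_eq_single j, h.one, mul_one]
        · intro a _ ha
          rcases lt_or_gt_of_ne ha with h3 | h3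
          · rw [h.zero a j h3, mul_zero]
          · rw [ih a (by have := a.2; have : j.1 < a.1 := h3; omega) (hlj.trans h3), zero_mul]
        · intro h3
          exact absurd (mem_univ j) h3
      rw [← h2, h1]
  have h0 : ∀ j, l < j → y j = 0 := fun j hj => key _ j le_rfl hj
  refine ⟨?_, h0⟩
  have h1 := hy.1
  have h2 : (y ᵥ* M) l = y l := by
    show ∑ a, y a * M a l = y l
    rw [Finset.sum_eq_single l, h.one, mul_one]
    · intro a _ ha
      rcases lt_or_gt_of_ne ha with h3 | h3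
      · rw [h.zero a l h3, mul_zero]
      · rw [h0 a h3, zero_mul]
    · intro h3
      exact absurd (mem_univ l) h3
  rw [← h2, h1]

theorem Ad.ld {A : Matrix (Fin c) (Fin c) ℝ} {l : Fin c} {R δ : ℝ} {m : Fin c → ℝ}
    (h : Ad A l R δ m) : Ld l m := ⟨h.one, h.zero⟩

theorem sum_abs_le {x y : Fin c → ℝ} {a b : ℝ} (ha : 0 ≤ a) (hx : ∀ i, |x i| ≤ a)
    (hy : ∀ i, |y i| ≤ b) : |∑ i, x i * y i| ≤ c * (a * b) := by
  refine (Finset.abs_sum_le_sum_abs _ _).trans ?_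
  have h1 : ∀ i ∈ (univ : Finset (Fin c)), |x i * y i| ≤ a * b := fun i _ => by
    rw [abs_mul]
    exact mul_le_mul (hx i) (hy i) (abs_nonneg _) ha
  refine (Finset.sum_le_sum h1).trans ?_
  rw [Finset.sum_const, Finset.card_univ, Fintype.card_fin, nsmul_eq_mul]

/-! ### Two points of a line -/

/-- **The covectors of two points of a line.** -/
theorem two_pts {A0 A1 M0 M1 : Matrix (Fin c) (Fin c) ℝ} {C K G ρ : ℝ} {R δ : Fin c → ℝ}
    {l : Fin c} {n0 n1 : Fin c → ℝ} (hC : ∀ i b, |A0 i b| ≤ C) (hR : ∀ i, 1 ≤ R i) (hρ : 0 < ρ)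
    (hdet : A1.det ≠ 0) (u0 : Uni M0) (u1 : Uni M1) (hG : ∀ i j, |M0 i j| ≤ G)
    (h0 : Ad A0 l (R l) (δ l) n0) (h1 : Ad A1 l (R l) (δ l) n1)
    (hno : ∀ l' < l, ∀ m, ¬ Ad A0 l' (R l') (δ l') m)
    (hp : ∀ l' < l, ((c * K + 1) * δ l / ρ +
      ∑ i ∈ univ.filter (fun i => l' < i ∧ i < l), C / R i) * R l' ≤ δ l')
    (htr : ∀ i j, |(A1⁻¹ * (M1 * M0⁻¹ * A0)) i j| ≤ K) (i : Fin c) :
    |(n0 ᵥ* M0) i - (n1 ᵥ* M1) i| ≤ c * (ρ * G) := by
  have hM0 : IsUnit M0.det := by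
    rw [u0.det]
    exact isUnit_one
  have hA1 : IsUnit A1.det := isUnit_iff_ne_zero.2 hdet
  have hδ : 0 ≤ δ l := (abs_nonneg _).trans (h0.sm l)
  obtain ⟨y, hy⟩ : ∃ y, y = n1 ᵥ* (M1 * M0⁻¹) := ⟨_, rfl⟩
  have hyM : y ᵥ* M0 = n1 ᵥ* M1 := by
    rw [hy, vecMul_vecMul, Matrix.mul_assoc, Matrix.nonsing_inv_mul _ hM0, Matrix.mul_one]
  have hyl : Ld l y := u0.ld_of (by rw [hyM]; exact u1.ld h1.ld)
  have hyA : ∀ b, |(y ᵥ* A0) b| ≤ c * (δ l * K) := by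
    intro b
    have e1 : y ᵥ* A0 = (n1 ᵥ* A1) ᵥ* (A1⁻¹ * (M1 * M0⁻¹ * A0)) := by
      rw [hy, vecMul_vecMul, vecMul_vecMul, ← Matrix.mul_assoc, Matrix.mul_nonsing_inv _ hA1,
        Matrix.one_mul]
    rw [e1]
    exact sum_abs_le hδ (fun a => h1.sm a) (fun a => htr a b)
  have hd : ∀ j, |(y - n0) j| ≤ ρ := by
    refine unq (Δ := (c * K + 1) * δ l) hC hR hρ hno hp ?_ ?_
    · intro j hj
      rcases hj.eq_or_lt with h | h
      · rw [← h, Pi.sub_apply, hyl.1, h0.one, sub_self]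
      · rw [Pi.sub_apply, hyl.2 j h, h0.zero j h, sub_self]
    · intro b
      have e1 : ∑ a, (y - n0) a * A0 a b = (y ᵥ* A0) b - ∑ a, n0 a * A0 a b := by
        show _ = ∑ a, y a * A0 a b - _
        rw [← Finset.sum_sub_distrib]
        refine Finset.sum_congr rfl fun a _ => ?_
        rw [Pi.sub_apply]
        ring
      rw [e1]
      refine (abs_sub _ _).trans ((add_le_add (hyA b) (h0.sm b)).trans (le_of_eq ?_))
      ring
  have e2 : (n0 ᵥ* M0) i - (n1 ᵥ* M1) i = -∑ a, (y - n0) a * M0 a i := by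
    rw [← hyM]
    show ∑ a, n0 a * M0 a i - ∑ a, y a * M0 a i = _
    rw [← Finset.sum_sub_distrib, ← Finset.sum_neg_distrib]
    refine Finset.sum_congr rfl fun a _ => ?_
    rw [Pi.sub_apply]
    ring
  rw [e2, abs_neg]
  exact sum_abs_le hρ.le hd (fun a => hG a i)

/-- The covector on a vector of the body. -/
theorem on_body {A1 M1 : Matrix (Fin c) (Fin c) ℝ} {K R δ : ℝ} {l : Fin c} {n1 d : Fin c → ℝ}
    (hdet : A1.det ≠ 0) (h1 : Ad A1 l R δ n1) (hd : ∀ b, |(A1⁻¹ *ᵥ (M1 *ᵥ d)) b| ≤ K) :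
    |∑ i, (n1 ᵥ* M1) i * d i| ≤ c * (δ * K) := by
  have hA1 : IsUnit A1.det := isUnit_iff_ne_zero.2 hdet
  have hδ : 0 ≤ δ := (abs_nonneg _).trans (h1.sm l)
  have e1 : ∑ i, (n1 ᵥ* M1) i * d i = ∑ b, (n1 ᵥ* A1) b * (A1⁻¹ *ᵥ (M1 *ᵥ d)) b := by
    show (n1 ᵥ* M1) ⬝ᵥ d = (n1 ᵥ* A1) ⬝ᵥ (A1⁻¹ *ᵥ (M1 *ᵥ d))
    rw [← dotProduct_mulVec, ← dotProduct_mulVec, mulVec_mulVec, Matrix.mul_nonsing_inv _ hA1,
      one_mulVec]
  rw [e1]
  exact sum_abs_le hδ (fun b => h1.sm b) hd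

/-- Three times. -/
theorem three_pts {T : Type} {τ : T → ℤ} {E : T → Fin k → Fin c → ℝ} {n : Fin c → ℝ}
    {s ε : ℝ} {X : ℕ} {u : Fin k} {t0 t2 t3 : T} (hs : 0 < s) (hs1 : s ≤ 1) (hε : 0 ≤ ε)
    (hτ : |((τ t0 - τ t3 : ℤ) : ℝ)| ≤ 2 ^ X) (hT : s * 2 ^ X < |((τ t2 - τ t3 : ℤ) : ℝ)|)
    (h1 : |∑ i, n i * d3 τ E u t0 t2 t3 i| ≤ ε) (h2 : |∑ i, n i * d3 τ E u t2 t0 t3 i| ≤ ε) :
    |∑ i, n i * E t0 u i - (∑ i, n i * E t3 u i -
        (∑ i, n i * E t2 u i - ∑ i, n i * E t3 u i) / ((τ t2 : ℝ) - τ t3) * τ t3) -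
      (∑ i, n i * E t2 u i - ∑ i, n i * E t3 u i) / ((τ t2 : ℝ) - τ t3) * τ t0| ≤ ε / s := by
  have hX : (0 : ℝ) < 2 ^ X := by positivity
  have hD0 : (0 : ℝ) < |((τ t2 - τ t3 : ℤ) : ℝ)| := lt_of_le_of_lt (by positivity) hT
  push_cast at hD0 hT hτ
  obtain ⟨D, hD⟩ : ∃ D : ℝ, D = (τ t2 : ℝ) - τ t3 := ⟨_, rfl⟩
  obtain ⟨D', hD'⟩ : ∃ D' : ℝ, D' = (τ t0 : ℝ) - τ t3 := ⟨_, rfl⟩
  rw [← hD] at hD0 hT
  rw [← hD'] at hτ
  have hDne : D ≠ 0 := abs_pos.1 hD0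
  have hne : τ t2 ≠ τ t3 := fun h => by
    apply hDne
    rw [hD, h, sub_self]
  obtain ⟨a0, ha0⟩ : ∃ a0, a0 = ∑ i, n i * E t0 u i := ⟨_, rfl⟩
  obtain ⟨a2, ha2⟩ : ∃ a2, a2 = ∑ i, n i * E t2 u i := ⟨_, rfl⟩
  obtain ⟨a3, ha3⟩ : ∃ a3, a3 = ∑ i, n i * E t3 u i := ⟨_, rfl⟩
  rw [← ha0, ← ha2, ← ha3, ← hD]
  have e0 : a0 - (a3 - (a2 - a3) / D * τ t3) - (a2 - a3) / D * τ t0 =
      (a0 - a3) - D' / D * (a2 - a3) := by
    rw [hD']
    field_simp
    ring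
  rw [e0]
  have hes : ε ≤ ε / s := by
    rw [le_div_iff₀ hs]
    nlinarith
  by_cases hc : |τ t0 - τ t3| ≤ |τ t2 - τ t3|
  · have e1 : ∑ i, n i * d3 τ E u t0 t2 t3 i = (a0 - a3) - D' / D * (a2 - a3) := by
      unfold d3
      rw [ha0, ha2, ha3, ← Finset.sum_sub_distrib, ← Finset.sum_sub_distrib, Finset.mul_sum,
        ← Finset.sum_sub_distrib]
      refine Finset.sum_congr rfl fun i _ => ?_
      rw [if_pos ⟨hne, hc⟩, hD, hD']
      ring
    rw [← e1]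
    exact h1.trans hes
  · have hc' : |τ t2 - τ t3| < |τ t0 - τ t3| := not_le.1 hc
    have hD'pos : |D| < |D'| := by
      have : ((|τ t2 - τ t3| : ℤ) : ℝ) < ((|τ t0 - τ t3| : ℤ) : ℝ) := by exact_mod_cast hc'
      push_cast at this
      rw [← hD, ← hD'] at this
      exact this
    have hD'0 : D' ≠ 0 := fun h => by
      rw [h, abs_zero] at hD'pos
      linarith
    have hne' : τ t0 ≠ τ t3 := fun h => by
      apply hD'0
      rw [hD', h, sub_self]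
    have e1 : ∑ i, n i * d3 τ E u t2 t0 t3 i = (a2 - a3) - D / D' * (a0 - a3) := by
      unfold d3
      rw [ha0, ha2, ha3, ← Finset.sum_sub_distrib, ← Finset.sum_sub_distrib, Finset.mul_sum,
        ← Finset.sum_sub_distrib]
      refine Finset.sum_congr rfl fun i _ => ?_
      rw [if_pos ⟨hne', hc'.le⟩, hD, hD']
      ring
    have e2 : (a0 - a3) - D' / D * (a2 - a3) = -(D' / D) * ∑ i, n i * d3 τ E u t2 t0 t3 i := by
      rw [e1]
      field_simp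
      ring
    rw [e2, abs_mul, abs_neg, abs_div]
    have e3 : |D'| / |D| ≤ 1 / s := by
      rw [div_le_div_iff₀ hD0 hs]
      nlinarith
    calc |D'| / |D| * |∑ i, n i * d3 τ E u t2 t0 t3 i| ≤ 1 / s * ε :=
          mul_le_mul e3 h2 (abs_nonneg _) (by positivity)
      _ = ε / s := by ring

/-! ### The smallest leading coordinate -/

/-- The smallest leading coordinate is `l`. -/
def Mn (R δ : Fin c → ℝ) (l : Fin c) (A : Matrix (Fin c) (Fin c) ℝ) : Prop :=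
  (∃ m, Ad A l (R l) (δ l) m) ∧ ∀ l' < l, ∀ m, ¬ Ad A l' (R l') (δ l') m

theorem exists_mn {R δ : Fin c → ℝ} {A : Matrix (Fin c) (Fin c) ℝ}
    (h : ∃ l m, Ad A l (R l) (δ l) m) : ∃ l, Mn R δ l A := by
  classical
  obtain ⟨l, hl⟩ := h
  have hne : (univ.filter fun l => ∃ m, Ad A l (R l) (δ l) m).Nonempty :=
    ⟨l, mem_filter.2 ⟨mem_univ l, hl⟩⟩
  refine ⟨(univ.filter fun l => ∃ m, Ad A l (R l) (δ l) m).min' hne, ?_, fun l' hl' m hm => ?_⟩
  · have := Finset.min'_mem _ hne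
    rw [mem_filter] at this
    exact this.2
  · have h1 : l' ∈ univ.filter fun l => ∃ m, Ad A l (R l) (δ l) m := by
      rw [mem_filter]
      exact ⟨mem_univ l', m, hm⟩
    exact absurd hl' (not_lt.2 (Finset.min'_le _ l' h1))

open Classical in
/-- The covector of a body. -/
noncomputable def nOf (R δ : Fin c → ℝ) (l : Fin c) (A : Matrix (Fin c) (Fin c) ℝ) : Fin c → ℝ :=
  if h : ∃ m, Ad A l (R l) (δ l) m then h.choose else Pi.single l 1

theorem nOf_ad {R δ : Fin c → ℝ} {l : Fin c} {A : Matrix (Fin c) (Fin c) ℝ}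
    (h : ∃ m, Ad A l (R l) (δ l) m) : Ad A l (R l) (δ l) (nOf R δ l A) := by
  unfold nOf
  rw [dif_pos h]
  exact h.choose_spec

theorem single_ld (l : Fin c) : Ld l (Pi.single l (1 : ℝ) : Fin c → ℝ) :=
  ⟨Pi.single_eq_same _ _, fun _ hj => Pi.single_eq_of_ne (ne_of_gt hj) _⟩

theorem single_le (l : Fin c) {R : ℝ} (hR : 1 ≤ R) (i : Fin c) :
    |(Pi.single l (1 : ℝ) : Fin c → ℝ) i| ≤ R := by
  rw [Pi.single_apply]
  split_ifs
  · rw [abs_one]
    exact hR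
  · rw [abs_zero]
    linarith

theorem nOf_ld (R δ : Fin c → ℝ) (l : Fin c) (A : Matrix (Fin c) (Fin c) ℝ) :
    Ld l (nOf R δ l A) := by
  unfold nOf
  split_ifs with h
  · exact h.choose_spec.ld
  · exact single_ld l

theorem nOf_le {R δ : Fin c → ℝ} {l : Fin c} (hR : 1 ≤ R l) (A : Matrix (Fin c) (Fin c) ℝ)
    (i : Fin c) : |nOf R δ l A i| ≤ R l := by
  unfold nOf
  split_ifs with h
  · exact h.choose_spec.le i
  · exact single_le l hR i

/-! ### The last step -/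

section last

variable {Ω Λ Pt : Type} [Fintype Ω] {p : Ω → ℝ}

theorem Pb_pigeon (hp : ∀ ω, 0 ≤ p ω) {p0 : ℝ} (A : Fin c → Ω → Prop)
    (h : p0 ≤ Pb p (fun ω => ∃ l, A l ω)) (h0 : 0 < p0) : ∃ l, p0 / c ≤ Pb p (A l) := by
  classical
  by_contra hcon
  push Not at hcon
  have h1 : Pb p (fun ω => ∃ l, A l ω) ≤ ∑ l, Pb p (A l) + Pb p (fun _ => False) :=
    pbad hp univ A fun ω _ hA => .inl (by
      obtain ⟨l, hl⟩ := hA
      exact ⟨l, mem_univ l, hl⟩)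
  have h2 : Pb p (fun _ => False) = 0 := by
    unfold Pb
    simp
  rw [h2, add_zero] at h1
  rcases Nat.eq_zero_or_pos c with hc | hc
  · subst hc
    simp only [Finset.univ_eq_empty, Finset.sum_empty] at h1
    linarith
  · have hc' : (0 : ℝ) < c := by exact_mod_cast hc
    have h3 : ∑ l, Pb p (A l) < ∑ _l : Fin c, p0 / c := by
      have : Nonempty (Fin c) := ⟨⟨0, hc⟩⟩
      exact Finset.sum_lt_sum_of_nonempty Finset.univ_nonempty fun l _ => hcon l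
    rw [Finset.sum_const, Finset.card_univ, Fintype.card_fin, nsmul_eq_mul,
      mul_div_cancel₀ _ hc'.ne'] at h3
    linarith

/-- **The last step.** -/
theorem cov_last (hp : IsLaw p) (L : Ω → Λ) (pt : Ω → Pt) (A : Pt → Matrix (Fin c) (Fin c) ℝ)
    (M : Ω → Matrix (Fin c) (Fin c) ℝ) (τ : Ω → ℤ) (E : Ω → Fin k → Fin c → ℝ)
    {R δ : Fin c → ℝ} {C G CE K ρ p0 η s : ℝ} {X : ℕ}
    (hdet : ∀ P, (A P).det ≠ 0) (hC : ∀ P i b, |A P i b| ≤ C) (hR : ∀ i, 1 ≤ R i) (hρ : 0 < ρ)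
    (hM : ∀ ω, Uni (M ω)) (hG : ∀ ω i j, |M ω i j| ≤ G) (hG1 : 1 ≤ G) (hK : 0 ≤ K)
    (hE : ∀ ω, 0 < p ω → ∀ u i, |E ω u i| ≤ CE)
    (hτ : ∀ ω, 0 < p ω → 0 ≤ τ ω ∧ τ ω < 2 ^ X) (hs : 0 < s) (hs1 : s ≤ 1) (hp0 : 0 < p0)
    (hcv : p0 ≤ Pb p (fun ω => ∃ l m, Ad (A (pt ω)) l (R l) (δ l) m))
    (htr : Pb (tup p L 1) (fun w => ¬ ∀ i j,
      |((A (pt (w 0)))⁻¹ * (M (w 0) * (M (w 1))⁻¹ * A (pt (w 1)))) i j| ≤ K) ≤ η)
    (hbd : Pb (tup p L 3) (fun w => ¬ ∀ u b,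
      |((A (pt (w 0)))⁻¹ *ᵥ (M (w 0) *ᵥ d3 τ E u (w 1) (w 2) (w 3))) b| ≤ K) ≤ η)
    (htm : Pb (tup p L 1) (fun w => |((τ (w 0) - τ (w 1) : ℤ) : ℝ)| ≤ s * 2 ^ X) ≤ η)
    (hpr : ∀ l, ∀ l' < l, ((c * K + 1) * δ l / ρ +
      ∑ i ∈ univ.filter (fun i => l' < i ∧ i < l), C / R i) * R l' ≤ δ l') :
    ∃ (l : Fin c) (nD : Pt → Fin c → ℝ) (n : Λ → Fin c → ℝ) (e0 e1 : Λ → Fin k → ℝ),
      (∀ P, Ld l (nD P) ∧ ∀ i, |nD P i| ≤ R l) ∧
      (∀ z, Ld l (n z) ∧ ∀ i, |n z i| ≤ c * (R l * G)) ∧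
      (∀ z u, |e0 z u| ≤ 3 * (c * (c * (R l * G) * CE)) / s ∧
        |e1 z u| * 2 ^ X ≤ 2 * (c * (c * (R l * G) * CE)) / s) ∧
      (p0 / c) ^ 2 - 4 * η ≤ Pb p (fun ω =>
        (∀ i, |(nD (pt ω) ᵥ* M ω) i - n (L ω) i| ≤ c * (ρ * G)) ∧
        ∀ u, |∑ i, n (L ω) i * E ω u i - e0 (L ω) u - e1 (L ω) u * τ ω| ≤
          c * (δ l * K) / s) := by
  classical
  have h0 := hp.nonneg
  -- the leading coordinate
  obtain ⟨l, hl⟩ := Pb_pigeon h0 (fun l ω => Mn R δ l (A (pt ω)))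
    (hcv.trans (pmono h0 fun ω _ h => exists_mn h)) hp0
  have hc1 : (1 : ℝ) ≤ c := by
    have : 0 < c := Fin.pos l
    exact_mod_cast this
  -- the event of the tuples
  obtain ⟨Gd, hGd⟩ : ∃ Gd : (Fin 4 → Ω) → Prop, Gd = fun w =>
    Mn R δ l (A (pt (w 0))) ∧ Mn R δ l (A (pt (w 1))) ∧
    (∀ i j, |((A (pt (w 1)))⁻¹ * (M (w 1) * (M (w 0))⁻¹ * A (pt (w 0)))) i j| ≤ K) ∧
    (∀ u b, |((A (pt (w 1)))⁻¹ *ᵥ (M (w 1) *ᵥ d3 τ E u (w 0) (w 2) (w 3))) b| ≤ K) ∧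
    (∀ u b, |((A (pt (w 1)))⁻¹ *ᵥ (M (w 1) *ᵥ d3 τ E u (w 2) (w 0) (w 3))) b| ≤ K) ∧
    s * 2 ^ X < |((τ (w 2) - τ (w 3) : ℤ) : ℝ)| := ⟨_, rfl⟩
  have hPG : (p0 / c) ^ 2 - 4 * η ≤ Pb (tup p L 3) Gd := by
    have a0 : (p0 / c) ^ 2 ≤ Pb (tup p L 3) (fun w =>
        Mn R δ l (A (pt (w 0))) ∧ Mn R δ l (A (pt (w 1)))) := by
      have b1 := pair_sq hp L (fun ω => Mn R δ l (A (pt ω)))
      have b2 : (p0 / c) ^ 2 ≤ Pb p (fun ω => Mn R δ l (A (pt ω))) ^ 2 :=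
        pow_le_pow_left₀ (by positivity) hl 2
      have b3 := pmarg (tup_sub h0 L (M := 1) (N := 3) ![0, 1] (by decide))
        (fun v => Mn R δ l (A (pt (v 0))) ∧ Mn R δ l (A (pt (v 1))))
      have b4 : Pb (tup p L 3) (fun w => Mn R δ l (A (pt (w 0))) ∧ Mn R δ l (A (pt (w 1)))) =
          Pb (tup p L 1) (fun v => Mn R δ l (A (pt (v 0))) ∧ Mn R δ l (A (pt (v 1)))) := b3
      rw [b4]
      exact b2.trans b1
    obtain ⟨B, hB⟩ : ∃ B : Fin 4 → (Fin 4 → Ω) → Prop, B = ![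
      fun w => ¬ ∀ i j, |((A (pt (w 1)))⁻¹ * (M (w 1) * (M (w 0))⁻¹ * A (pt (w 0)))) i j| ≤ K,
      fun w => ¬ ∀ u b, |((A (pt (w 1)))⁻¹ *ᵥ (M (w 1) *ᵥ d3 τ E u (w 0) (w 2) (w 3))) b| ≤ K,
      fun w => ¬ ∀ u b, |((A (pt (w 1)))⁻¹ *ᵥ (M (w 1) *ᵥ d3 τ E u (w 2) (w 0) (w 3))) b| ≤ K,
      fun w => |((τ (w 2) - τ (w 3) : ℤ) : ℝ)| ≤ s * 2 ^ X] := ⟨_, rfl⟩
    have b0 : Pb (tup p L 3) (B 0) ≤ η := by
      have b3 := pmarg (tup_sub h0 L (M := 1) (N := 3) ![1, 0] (by decide))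
        (fun w => ¬ ∀ i j, |((A (pt (w 0)))⁻¹ * (M (w 0) * (M (w 1))⁻¹ * A (pt (w 1)))) i j| ≤ K)
      rw [hB]
      exact (le_of_eq b3).trans htr
    have b1 : Pb (tup p L 3) (B 1) ≤ η := by
      have b3 := pmarg (tup_sub h0 L (M := 3) (N := 3) ![1, 0, 2, 3] (by decide))
        (fun w => ¬ ∀ u b, |((A (pt (w 0)))⁻¹ *ᵥ (M (w 0) *ᵥ d3 τ E u (w 1) (w 2) (w 3))) b| ≤ K)
      rw [hB]
      exact (le_of_eq b3).trans hbd
    have b2 : Pb (tup p L 3) (B 2) ≤ η := by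
      have b3 := pmarg (tup_sub h0 L (M := 3) (N := 3) ![1, 2, 0, 3] (by decide))
        (fun w => ¬ ∀ u b, |((A (pt (w 0)))⁻¹ *ᵥ (M (w 0) *ᵥ d3 τ E u (w 1) (w 2) (w 3))) b| ≤ K)
      rw [hB]
      exact (le_of_eq b3).trans hbd
    have b3 : Pb (tup p L 3) (B 3) ≤ η := by
      have b3 := pmarg (tup_sub h0 L (M := 1) (N := 3) ![2, 3] (by decide))
        (fun w => |((τ (w 0) - τ (w 1) : ℤ) : ℝ)| ≤ s * 2 ^ X)
      rw [hB]
      exact (le_of_eq b3).trans htm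
    have b4 := pbad (tup_nonneg h0 L 3) univ (A := fun w =>
        Mn R δ l (A (pt (w 0))) ∧ Mn R δ l (A (pt (w 1)))) (G := Gd) B (by
      intro w _ hw
      by_cases hh : ∃ i ∈ (univ : Finset (Fin 4)), B i w
      · exact .inl hh
      · right
        push Not at hh
        have g0 := hh 0 (mem_univ _)
        have g1 := hh 1 (mem_univ _)
        have g2 := hh 2 (mem_univ _)
        have g3 := hh 3 (mem_univ _)
        rw [hB] at g0 g1 g2 g3
        rw [hGd]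
        exact ⟨hw.1, hw.2, not_not.1 g0, not_not.1 g1, not_not.1 g2, not_le.1 g3⟩)
    rw [Fin.sum_univ_four] at b4
    linarith
  obtain ⟨f, hf, hfP⟩ := tup_fix hp L 3 Gd
  -- the functions of the line
  obtain ⟨ok, hok⟩ : ∃ ok : Λ → Prop, ok = fun z => Mn R δ l (A (pt (f z 0))) ∧
    (∀ j, 0 < p (f z j)) ∧ s * 2 ^ X < |((τ (f z 1) - τ (f z 2) : ℤ) : ℝ)| := ⟨_, rfl⟩
  obtain ⟨n, hn⟩ : ∃ n : Λ → Fin c → ℝ, n = fun z => if ok z then
    nOf R δ l (A (pt (f z 0))) ᵥ* M (f z 0) else Pi.single l 1 := ⟨_, rfl⟩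
  obtain ⟨e1, he1⟩ : ∃ e1 : Λ → Fin k → ℝ, e1 = fun z u => if ok z then
    (∑ i, n z i * E (f z 1) u i - ∑ i, n z i * E (f z 2) u i) /
      ((τ (f z 1) : ℝ) - τ (f z 2)) else 0 := ⟨_, rfl⟩
  obtain ⟨e0, he0⟩ : ∃ e0 : Λ → Fin k → ℝ, e0 = fun z u => if ok z then
    ∑ i, n z i * E (f z 2) u i - (∑ i, n z i * E (f z 1) u i - ∑ i, n z i * E (f z 2) u i) /
      ((τ (f z 1) : ℝ) - τ (f z 2)) * τ (f z 2) else 0 := ⟨_, rfl⟩
  have hRG : 0 ≤ R l * G := mul_nonneg (by linarith only [hR l]) (by linarith only [hG1])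
  have hnz : ∀ z, Ld l (n z) ∧ ∀ i, |n z i| ≤ c * (R l * G) := by
    intro z
    rw [hn]
    simp only
    split_ifs with h
    · rw [hok] at h
      refine ⟨(hM _).ld (nOf_ld R δ l _), fun i => ?_⟩
      exact sum_abs_le (by linarith only [hR l]) (fun a => nOf_le (hR l) _ a) (fun a => hG _ a i)
    · refine ⟨single_ld l, fun i => single_le l ?_ i⟩
      have : 1 ≤ R l * G := one_le_mul_of_one_le_of_one_le (hR l) hG1
      nlinarith
  have hCE : ∀ ω, 0 < p ω → ∀ z u, |∑ i, n z i * E ω u i| ≤ c * (c * (R l * G) * CE) :=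
    fun ω hω z u => sum_abs_le (by positivity) (hnz z).2 (fun i => hE ω hω u i)
  have hS0 : ∀ ω, 0 < p ω → ∀ u : Fin k, 0 ≤ c * (c * (R l * G) * CE) := fun ω hω u => by
    exact (abs_nonneg _).trans (hCE ω hω (L ω) u)
  have he1b : ∀ z u, |e1 z u| * 2 ^ X ≤ 2 * (c * (c * (R l * G) * CE)) / s := by
    intro z u
    obtain ⟨ω₀, hω₀⟩ : ∃ ω, 0 < p ω := by
      by_contra h
      push Not at h
      have h1 := hp.sum_one
      rw [Finset.sum_eq_zero fun ω _ => le_antisymm (h ω) (h0 ω)] at h1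
      exact zero_ne_one h1
    have hS := hS0 ω₀ hω₀ u
    rw [he1]
    simp only
    split_ifs with h
    · rw [hok] at h
      obtain ⟨-, h2, h3⟩ := h
      push_cast at h3
      have hX : (0 : ℝ) < 2 ^ X := by positivity
      have hD : 0 < |(τ (f z 1) : ℝ) - τ (f z 2)| := lt_of_le_of_lt (by positivity) h3
      rw [abs_div, div_mul_eq_mul_div, div_le_div_iff₀ hD hs]
      have h4 : |∑ i, n z i * E (f z 1) u i - ∑ i, n z i * E (f z 2) u i| ≤
          2 * (c * (c * (R l * G) * CE)) := by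
        refine (abs_sub _ _).trans ?_
        have := hCE _ (h2 1) z u
        have := hCE _ (h2 2) z u
        linarith
      have h5 : |∑ i, n z i * E (f z 1) u i - ∑ i, n z i * E (f z 2) u i| * (s * 2 ^ X) ≤
          2 * (c * (c * (R l * G) * CE)) * |(τ (f z 1) : ℝ) - τ (f z 2)| :=
        mul_le_mul h4 h3.le (by positivity) (by linarith)
      linarith
    · rw [abs_zero, zero_mul]
      positivity
  refine ⟨l, fun P => nOf R δ l (A P), n, e0, e1, fun P => ⟨nOf_ld R δ l _, nOf_le (hR l) _⟩,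
    hnz, fun z u => ⟨?_, he1b z u⟩, ?_⟩
  · obtain ⟨ω₀, hω₀⟩ : ∃ ω, 0 < p ω := by
      by_contra h
      push Not at h
      have h1 := hp.sum_one
      rw [Finset.sum_eq_zero fun ω _ => le_antisymm (h ω) (h0 ω)] at h1
      exact zero_ne_one h1
    have hS := hS0 ω₀ hω₀ u
    by_cases h : ok z
    · have e : e0 z u = ∑ i, n z i * E (f z 2) u i - e1 z u * τ (f z 2) := by
        rw [he0, he1]
        simp only [if_pos h]
      have h' := h
      rw [hok] at h'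
      obtain ⟨-, h2, -⟩ := h'
      have h3 := hτ _ (h2 2)
      have h4 : |(τ (f z 2) : ℝ)| ≤ 2 ^ X := by
        rw [abs_of_nonneg (by exact_mod_cast h3.1)]
        have : ((τ (f z 2) : ℤ) : ℝ) < ((2 ^ X : ℤ) : ℝ) := by exact_mod_cast h3.2
        push_cast at this
        exact this.le
      have h5 : |e1 z u * τ (f z 2)| ≤ 2 * (c * (c * (R l * G) * CE)) / s := by
        rw [abs_mul]
        exact (mul_le_mul_of_nonneg_left h4 (abs_nonneg _)).trans (he1b z u)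
      have h6 : c * (c * (R l * G) * CE) ≤ c * (c * (R l * G) * CE) / s := by
        rw [le_div_iff₀ hs]
        nlinarith
      rw [e]
      refine (abs_sub _ _).trans ?_
      have h7 := hCE _ (h2 2) z u
      have e3 : 3 * (c * (c * (R l * G) * CE)) / s = c * (c * (R l * G) * CE) / s +
          2 * (c * (c * (R l * G) * CE)) / s := by ring
      rw [e3]
      linarith
    · rw [he0]
      simp only [if_neg h, abs_zero]
      positivity
  · refine hPG.trans (hfP.trans (pmono h0 fun ω hω hg => ?_))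
    rw [hGd] at hg
    have c0 : (Fin.cons ω (f (L ω)) : Fin 4 → Ω) 0 = ω := rfl
    have c1 : (Fin.cons ω (f (L ω)) : Fin 4 → Ω) 1 = f (L ω) 0 := rfl
    have c2 : (Fin.cons ω (f (L ω)) : Fin 4 → Ω) 2 = f (L ω) 1 := rfl
    have c3 : (Fin.cons ω (f (L ω)) : Fin 4 → Ω) 3 = f (L ω) 2 := rfl
    simp only [c0, c1, c2, c3] at hg
    obtain ⟨g0, g1, g2, g3, g4, g5⟩ := hg
    have hokz : ok (L ω) := by
      rw [hok]
      exact ⟨g1, fun j => (hf ω hω j).2, g5⟩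
    have a1 := nOf_ad g1.1
    have a0 := nOf_ad g0.1
    have en : n (L ω) = nOf R δ l (A (pt (f (L ω) 0))) ᵥ* M (f (L ω) 0) := by
      rw [hn]
      simp only [if_pos hokz]
    refine ⟨fun i => ?_, fun u => ?_⟩
    · rw [en]
      exact two_pts (hC _) hR hρ (hdet _) (hM _) (hM _) (hG _) a0 a1 g0.2 (hpr l) g2 i
    · have ee1 : e1 (L ω) u = (∑ i, n (L ω) i * E (f (L ω) 1) u i -
          ∑ i, n (L ω) i * E (f (L ω) 2) u i) / ((τ (f (L ω) 1) : ℝ) - τ (f (L ω) 2)) := by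
        rw [he1]
        simp only [if_pos hokz]
      have ee0 : e0 (L ω) u = ∑ i, n (L ω) i * E (f (L ω) 2) u i -
          (∑ i, n (L ω) i * E (f (L ω) 1) u i - ∑ i, n (L ω) i * E (f (L ω) 2) u i) /
            ((τ (f (L ω) 1) : ℝ) - τ (f (L ω) 2)) * τ (f (L ω) 2) := by
        rw [he0]
        simp only [if_pos hokz]
      rw [ee0, ee1]
      have hδ : 0 ≤ δ l := (abs_nonneg _).trans (a1.sm l)
      refine three_pts hs hs1 (by positivity) ?_ g5 ?_ ?_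
      · have t0 := hτ ω hω
        have t3 := hτ _ (hf ω hω 2).2
        have : |τ ω - τ (f (L ω) 2)| ≤ 2 ^ X := by
          rw [abs_le]
          constructor <;> linarith
        exact_mod_cast this
      · rw [en]
        exact on_body (hdet _) a1 (g3 u)
      · rw [en]
        exact on_body (hdet _) a1 (g4 u)

end last

end Pool.LBL
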