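import Pool.Agent.H36.LBL.Par
import Pool.Agent.H21.POT.Cov

/-!
# The conserved covector modulo known covectors (K_POT)

`covP`: for a picture with a visible chart whose target is not full, and known covectors which are
functions of the exact point and of the exact line, there is a covector with a leading coordinate
outside `Fz` which is a function of the exact point and, modulo the known covectors, of the exact
line, and which makes the slopes affine in the time. `Fz = ∅` is the case without known covectors.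
-/

set_option autoImplicit false

namespace Pool.LBL

open Finset Real Matrix
open Pool.Agent.H49.Ent Pool.Agent.H32.Dense Pool.STK Pool.SLO
open Pool.BFL (Pb)
open Pool.QT64 (QH d3)
open Pool.POT (VCh pot pw pw_pos pw_add pw_le pw_zero one_le_pw pw_inv ex_pw okns_mono VCh.mono)

variable {c k : ℕ}

theorem pw_pow (X : ℕ) (x : ℝ) (N : ℕ) : pw X x ^ N = pw X (x * N) := by
  unfold pw
  rw [← Real.rpow_natCast, ← Real.rpow_mul (by norm_num)]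
  congr 1
  ring

set_option maxHeartbeats 4000000 in
/-- **The conserved covector modulo known covectors.** -/
theorem covP (c k : ℕ) (n₀ : Fin c) (hn₀ : ∀ i, i ≤ n₀) (c0 ep w0 : ℝ) (B : ℕ) (hc0 : 0 < c0)
    (hep : 0 < ep) (hw0 : 0 < w0) (hB : 0 < B) (hBe : 1 / (B : ℝ) ≤ ep) :
    ∃ x2 p2 η0 io : ℝ, 0 < x2 ∧ 0 < p2 ∧ 0 < η0 ∧ 0 < io ∧ ∀ C : ℝ, 1 ≤ C → ∀ s0 : ℝ, 0 < s0 →
    ∃ X0 : ℕ, ∀ (H : QH c k) (X : ℕ), X0 ≤ X → H.OkNS X C (io * X) → H.TM X s0 η0 →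
    ∀ {σ υ : Type} (s : H.Ω → σ) (y : H.Ω → υ) (n : H.Ω → Fin c → ℤ)
      (M : H.Ω → Matrix (Fin c) (Fin c) ℝ),
    VCh H X B n₀ c0 (io * X) (io * X) (2 ^ (io * X)) s y n M →
    ∀ {Λ' Ξ : Type} (L' : H.Ω → Λ') (pt : H.Ω → Ξ), Det H.p L' H.line →
    Det H.p pt (fun ω => (s ω, (y ω, n ω))) →
    ∀ (Fz : Finset (Fin c)) (fD : Ξ → Fin c → Fin c → ℝ) (fL : Λ' → Fin c → Fin c → ℝ)
      (φ0 φ1 : Λ' → Fin c → Fin k → ℝ) (Ev : H.Ω → Prop), n₀ ∉ Fz →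
    Pb H.p (fun ω => ¬ Ev ω) ≤ η0 →
    (∀ ξ, ∀ g ∈ Fz, Ld g (fD ξ g) ∧ ∀ i, |fD ξ g i| ≤ 2 ^ (io * X)) →
    (∀ ω, 0 < H.p ω → Ev ω → ∀ g ∈ Fz, ∀ i,
      |(fD (pt ω) g ᵥ* M ω) i - fL (L' ω) g i| ≤ 2 ^ (-((ep + w0) * X))) →
    (∀ ω, 0 < H.p ω → Ev ω → ∀ g ∈ Fz, ∀ u,
      |∑ i, fL (L' ω) g i * H.E (H.th ω) u i - φ0 (L' ω) g u -
        φ1 (L' ω) g u * H.tau (H.th ω)| ≤ 2 ^ (-((ep + w0) * X))) →
    (∀ z, ∀ g ∈ Fz, ∀ u, |φ0 z g u| ≤ 2 ^ (io * X) ∧ |φ1 z g u| * 2 ^ X ≤ 2 ^ (io * X)) →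
    ∃ (l : Fin c) (nD : Ξ → Fin c → ℝ) (nL : Λ' → Fin c → ℝ) (e0 e1 : Λ' → Fin k → ℝ),
      l ∉ Fz ∧
      (∀ ξ, Ld l (nD ξ) ∧ (∀ g ∈ Fz, nD ξ g = 0) ∧ ∀ i, |nD ξ i| ≤ 2 ^ ((ep + w0) * X)) ∧
      (∀ z, Ld l (nL z) ∧ ∀ i, |nL z i| ≤ 2 ^ ((ep + w0) * X)) ∧
      (∀ z u, |e0 z u| ≤ 2 ^ ((ep + w0) * X) ∧ |e1 z u| * 2 ^ X ≤ 2 ^ ((ep + w0) * X)) ∧
      p2 ≤ Pb H.p (fun ω =>
        (∃ r : Fin c → ℝ, (∀ g, |r g| ≤ 2 ^ ((ep + w0) * X)) ∧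
          ∀ i, |(nD (pt ω) ᵥ* M ω) i - nL (L' ω) i + ∑ g ∈ Fz, r g * fL (L' ω) g i| ≤
            2 ^ (-(x2 * X))) ∧
        ∀ u, |∑ i, nL (L' ω) i * H.E (H.th ω) u i - e0 (L' ω) u -
          e1 (L' ω) u * H.tau (H.th ω)| ≤ 2 ^ (-(x2 * X))) := by
  have hc : 0 < c := lt_of_le_of_lt (Nat.zero_le _) n₀.2
  have hc1 : (1 : ℝ) ≤ c := by exact_mod_cast hc
  have hc0' : (0 : ℝ) < c := by linarith
  have hD : (1 : ℝ) ≤ 4 ^ c := one_le_pow₀ (by norm_num)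
  -- the constants
  obtain ⟨x1, hx1⟩ : ∃ x1, x1 = c0 / 2 := ⟨_, rfl⟩
  have hx10 : 0 < x1 := by rw [hx1]; linarith
  obtain ⟨e, he⟩ : ∃ e, e = min x1 w0 / (16 * 4 ^ c) := ⟨_, rfl⟩
  have he0 : 0 < e := by
    rw [he]
    exact div_pos (lt_min hx10 hw0) (by positivity)
  have he' : e * (16 * 4 ^ c) = min x1 w0 := by
    rw [he]
    field_simp
  have hex : e * (16 * 4 ^ c) ≤ x1 := by rw [he']; exact min_le_left _ _
  have hew : e * (16 * 4 ^ c) ≤ w0 := by rw [he']; exact min_le_right _ _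
  obtain ⟨κ, hκ⟩ : ∃ κ, κ = e / (2 * (c + 12)) := ⟨_, rfl⟩
  have hκ0 : 0 < κ := by rw [hκ]; positivity
  have hκe : κ * (2 * (c + 12)) = e := by
    rw [hκ]
    field_simp
  obtain ⟨p0, hp0⟩ : ∃ p0, p0 = c0 / 4 := ⟨_, rfl⟩
  have hp0' : 0 < p0 := by rw [hp0]; linarith
  obtain ⟨η, hη⟩ : ∃ η, η = p0 / (12 * c) := ⟨_, rfl⟩
  have hη0 : 0 < η := by rw [hη]; positivity
  have hη6 : 6 * η = p0 / c / 2 := by
    rw [hη]
    field_simp
    ring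
  have hηp : η ≤ p0 := by
    rw [hη]
    exact div_le_self hp0'.le (by linarith)
  obtain ⟨zz, hzz⟩ : ∃ zz, zz = min κ (x1 / 2) := ⟨_, rfl⟩
  have hzz0 : 0 < zz := by rw [hzz]; exact lt_min hκ0 (by linarith)
  have hzzκ : zz ≤ κ := by rw [hzz]; exact min_le_left _ _
  have hzzx : zz ≤ x1 / 2 := by rw [hzz]; exact min_le_right _ _
  obtain ⟨io1, hio1, hpot⟩ := pot c k n₀ hn₀ c0 x1 zz η B hx10.le hzz0 hη0 hB
  obtain ⟨io, hio⟩ : ∃ io, io = min io1 (κ / 2) := ⟨_, rfl⟩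
  have hio0 : 0 < io := by
    rw [hio]
    exact lt_min hio1 (by linarith)
  have hioa : io ≤ io1 := by rw [hio]; exact min_le_left _ _
  have hiob : io ≤ κ / 2 := by rw [hio]; exact min_le_right _ _
  refine ⟨e / 2, (p0 / c / 2) ^ 2, η, io, by linarith, by positivity, hη0, hio0, ?_⟩
  intro C hC s0 hs0
  obtain ⟨s1, hs1⟩ : ∃ s1, s1 = min s0 1 := ⟨_, rfl⟩
  have hs1' : 0 < s1 := by rw [hs1]; exact lt_min hs0 one_pos
  have hs11 : s1 ≤ 1 := by rw [hs1]; exact min_le_right _ _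
  have hs10 : s1 ≤ s0 := by rw [hs1]; exact min_le_left _ _
  obtain ⟨X1, hpot⟩ := hpot C hC
  obtain ⟨X2, h2⟩ := ex_pw (a := κ / 2) (by linarith) (2 + c + C + 1 / s1)
  refine ⟨max X1 X2, ?_⟩
  intro H X hX ok hTM σ υ s y n M hV Λ' Ξ L' pt hLL hPP Fz fD fL φ0 φ1 Ev hnF hEv hf hfL hfE hφ
  have hX1 : X1 ≤ X := (le_max_left _ _).trans hX
  have h2 := h2 X ((le_max_right _ _).trans hX)
  have hX0 : (0 : ℝ) ≤ X := Nat.cast_nonneg X
  have hiX : io * X ≤ io1 * X := mul_le_mul_of_nonneg_right hioa hX0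
  obtain ⟨A, hA, hcv, htr, hbd⟩ := hpot H X hX1 (okns_mono ok hiX) s y n M
    (hV.mono hiX hiX (Real.rpow_le_rpow_of_exponent_le (by norm_num) hiX))
  have hp := ok.law.nonneg
  have h1s : 0 ≤ 1 / s1 := by positivity
  -- the powers
  obtain ⟨T, hT⟩ : ∃ T, T = pw X κ := ⟨_, rfl⟩
  obtain ⟨U, hU⟩ : ∃ U, U = pw X e := ⟨_, rfl⟩
  have hTh : pw X (κ / 2) ≤ T := by rw [hT]; exact pw_le (by linarith)
  have hT12 : T ^ (c + 12) = pw X (e / 2) := by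
    rw [hT, pw_pow]
    congr 1
    push_cast
    linarith
  have hsz : Szs c T U := by
    refine ⟨?_, ?_, ?_⟩
    · linarith
    · linarith
    · rw [hT12, pw_add, hU]
      exact pw_le (by linarith)
  have hTc : T ^ c ≤ U := hsz.TNU (by omega)
  have hT1 := hsz.T1
  have hU1 := hsz.U1
  obtain ⟨W, hW⟩ : ∃ W, W = pw X ep * T ^ c := ⟨_, rfl⟩
  have hW1 : 1 ≤ W := by
    rw [hW]
    exact one_le_mul_of_one_le_of_one_le (one_le_pw hep.le) (one_le_pow₀ hT1)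
  have hWU : W * U ^ (4 * 4 ^ c) ≤ pw X (ep + w0) := by
    have j1 : U * U ^ (4 * 4 ^ c) ≤ pw X w0 := by
      rw [← pow_succ', hU, pw_pow]
      refine pw_le ?_
      push_cast
      nlinarith
    calc W * U ^ (4 * 4 ^ c) = pw X ep * (T ^ c * U ^ (4 * 4 ^ c)) := by rw [hW]; ring
      _ ≤ pw X ep * (U * U ^ (4 * 4 ^ c)) := by
          refine mul_le_mul_of_nonneg_left (mul_le_mul_of_nonneg_right hTc (by positivity)) ?_
          exact (pw_pos X ep).le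
      _ ≤ pw X ep * pw X w0 := mul_le_mul_of_nonneg_left j1 (pw_pos X ep).le
      _ = pw X (ep + w0) := pw_add X ep w0
  have hWU0 : 0 < W * U ^ (4 * 4 ^ c) := by positivity
  have hεe : (2 : ℝ) ^ (-((ep + w0) * X)) = (pw X (ep + w0))⁻¹ := by
    rw [pw_inv]
    unfold pw
    congr 1
    ring
  have hε : (2 : ℝ) ^ (-((ep + w0) * X)) ≤ (W * U ^ (4 * 4 ^ c))⁻¹ := by
    rw [hεe]
    exact inv_anti₀ hWU0 hWU
  have hioT : pw X io ≤ pw X (κ / 2) := pw_le hiob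
  have hT2 : 2 * pw X (κ / 2) ≤ T := by
    have j1 : pw X (κ / 2) * pw X (κ / 2) = T := by
      rw [pw_add, hT]
      congr 1
      ring
    rw [← j1]
    exact mul_le_mul_of_nonneg_right (by linarith) (pw_pos X _).le
  have hio1' : 1 ≤ pw X io := one_le_pw hio0.le
  have hδ : (2 : ℝ) ^ (-((x1 - zz) * X)) ≤ (U ^ (2 * 4 ^ c))⁻¹ := by
    have j1 : (2 : ℝ) ^ (-((x1 - zz) * X)) = pw X (-(x1 - zz)) := by
      unfold pw
      congr 1
      ring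
    rw [j1, hU, pw_pow, pw_inv]
    refine pw_le ?_
    push_cast
    nlinarith
  have hR0 : (2 : ℝ) ^ ((X : ℝ) / B) * T ^ c ≤ W := by
    rw [hW]
    refine mul_le_mul_of_nonneg_right ?_ (by positivity)
    unfold pw
    refine Real.rpow_le_rpow_of_exponent_le (by norm_num) ?_
    calc (X : ℝ) / B = 1 / (B : ℝ) * X := by ring
      _ ≤ ep * X := mul_le_mul_of_nonneg_right hBe hX0
  have key := cov_szs hsz ok.law H.line (fun ω => (s ω, (y ω, n ω))) L' pt hLL hPP A M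
    (fun ω => H.tau (H.th ω)) (fun ω => H.E (H.th ω)) Fz fD fL φ0 φ1 Ev
    (C := 2 ^ (zz * X)) (G := 2 ^ (io * X)) (Gf := 2 ^ (io * X)) (CE := C) (K := 2 ^ (zz * X))
    (Φ := 2 ^ (io * X)) (p0 := p0) (η := η) (s := s1) (ε := 2 ^ (-((ep + w0) * X)))
    (R0 := 2 ^ ((X : ℝ) / B)) (δ0 := 2 ^ (-((x1 - zz) * X))) (W := W) (X := X) (n₀ := n₀) hn₀ hW1
    (fun P => (hA P).1) (fun P i b => (hA P).2.1 i b)
    (fun ω => ⟨hV.one ω, hV.low ω⟩) (fun ω i j => hV.ent ω i j) (fun ω i j => hV.inv ω i j)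
    hio1' (by positivity) (by positivity) (by positivity) (by linarith) (by positivity)
    (fun ω _ u i => ok.E_b ω u i) (fun ω _ => ok.tau_r ω) hs1' hs11 hp0' hf hfL hfE hφ hEv hnF
    (le_trans (by rw [hx1]; linarith) hcv) htr hbd ?_ ?_ ?_ ?_ ?_ ?_ ?_ ?_ ?_ hε hR0 hδ
  · obtain ⟨l, nD, nL, e0, e1, k1, k2, k3, k4, k5⟩ := key
    have hWU' : W * U ^ (4 * 4 ^ c) ≤ 2 ^ ((ep + w0) * X) := hWU
    have herr : (T ^ (c + 12))⁻¹ = 2 ^ (-(e / 2 * X)) := by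
      rw [hT12, pw_inv]
      unfold pw
      congr 1
      ring
    rw [herr] at k5
    refine ⟨l, nD, nL, e0, e1, k1, fun ξ => ⟨(k2 ξ).1, (k2 ξ).2.1, fun i =>
      ((k2 ξ).2.2 i).trans hWU'⟩, fun z => ⟨(k3 z).1, fun i => ((k3 z).2 i).trans hWU'⟩,
      fun z u => ⟨(k4 z u).1.trans hWU', (k4 z u).2.trans hWU'⟩, ?_⟩
    have hpp : (p0 / c / 2) ^ 2 = (p0 / c - 6 * η) ^ 2 := by
      rw [hη6]
      ring
    rw [hpp]
    refine k5.trans (pmono hp ?_)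
    rintro ω - ⟨⟨r, q1, q2⟩, q3⟩
    exact ⟨⟨r, fun g => (q1 g).trans hWU', q2⟩, q3⟩
  · refine le_trans (pmono (fun w => tup_nonneg hp H.line 1 w) fun w _ hw => ?_) hTM
    exact hw.trans (mul_le_mul_of_nonneg_right hs10 (by positivity))
  · rw [hη6]
    have : 0 < p0 / c := by positivity
    linarith
  · rw [hT]
    exact pw_le hzzκ
  · exact hioT.trans hTh
  · change 1 + pw X io ≤ T
    linarith
  · linarith
  · rw [hT]
    exact pw_le hzzκ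
  · exact hioT.trans hTh
  · linarith

end Pool.LBL
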