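import Mathlib.Analysis.SpecialFunctions.Pow.Real
import Mathlib.LinearAlgebra.Matrix.NonsingularInverse
import Mathlib.Tactic

/-!
# Covectors with the smallest leading coordinate

`Ad A l R δ m`: the covector `m` has the leading coordinate `l`, with the value `1`, and is small on
the columns of `A`. `unq`: if no smaller leading coordinate is possible, then two such covectors are
close.
-/

set_option autoImplicit false

namespace Pool.LBL

open Finset

variable {c : ℕ}

/-- A covector with the leading coordinate `l`, small on the columns of `A`. -/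
structure Ad (A : Matrix (Fin c) (Fin c) ℝ) (l : Fin c) (R δ : ℝ) (m : Fin c → ℝ) : Prop where
  one : m l = 1
  zero : ∀ k, l < k → m k = 0
  le : ∀ k, |m k| ≤ R
  sm : ∀ b, |∑ k, m k * A k b| ≤ δ

theorem Ad.mono {A : Matrix (Fin c) (Fin c) ℝ} {l : Fin c} {R R' δ δ' : ℝ} {m : Fin c → ℝ}
    (h : Ad A l R δ m) (hR : R ≤ R') (hδ : δ ≤ δ') : Ad A l R' δ' m :=
  ⟨h.one, h.zero, fun k => (h.le k).trans hR, fun b => (h.sm b).trans hδ⟩

/-- **Uniqueness.** -/
theorem unq {A : Matrix (Fin c) (Fin c) ℝ} {C Δ ρ : ℝ} {R δ : Fin c → ℝ} {l : Fin c}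
    (hC : ∀ k b, |A k b| ≤ C) (hR : ∀ k, 1 ≤ R k) (hρ : 0 < ρ)
    (hno : ∀ l' < l, ∀ m, ¬ Ad A l' (R l') (δ l') m)
    (hp : ∀ l' < l, (Δ / ρ + ∑ k ∈ univ.filter (fun k => l' < k ∧ k < l), C / R k) * R l' ≤ δ l')
    {d : Fin c → ℝ} (hd : ∀ k, l ≤ k → d k = 0) (hs : ∀ b, |∑ k, d k * A k b| ≤ Δ) (k : Fin c) :
    |d k| ≤ ρ := by
  classical
  by_contra hk
  push Not at hk
  -- the largest coordinate
  obtain ⟨j, -, hj⟩ := Finset.exists_max_image univ (fun k => |d k|) ⟨k, mem_univ k⟩
  have hD : ρ < |d j| := hk.trans_le (hj k (mem_univ k))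
  have hD0 : 0 < |d j| := hρ.trans hD
  have hjl : j < l := by
    by_contra h
    rw [hd j (not_lt.1 h), abs_zero] at hD0
    exact lt_irrefl _ hD0
  obtain ⟨e, he⟩ : ∃ e : Fin c → ℝ, e = fun k => d k / |d j| := ⟨_, rfl⟩
  have he1 : ∀ k, |e k| ≤ 1 := fun k => by
    rw [he]
    simp only
    rw [abs_div, abs_abs, div_le_one hD0]
    exact hj k (mem_univ k)
  have hej : |e j| = 1 := by
    rw [he]
    simp only
    rw [abs_div, abs_abs, div_self hD0.ne']
  have he0 : ∀ k, l ≤ k → e k = 0 := fun k hk => by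
    rw [he]
    simp only
    rw [hd k hk, zero_div]
  have hes : ∀ b, |∑ k, e k * A k b| ≤ Δ / ρ := fun b => by
    have h1 : ∑ k, e k * A k b = (∑ k, d k * A k b) / |d j| := by
      rw [he, Finset.sum_div]
      exact Finset.sum_congr rfl fun k _ => by ring
    rw [h1, abs_div, abs_abs]
    have h2 : 0 ≤ Δ := (abs_nonneg _).trans (hs b)
    calc |∑ k, d k * A k b| / |d j| ≤ Δ / |d j| := by
          exact div_le_div_of_nonneg_right (hs b) hD0.le
      _ ≤ Δ / ρ := div_le_div_of_nonneg_left h2 hρ hD.le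
  -- the last coordinate which is not tiny
  obtain ⟨l', hl', hmax⟩ : ∃ l', (l' < l ∧ 1 / R l' ≤ |e l'|) ∧
      ∀ k, l' < k → ¬ (k < l ∧ 1 / R k ≤ |e k|) := by
    have hne : (univ.filter fun k => k < l ∧ 1 / R k ≤ |e k|).Nonempty := by
      refine ⟨j, ?_⟩
      rw [mem_filter]
      refine ⟨mem_univ j, hjl, ?_⟩
      rw [hej]
      exact (div_le_one (by linarith only [hR j])).2 (hR j)
    refine ⟨(univ.filter fun k => k < l ∧ 1 / R k ≤ |e k|).max' hne, ?_, ?_⟩
    · have := Finset.max'_mem _ hne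
      rw [mem_filter] at this
      exact this.2
    · intro k hk h
      have h1 : k ∈ univ.filter fun k => k < l ∧ 1 / R k ≤ |e k| := by
        rw [mem_filter]
        exact ⟨mem_univ k, h⟩
      exact absurd hk (not_lt.2 (Finset.le_max' _ k h1))
  have hR0 : 0 < R l' := by linarith only [hR l']
  have hel : 0 < |e l'| := lt_of_lt_of_le (by positivity) hl'.2
  have hinv : 1 / |e l'| ≤ R l' := by
    rw [div_le_iff₀ hel]
    have := hl'.2
    rw [div_le_iff₀ hR0] at this
    linarith only [this]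
  obtain ⟨f, hf⟩ : ∃ f : Fin c → ℝ, f = fun k => if k ≤ l' then e k / e l' else 0 := ⟨_, rfl⟩
  refine hno l' hl'.1 f ⟨?_, ?_, ?_, ?_⟩
  · rw [hf]
    simp only [le_refl, if_true]
    exact div_self (abs_pos.1 hel)
  · intro k hk
    rw [hf]
    simp only
    rw [if_neg (not_le.2 hk)]
  · intro k
    rw [hf]
    simp only
    split_ifs
    · rw [abs_div]
      calc |e k| / |e l'| ≤ 1 / |e l'| := div_le_div_of_nonneg_right (he1 k) hel.le
        _ ≤ R l' := hinv
    · rw [abs_zero]
      exact hR0.le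
  · intro b
    have h1 : ∑ k, f k * A k b = (∑ k, e k * A k b -
        ∑ k ∈ univ.filter (fun k => l' < k ∧ k < l), e k * A k b) / e l' := by
      rw [eq_div_iff (abs_pos.1 hel), eq_sub_iff_add_eq, Finset.sum_mul, Finset.sum_filter,
        ← Finset.sum_add_distrib]
      refine Finset.sum_congr rfl fun k _ => ?_
      rw [hf]
      simp only
      rcases le_or_gt k l' with h | h
      · rw [if_pos h, if_neg fun h2 => absurd h2.1 (not_lt.2 h)]
        field_simp [abs_pos.1 hel]
        ring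
      · rw [if_neg (not_le.2 h)]
        rcases lt_or_ge k l with h2 | h2
        · rw [if_pos ⟨h, h2⟩]
          ring
        · rw [if_neg fun h3 => absurd h3.2 (not_lt.2 h2), he0 k h2]
          ring
    have h2 : |∑ k ∈ univ.filter (fun k => l' < k ∧ k < l), e k * A k b| ≤
        ∑ k ∈ univ.filter (fun k => l' < k ∧ k < l), C / R k := by
      refine (Finset.abs_sum_le_sum_abs _ _).trans (Finset.sum_le_sum fun k hk => ?_)
      rw [mem_filter] at hk
      have h3 := hmax k hk.2.1
      have h4 : |e k| ≤ 1 / R k := by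
        by_contra h
        exact h3 ⟨hk.2.2, (not_le.1 h).le⟩
      rw [abs_mul]
      have hRk : 0 < R k := by linarith only [hR k]
      calc |e k| * |A k b| ≤ 1 / R k * C :=
            mul_le_mul h4 (hC k b) (abs_nonneg _) (by positivity)
        _ = C / R k := by ring
    have h5 : |∑ k, e k * A k b -
        ∑ k ∈ univ.filter (fun k => l' < k ∧ k < l), e k * A k b| ≤
        Δ / ρ + ∑ k ∈ univ.filter (fun k => l' < k ∧ k < l), C / R k :=
      (abs_sub _ _).trans (add_le_add (hes b) h2)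
    rw [h1, abs_div]
    refine le_trans ?_ (hp l' hl'.1)
    rw [div_eq_mul_one_div]
    refine mul_le_mul h5 hinv (by positivity) ((abs_nonneg _).trans h5)

end Pool.LBL
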