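import Pool.Agent.H36.LBL.CovF

/-!
# The body is a function of the line (K_POT)

`body_line`: a body `A ω` which is conserved along the lines and contains the three-point vectors of
the slopes is, up to a factor, a function of the line, and the slopes are affine in the time modulo
this body.
-/

set_option autoImplicit false

namespace Pool.LBL

open Finset Real Matrix
open Pool.Agent.H49.Ent Pool.Agent.H32.Dense Pool.STK Pool.SLO
open Pool.BFL (Pb)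
open Pool.QT64 (d3)

variable {c k : ℕ} {Ω Λ : Type} [Fintype Ω] {p : Ω → ℝ}

/-- The vector of three times. -/
noncomputable def xv3 (τ : Ω → ℤ) (E : Ω → Fin k → Fin c → ℝ) (v0 v1 : Fin k → Fin c → ℝ)
    (ω : Ω) (u : Fin k) (i : Fin c) : ℝ := E ω u i - v0 u i - v1 u i * τ ω

/-- **The body is a function of the line.** -/
theorem body_line (hp : IsLaw p) (L : Ω → Λ) (A M : Ω → Matrix (Fin c) (Fin c) ℝ) (τ : Ω → ℤ)
    (E : Ω → Fin k → Fin c → ℝ) {CE K η s : ℝ} {X : ℕ}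
    (hE : ∀ ω, 0 < p ω → ∀ u i, |E ω u i| ≤ CE)
    (hτ : ∀ ω, 0 < p ω → 0 ≤ τ ω ∧ τ ω < 2 ^ X) (hs : 0 < s) (hs1 : s ≤ 1) (hK : 0 ≤ K)
    (hCE : 0 ≤ CE)
    (htr : Pb (tup p L 1) (fun w => ¬ ∀ i j,
      |((A (w 0))⁻¹ * (M (w 0) * (M (w 1))⁻¹ * A (w 1))) i j| ≤ K) ≤ η)
    (hbd : Pb (tup p L 3) (fun w => ¬ ∀ u b,
      |((A (w 0))⁻¹ *ᵥ (M (w 0) *ᵥ d3 τ E u (w 1) (w 2) (w 3))) b| ≤ K) ≤ η)
    (htm : Pb (tup p L 1) (fun w => |((τ (w 0) - τ (w 1) : ℤ) : ℝ)| ≤ s * 2 ^ X) ≤ η) :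
    ∃ (rf : Λ → Ω) (v0 v1 : Λ → Fin k → Fin c → ℝ),
      (∀ z u i, |v0 z u i| ≤ 3 * CE / s ∧ |v1 z u i| * 2 ^ X ≤ 2 * CE / s) ∧
      1 - 5 * η ≤ Pb p (fun ω =>
        (∀ i j, |((A (rf (L ω)))⁻¹ * (M (rf (L ω)) * (M ω)⁻¹ * A ω)) i j| ≤ K) ∧
        (∀ i j, |((A ω)⁻¹ * (M ω * (M (rf (L ω)))⁻¹ * A (rf (L ω)))) i j| ≤ K) ∧
        ∀ u b, |((A (rf (L ω)))⁻¹ *ᵥ (M (rf (L ω)) *ᵥ
          xv3 τ E (v0 (L ω)) (v1 (L ω)) ω u)) b| ≤ K / s) := by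
  classical
  have h0 := hp.nonneg
  obtain ⟨Gd, hGd⟩ : ∃ Gd : (Fin 4 → Ω) → Prop, Gd = fun w =>
    (∀ i j, |((A (w 1))⁻¹ * (M (w 1) * (M (w 0))⁻¹ * A (w 0))) i j| ≤ K) ∧
    (∀ i j, |((A (w 0))⁻¹ * (M (w 0) * (M (w 1))⁻¹ * A (w 1))) i j| ≤ K) ∧
    (∀ u b, |((A (w 1))⁻¹ *ᵥ (M (w 1) *ᵥ d3 τ E u (w 0) (w 2) (w 3))) b| ≤ K) ∧
    (∀ u b, |((A (w 1))⁻¹ *ᵥ (M (w 1) *ᵥ d3 τ E u (w 2) (w 0) (w 3))) b| ≤ K) ∧
    s * 2 ^ X < |((τ (w 2) - τ (w 3) : ℤ) : ℝ)| := ⟨_, rfl⟩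
  have hPG : 1 - 5 * η ≤ Pb (tup p L 3) Gd := by
    have a0 : Pb (tup p L 3) (fun _ => True) = 1 := by
      unfold Pb
      simp only [if_true]
      exact (tup_isLaw hp L 3).sum_one
    obtain ⟨B, hB⟩ : ∃ B : Fin 5 → (Fin 4 → Ω) → Prop, B = ![
      fun w => ¬ ∀ i j, |((A (w 1))⁻¹ * (M (w 1) * (M (w 0))⁻¹ * A (w 0))) i j| ≤ K,
      fun w => ¬ ∀ i j, |((A (w 0))⁻¹ * (M (w 0) * (M (w 1))⁻¹ * A (w 1))) i j| ≤ K,
      fun w => ¬ ∀ u b, |((A (w 1))⁻¹ *ᵥ (M (w 1) *ᵥ d3 τ E u (w 0) (w 2) (w 3))) b| ≤ K,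
      fun w => ¬ ∀ u b, |((A (w 1))⁻¹ *ᵥ (M (w 1) *ᵥ d3 τ E u (w 2) (w 0) (w 3))) b| ≤ K,
      fun w => |((τ (w 2) - τ (w 3) : ℤ) : ℝ)| ≤ s * 2 ^ X] := ⟨_, rfl⟩
    have b0 : Pb (tup p L 3) (B 0) ≤ η := by
      have b3 := pmarg (tup_sub h0 L (M := 1) (N := 3) ![1, 0] (by decide))
        (fun w => ¬ ∀ i j, |((A (w 0))⁻¹ * (M (w 0) * (M (w 1))⁻¹ * A (w 1))) i j| ≤ K)
      rw [hB]
      exact (le_of_eq b3).trans htr
    have b1 : Pb (tup p L 3) (B 1) ≤ η := by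
      have b3 := pmarg (tup_sub h0 L (M := 1) (N := 3) ![0, 1] (by decide))
        (fun w => ¬ ∀ i j, |((A (w 0))⁻¹ * (M (w 0) * (M (w 1))⁻¹ * A (w 1))) i j| ≤ K)
      rw [hB]
      exact (le_of_eq b3).trans htr
    have b2 : Pb (tup p L 3) (B 2) ≤ η := by
      have b3 := pmarg (tup_sub h0 L (M := 3) (N := 3) ![1, 0, 2, 3] (by decide))
        (fun w => ¬ ∀ u b, |((A (w 0))⁻¹ *ᵥ (M (w 0) *ᵥ d3 τ E u (w 1) (w 2) (w 3))) b| ≤ K)
      rw [hB]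
      exact (le_of_eq b3).trans hbd
    have b3 : Pb (tup p L 3) (B 3) ≤ η := by
      have b3 := pmarg (tup_sub h0 L (M := 3) (N := 3) ![1, 2, 0, 3] (by decide))
        (fun w => ¬ ∀ u b, |((A (w 0))⁻¹ *ᵥ (M (w 0) *ᵥ d3 τ E u (w 1) (w 2) (w 3))) b| ≤ K)
      rw [hB]
      exact (le_of_eq b3).trans hbd
    have b4 : Pb (tup p L 3) (B 4) ≤ η := by
      have b3 := pmarg (tup_sub h0 L (M := 1) (N := 3) ![2, 3] (by decide))
        (fun w => |((τ (w 0) - τ (w 1) : ℤ) : ℝ)| ≤ s * 2 ^ X)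
      rw [hB]
      exact (le_of_eq b3).trans htm
    have b5 := pbad (tup_nonneg h0 L 3) univ (A := fun _ => True) (G := Gd) B (by
      intro w _ _
      by_cases hh : ∃ i ∈ (univ : Finset (Fin 5)), B i w
      · exact .inl hh
      · right
        push Not at hh
        have g0 := hh 0 (mem_univ _)
        have g1 := hh 1 (mem_univ _)
        have g2 := hh 2 (mem_univ _)
        have g3 := hh 3 (mem_univ _)
        have g4 := hh 4 (mem_univ _)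
        rw [hB] at g0 g1 g2 g3 g4
        rw [hGd]
        exact ⟨not_not.1 g0, not_not.1 g1, not_not.1 g2, not_not.1 g3, not_le.1 g4⟩)
    rw [Fin.sum_univ_five, a0] at b5
    linarith
  obtain ⟨f, hf, hfP⟩ := tup_fix hp L 3 Gd
  obtain ⟨ok, hok⟩ : ∃ ok : Λ → Prop, ok = fun z => (∀ j, 0 < p (f z j)) ∧
    s * 2 ^ X < |((τ (f z 1) - τ (f z 2) : ℤ) : ℝ)| := ⟨_, rfl⟩
  obtain ⟨v1, hv1⟩ : ∃ v1 : Λ → Fin k → Fin c → ℝ, v1 = fun z u i => if ok z then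
    (E (f z 1) u i - E (f z 2) u i) / ((τ (f z 1) : ℝ) - τ (f z 2)) else 0 := ⟨_, rfl⟩
  obtain ⟨v0, hv0⟩ : ∃ v0 : Λ → Fin k → Fin c → ℝ, v0 = fun z u i => if ok z then
    E (f z 2) u i - (E (f z 1) u i - E (f z 2) u i) / ((τ (f z 1) : ℝ) - τ (f z 2)) *
      τ (f z 2) else 0 := ⟨_, rfl⟩
  have hv1b : ∀ z u i, |v1 z u i| * 2 ^ X ≤ 2 * CE / s := by
    intro z u i
    rw [hv1]
    simp only
    split_ifs with h
    · rw [hok] at h
      obtain ⟨h2, h3⟩ := h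
      push_cast at h3
      have hX : (0 : ℝ) < 2 ^ X := by positivity
      have hD : 0 < |(τ (f z 1) : ℝ) - τ (f z 2)| := lt_of_le_of_lt (by positivity) h3
      rw [abs_div, div_mul_eq_mul_div, div_le_div_iff₀ hD hs]
      have h4 : |E (f z 1) u i - E (f z 2) u i| ≤ 2 * CE := by
        refine (abs_sub _ _).trans ?_
        have := hE _ (h2 1) u i
        have := hE _ (h2 2) u i
        linarith
      have h5 : |E (f z 1) u i - E (f z 2) u i| * (s * 2 ^ X) ≤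
          2 * CE * |(τ (f z 1) : ℝ) - τ (f z 2)| :=
        mul_le_mul h4 h3.le (by positivity) (by linarith)
      linarith
    · rw [abs_zero, zero_mul]
      positivity
  have hv0b : ∀ z u i, |v0 z u i| ≤ 3 * CE / s := by
    intro z u i
    by_cases h : ok z
    · have e : v0 z u i = E (f z 2) u i - v1 z u i * τ (f z 2) := by
        rw [hv0, hv1]
        simp only [if_pos h]
      have h' := h
      rw [hok] at h'
      obtain ⟨h2, -⟩ := h'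
      have h3 := hτ _ (h2 2)
      have h4 : |(τ (f z 2) : ℝ)| ≤ 2 ^ X := by
        rw [abs_of_nonneg (by exact_mod_cast h3.1)]
        have : ((τ (f z 2) : ℤ) : ℝ) < ((2 ^ X : ℤ) : ℝ) := by exact_mod_cast h3.2
        push_cast at this
        exact this.le
      have h5 : |v1 z u i * τ (f z 2)| ≤ 2 * CE / s := by
        rw [abs_mul]
        exact (mul_le_mul_of_nonneg_left h4 (abs_nonneg _)).trans (hv1b z u i)
      have h6 : CE ≤ CE / s := by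
        rw [le_div_iff₀ hs]
        nlinarith
      rw [e]
      refine (abs_sub _ _).trans ?_
      have h7 := hE _ (h2 2) u i
      have e3 : 3 * CE / s = CE / s + 2 * CE / s := by ring
      rw [e3]
      linarith
    · rw [hv0]
      simp only [if_neg h, abs_zero]
      positivity
  refine ⟨fun z => f z 0, v0, v1, fun z u i => ⟨hv0b z u i, hv1b z u i⟩, ?_⟩
  refine hPG.trans (hfP.trans (pmono h0 fun ω hω hg => ?_))
  rw [hGd] at hg
  have c0 : (Fin.cons ω (f (L ω)) : Fin 4 → Ω) 0 = ω := rfl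
  have c1 : (Fin.cons ω (f (L ω)) : Fin 4 → Ω) 1 = f (L ω) 0 := rfl
  have c2 : (Fin.cons ω (f (L ω)) : Fin 4 → Ω) 2 = f (L ω) 1 := rfl
  have c3 : (Fin.cons ω (f (L ω)) : Fin 4 → Ω) 3 = f (L ω) 2 := rfl
  simp only [c0, c1, c2, c3] at hg
  obtain ⟨g1, g0, g3, g4, g5⟩ := hg
  have hokz : ok (L ω) := by
    rw [hok]
    exact ⟨fun j => (hf ω hω j).2, g5⟩
  refine ⟨g1, g0, fun u b => ?_⟩
  have ex : ∀ x : Fin c → ℝ, ((A (f (L ω) 0))⁻¹ *ᵥ (M (f (L ω) 0) *ᵥ x)) b =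
      ∑ i, ((A (f (L ω) 0))⁻¹ * M (f (L ω) 0)) b i * x i := by
    intro x
    rw [mulVec_mulVec]
    rfl
  have g3' := g3 u b
  have g4' := g4 u b
  rw [ex] at g3' g4' ⊢
  have key := three_pts (τ := τ) (E := E) (n := fun i => ((A (f (L ω) 0))⁻¹ * M (f (L ω) 0)) b i)
    (u := u) hs hs1 hK (t0 := ω) (t2 := f (L ω) 1) (t3 := f (L ω) 2) (X := X) (by
      have t0 := hτ ω hω
      have t3 := hτ _ (hf ω hω 2).2
      have : |τ ω - τ (f (L ω) 2)| ≤ 2 ^ X := by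
        rw [abs_le]
        constructor <;> linarith
      exact_mod_cast this) g5 g3' g4'
  refine le_trans (le_of_eq ?_) key
  congr 1
  unfold xv3
  rw [hv0, hv1]
  simp only [if_pos hokz]
  have hD : ((τ (f (L ω) 1) : ℝ) - τ (f (L ω) 2)) ≠ 0 := by
    have : (0 : ℝ) < |((τ (f (L ω) 1) - τ (f (L ω) 2) : ℤ) : ℝ)| :=
      lt_of_le_of_lt (by positivity) g5
    push_cast at this
    exact abs_pos.1 this
  generalize hN : ((A (f (L ω) 0))⁻¹ * M (f (L ω) 0)) b = N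
  rw [← Finset.sum_sub_distrib, Finset.sum_div, Finset.sum_mul, Finset.sum_mul,
    ← Finset.sum_sub_distrib, ← Finset.sum_sub_distrib, ← Finset.sum_sub_distrib]
  refine Finset.sum_congr rfl fun i _ => ?_
  field_simp

end Pool.LBL
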