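import Pool.Agent.H36.LBL.UnqF

/-!
# The conserved covector modulo known covectors (K_POT, last step, contact coordinates)

`cov_lastF`: as `cov_last`, modulo the known covectors `fD (pt ω) g`, `fL (L ω) g`, `g ∈ Fz`, which
are functions of the point and of the line and make the slopes affine in the time.
-/

set_option autoImplicit false

namespace Pool.LBL

open Finset Real Matrix
open Pool.Agent.H49.Ent Pool.Agent.H32.Dense Pool.STK Pool.SLO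
open Pool.BFL (Pb)
open Pool.QT64 (d3)

variable {c k : ℕ}

/-- The smallest leading coordinate modulo the known covectors is `l`. -/
def MnF (R S δ : Fin c → ℝ) (Fz : Finset (Fin c)) (l : Fin c) (A : Matrix (Fin c) (Fin c) ℝ)
    (f : Fin c → Fin c → ℝ) : Prop :=
  (∃ m, AdF A Fz f l (R l) (S l) (δ l) m) ∧ ∀ l' < l, ∀ m, ¬ AdF A Fz f l' (R l') (S l') (δ l') m

theorem exists_mnF {R S δ : Fin c → ℝ} {Fz : Finset (Fin c)} {A : Matrix (Fin c) (Fin c) ℝ}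
    {f : Fin c → Fin c → ℝ} (h : ∃ l m, AdF A Fz f l (R l) (S l) (δ l) m) :
    ∃ l, MnF R S δ Fz l A f := by
  classical
  obtain ⟨l, hl⟩ := h
  have hne : (univ.filter fun l => ∃ m, AdF A Fz f l (R l) (S l) (δ l) m).Nonempty :=
    ⟨l, mem_filter.2 ⟨mem_univ l, hl⟩⟩
  refine ⟨(univ.filter fun l => ∃ m, AdF A Fz f l (R l) (S l) (δ l) m).min' hne, ?_,
    fun l' hl' m hm => ?_⟩
  · have := Finset.min'_mem _ hne
    rw [mem_filter] at this
    exact this.2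
  · have h1 : l' ∈ univ.filter fun l => ∃ m, AdF A Fz f l (R l) (S l) (δ l) m := by
      rw [mem_filter]
      exact ⟨mem_univ l', m, hm⟩
    exact absurd hl' (not_lt.2 (Finset.min'_le _ l' h1))

open Classical in
/-- The covector of a body, modulo the known covectors. -/
noncomputable def nOfF (R S δ : Fin c → ℝ) (Fz : Finset (Fin c)) (l : Fin c)
    (A : Matrix (Fin c) (Fin c) ℝ) (f : Fin c → Fin c → ℝ) : Fin c → ℝ :=
  if h : ∃ m, AdF A Fz f l (R l) (S l) (δ l) m then h.choose else Pi.single l 1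

section nOfF

variable {R S δ : Fin c → ℝ} {Fz : Finset (Fin c)} {l : Fin c} {A : Matrix (Fin c) (Fin c) ℝ}
  {f : Fin c → Fin c → ℝ}

theorem nOfF_ad (h : ∃ m, AdF A Fz f l (R l) (S l) (δ l) m) :
    AdF A Fz f l (R l) (S l) (δ l) (nOfF R S δ Fz l A f) := by
  unfold nOfF
  rw [dif_pos h]
  exact h.choose_spec

theorem nOfF_ld : Ld l (nOfF R S δ Fz l A f) := by
  unfold nOfF
  split_ifs with h
  · exact h.choose_spec.ld
  · exact single_ld l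

theorem nOfF_red (hl : l ∉ Fz) (k : Fin c) (hk : k ∈ Fz) : nOfF R S δ Fz l A f k = 0 := by
  unfold nOfF
  split_ifs with h
  · exact h.choose_spec.red k hk
  · exact Pi.single_eq_of_ne (fun e : k = l => hl (e ▸ hk)) _

theorem nOfF_le (hR : 1 ≤ R l) (i : Fin c) : |nOfF R S δ Fz l A f i| ≤ R l := by
  unfold nOfF
  split_ifs with h
  · exact h.choose_spec.le i
  · exact single_le l hR i

end nOfF

/-- The known covectors on the three-point vectors. -/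
theorem fL_d3 {T : Type} {τ : T → ℤ} {E : T → Fin k → Fin c → ℝ} {n : Fin c → ℝ} {ε φ0 φ1 : ℝ}
    {u : Fin k} {t0 t1 t2 : T} (hε : 0 ≤ ε)
    (h0 : |∑ i, n i * E t0 u i - φ0 - φ1 * τ t0| ≤ ε)
    (h1 : |∑ i, n i * E t1 u i - φ0 - φ1 * τ t1| ≤ ε)
    (h2 : |∑ i, n i * E t2 u i - φ0 - φ1 * τ t2| ≤ ε) :
    |∑ i, n i * d3 τ E u t0 t1 t2 i| ≤ 4 * ε := by
  by_cases h : τ t1 ≠ τ t2 ∧ |τ t0 - τ t2| ≤ |τ t1 - τ t2|
  · obtain ⟨r, hr⟩ : ∃ r : ℝ, r = ((τ t0 : ℝ) - τ t2) / (τ t1 - τ t2) := ⟨_, rfl⟩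
    have hD : ((τ t1 : ℝ) - τ t2) ≠ 0 := by
      intro e
      apply h.1
      have : (τ t1 : ℝ) = τ t2 := by linarith
      exact_mod_cast this
    have hr1 : |r| ≤ 1 := by
      rw [hr, abs_div, div_le_one (abs_pos.2 hD)]
      have : ((|τ t0 - τ t2| : ℤ) : ℝ) ≤ ((|τ t1 - τ t2| : ℤ) : ℝ) := by exact_mod_cast h.2
      push_cast at this
      exact this
    have e1 : ∑ i, n i * d3 τ E u t0 t1 t2 i =
        (∑ i, n i * E t0 u i - φ0 - φ1 * τ t0) - (∑ i, n i * E t2 u i - φ0 - φ1 * τ t2) -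
          r * ((∑ i, n i * E t1 u i - φ0 - φ1 * τ t1) -
            (∑ i, n i * E t2 u i - φ0 - φ1 * τ t2)) := by
      have e2 : ∑ i, n i * d3 τ E u t0 t1 t2 i = ∑ i, n i * E t0 u i - ∑ i, n i * E t2 u i -
          r * (∑ i, n i * E t1 u i - ∑ i, n i * E t2 u i) := by
        unfold d3
        rw [← Finset.sum_sub_distrib, ← Finset.sum_sub_distrib, Finset.mul_sum,
          ← Finset.sum_sub_distrib]
        refine Finset.sum_congr rfl fun i _ => ?_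
        rw [if_pos h, hr]
        ring
      have e3 : (τ t0 : ℝ) - τ t2 = r * (τ t1 - τ t2) := by
        rw [hr]
        field_simp
      rw [e2]
      linear_combination φ1 * e3
    rw [e1]
    have a1 := abs_sub (∑ i, n i * E t0 u i - φ0 - φ1 * τ t0)
      (∑ i, n i * E t2 u i - φ0 - φ1 * τ t2)
    have a2 := abs_sub (∑ i, n i * E t1 u i - φ0 - φ1 * τ t1)
      (∑ i, n i * E t2 u i - φ0 - φ1 * τ t2)
    have a3 : |r * ((∑ i, n i * E t1 u i - φ0 - φ1 * τ t1) -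
        (∑ i, n i * E t2 u i - φ0 - φ1 * τ t2))| ≤ 1 * (ε + ε) := by
      rw [abs_mul]
      exact mul_le_mul hr1 (a2.trans (add_le_add h1 h2)) (abs_nonneg _) zero_le_one
    refine (abs_sub _ _).trans ?_
    linarith
  · have e1 : ∑ i, n i * d3 τ E u t0 t1 t2 i = 0 := by
      refine Finset.sum_eq_zero fun i _ => ?_
      unfold d3
      rw [if_neg h, mul_zero]
    rw [e1, abs_zero]
    linarith

theorem d3_le {T : Type} {τ : T → ℤ} {E : T → Fin k → Fin c → ℝ} {CE : ℝ} {u : Fin k}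
    {t0 t1 t2 : T} (h0 : ∀ i, |E t0 u i| ≤ CE) (h1 : ∀ i, |E t1 u i| ≤ CE)
    (h2 : ∀ i, |E t2 u i| ≤ CE) (i : Fin c) : |d3 τ E u t0 t1 t2 i| ≤ 4 * CE := by
  have hCE : 0 ≤ CE := (abs_nonneg _).trans (h0 i)
  unfold d3
  split_ifs with h
  · have hD : ((τ t1 : ℝ) - τ t2) ≠ 0 := by
      intro e
      apply h.1
      have : (τ t1 : ℝ) = τ t2 := by linarith
      exact_mod_cast this
    have hr1 : |((τ t0 : ℝ) - τ t2) / (τ t1 - τ t2)| ≤ 1 := by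
      rw [abs_div, div_le_one (abs_pos.2 hD)]
      have : ((|τ t0 - τ t2| : ℤ) : ℝ) ≤ ((|τ t1 - τ t2| : ℤ) : ℝ) := by exact_mod_cast h.2
      push_cast at this
      exact this
    have a1 := abs_sub (E t0 u i) (E t2 u i)
    have a2 := abs_sub (E t1 u i) (E t2 u i)
    have a3 : |((τ t0 : ℝ) - τ t2) / (τ t1 - τ t2) * (E t1 u i - E t2 u i)| ≤
        1 * (CE + CE) := by
      rw [abs_mul]
      exact mul_le_mul hr1 (a2.trans (add_le_add (h1 i) (h2 i))) (abs_nonneg _) zero_le_one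
    refine (abs_sub _ _).trans ?_
    linarith [h0 i, h2 i]
  · rw [abs_zero]
    linarith

section last

variable {Ω Λ Pt : Type} [Fintype Ω] {p : Ω → ℝ}

/-- **The last step, modulo known covectors.** -/
theorem cov_lastF (hp : IsLaw p) (L : Ω → Λ) (pt : Ω → Pt) (A : Pt → Matrix (Fin c) (Fin c) ℝ)
    (M : Ω → Matrix (Fin c) (Fin c) ℝ) (τ : Ω → ℤ) (E : Ω → Fin k → Fin c → ℝ)
    (Fz : Finset (Fin c)) (fD : Pt → Fin c → Fin c → ℝ) (fL : Λ → Fin c → Fin c → ℝ)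
    (φ0 φ1 : Λ → Fin c → Fin k → ℝ) (Ev : Ω → Prop)
    {R S δ : Fin c → ℝ} {C G Gf CE K ρ p0 η s ε : ℝ} {X : ℕ}
    (hdet : ∀ P, (A P).det ≠ 0) (hC : ∀ P i b, |A P i b| ≤ C) (hR : ∀ i, 1 ≤ R i)
    (hS : ∀ i, 0 ≤ S i) (hρ : 0 < ρ) (hM : ∀ ω, Uni (M ω)) (hG : ∀ ω i j, |M ω i j| ≤ G)
    (hGi : ∀ ω i j, |(M ω)⁻¹ i j| ≤ G) (hG1 : 1 ≤ G) (hGf0 : 0 ≤ Gf) (hε : 0 ≤ ε)
    (hE : ∀ ω, 0 < p ω → ∀ u i, |E ω u i| ≤ CE)
    (hτ : ∀ ω, 0 < p ω → 0 ≤ τ ω ∧ τ ω < 2 ^ X) (hs : 0 < s) (hs1 : s ≤ 1) (hp0 : 0 < p0)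
    (hf : ∀ P, ∀ g ∈ Fz, Ld g (fD P g) ∧ ∀ i, |fD P g i| ≤ Gf)
    (hfL : ∀ ω, 0 < p ω → Ev ω → ∀ g ∈ Fz, ∀ i, |(fD (pt ω) g ᵥ* M ω) i - fL (L ω) g i| ≤ ε)
    (hfE : ∀ ω, 0 < p ω → Ev ω → ∀ g ∈ Fz, ∀ u,
      |∑ i, fL (L ω) g i * E ω u i - φ0 (L ω) g u - φ1 (L ω) g u * τ ω| ≤ ε)
    (hEv : Pb p (fun ω => ¬ Ev ω) ≤ η)
    (hcv : p0 ≤ Pb p (fun ω => ∃ l m, AdF (A (pt ω)) Fz (fD (pt ω)) l (R l) (S l) (δ l) m))
    (htr : Pb (tup p L 1) (fun w => ¬ ∀ i j,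
      |((A (pt (w 0)))⁻¹ * (M (w 0) * (M (w 1))⁻¹ * A (pt (w 1)))) i j| ≤ K) ≤ η)
    (hbd : Pb (tup p L 3) (fun w => ¬ ∀ u b,
      |((A (pt (w 0)))⁻¹ *ᵥ (M (w 0) *ᵥ d3 τ E u (w 1) (w 2) (w 3))) b| ≤ K) ≤ η)
    (htm : Pb (tup p L 1) (fun w => |((τ (w 0) - τ (w 1) : ℤ) : ℝ)| ≤ s * 2 ^ X) ≤ η)
    (hpr : ∀ l, ∀ l' < l, (((c * K + 1) * δ l + c * (c * (S l * (c * (2 * ε * G))) * C)) / ρ +
      ∑ i ∈ univ.filter (fun i => l' < i ∧ i < l), C / R i) * R l' ≤ δ l')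
    (hprS : ∀ l, ∀ l' < l,
      (c * (c * (R l * G) * G) * (1 + Gf) ^ c + 2 * S l) / ρ * R l' ≤ S l') :
    ∃ (l : Fin c) (nD : Pt → Fin c → ℝ) (n : Λ → Fin c → ℝ) (e0 e1 : Λ → Fin k → ℝ),
      l ∉ Fz ∧ (∀ P, Ld l (nD P) ∧ (∀ g ∈ Fz, nD P g = 0) ∧ ∀ i, |nD P i| ≤ R l) ∧
      (∀ z, Ld l (n z) ∧ ∀ i, |n z i| ≤ c * (R l * G)) ∧
      (∀ z u, |e0 z u| ≤ 3 * (c * (c * (R l * G) * CE)) / s ∧
        |e1 z u| * 2 ^ X ≤ 2 * (c * (c * (R l * G) * CE)) / s) ∧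
      (p0 / c) ^ 2 - 8 * η ≤ Pb p (fun ω =>
        (∃ r : Fin c → ℝ, (∀ g, |r g| ≤ c * (c * (R l * G) * G) * (1 + Gf) ^ c) ∧
          ∀ i, |(nD (pt ω) ᵥ* M ω) i - n (L ω) i + ∑ g ∈ Fz, r g * fL (L ω) g i| ≤
            c * (ρ * G) + c * (c * (c * (R l * G) * G) * (1 + Gf) ^ c * ε)) ∧
        ∀ u, |∑ i, n (L ω) i * E ω u i - e0 (L ω) u - e1 (L ω) u * τ ω| ≤
          (c * (δ l * K) + c * (S l * (c * (ε * (4 * CE)) + 4 * ε))) / s) := by
  classical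
  have h0 := hp.nonneg
  -- the leading coordinate
  obtain ⟨l, hl⟩ := Pb_pigeon h0 (fun l ω => MnF R S δ Fz l (A (pt ω)) (fD (pt ω)))
    (hcv.trans (pmono h0 fun ω _ h => exists_mnF h)) hp0
  have hc1 : (1 : ℝ) ≤ c := by
    have : 0 < c := Fin.pos l
    exact_mod_cast this
  have hpos : 0 < Pb p (fun ω => MnF R S δ Fz l (A (pt ω)) (fD (pt ω))) :=
    lt_of_lt_of_le (by positivity) hl
  have hlF : l ∉ Fz := by
    by_contra hlF
    have : Pb p (fun ω => MnF R S δ Fz l (A (pt ω)) (fD (pt ω))) = 0 := by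
      unfold Pb
      refine Finset.sum_eq_zero fun ω _ => if_neg ?_
      rintro ⟨⟨m, hm⟩, -⟩
      exact hm.notin hlF
    rw [this] at hpos
    exact lt_irrefl _ hpos
  obtain ⟨ω₀, hω₀⟩ : ∃ ω, 0 < p ω := by
    by_contra h
    push Not at h
    have h1 := hp.sum_one
    rw [Finset.sum_eq_zero fun ω _ => le_antisymm (h ω) (h0 ω)] at h1
    exact zero_ne_one h1
  -- the event of the tuples
  obtain ⟨Gd, hGd⟩ : ∃ Gd : (Fin 4 → Ω) → Prop, Gd = fun w =>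
    MnF R S δ Fz l (A (pt (w 0))) (fD (pt (w 0))) ∧
    MnF R S δ Fz l (A (pt (w 1))) (fD (pt (w 1))) ∧
    (∀ i j, |((A (pt (w 1)))⁻¹ * (M (w 1) * (M (w 0))⁻¹ * A (pt (w 0)))) i j| ≤ K) ∧
    (∀ u b, |((A (pt (w 1)))⁻¹ *ᵥ (M (w 1) *ᵥ d3 τ E u (w 0) (w 2) (w 3))) b| ≤ K) ∧
    (∀ u b, |((A (pt (w 1)))⁻¹ *ᵥ (M (w 1) *ᵥ d3 τ E u (w 2) (w 0) (w 3))) b| ≤ K) ∧
    s * 2 ^ X < |((τ (w 2) - τ (w 3) : ℤ) : ℝ)| ∧ ∀ j, Ev (w j) := ⟨_, rfl⟩
  have hPG : (p0 / c) ^ 2 - 8 * η ≤ Pb (tup p L 3) Gd := by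
    have a0 : (p0 / c) ^ 2 ≤ Pb (tup p L 3) (fun w =>
        MnF R S δ Fz l (A (pt (w 0))) (fD (pt (w 0))) ∧
          MnF R S δ Fz l (A (pt (w 1))) (fD (pt (w 1)))) := by
      have b1 := pair_sq hp L (fun ω => MnF R S δ Fz l (A (pt ω)) (fD (pt ω)))
      have b2 : (p0 / c) ^ 2 ≤ Pb p (fun ω => MnF R S δ Fz l (A (pt ω)) (fD (pt ω))) ^ 2 :=
        pow_le_pow_left₀ (by positivity) hl 2
      have b3 := pmarg (tup_sub h0 L (M := 1) (N := 3) ![0, 1] (by decide))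
        (fun v => MnF R S δ Fz l (A (pt (v 0))) (fD (pt (v 0))) ∧
          MnF R S δ Fz l (A (pt (v 1))) (fD (pt (v 1))))
      exact (b2.trans b1).trans (le_of_eq b3.symm)
    obtain ⟨B, hB⟩ : ∃ B : Fin 8 → (Fin 4 → Ω) → Prop, B = ![
      fun w => ¬ ∀ i j, |((A (pt (w 1)))⁻¹ * (M (w 1) * (M (w 0))⁻¹ * A (pt (w 0)))) i j| ≤ K,
      fun w => ¬ ∀ u b, |((A (pt (w 1)))⁻¹ *ᵥ (M (w 1) *ᵥ d3 τ E u (w 0) (w 2) (w 3))) b| ≤ K,
      fun w => ¬ ∀ u b, |((A (pt (w 1)))⁻¹ *ᵥ (M (w 1) *ᵥ d3 τ E u (w 2) (w 0) (w 3))) b| ≤ K,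
      fun w => |((τ (w 2) - τ (w 3) : ℤ) : ℝ)| ≤ s * 2 ^ X,
      fun w => ¬ Ev (w 0), fun w => ¬ Ev (w 1), fun w => ¬ Ev (w 2), fun w => ¬ Ev (w 3)] :=
      ⟨_, rfl⟩
    have b0 : Pb (tup p L 3) (B 0) ≤ η := by
      have b3 := pmarg (tup_sub h0 L (M := 1) (N := 3) ![1, 0] (by decide))
        (fun w => ¬ ∀ i j, |((A (pt (w 0)))⁻¹ * (M (w 0) * (M (w 1))⁻¹ * A (pt (w 1)))) i j| ≤ K)
      rw [hB]
      exact (le_of_eq b3).trans htr
    have b1 : Pb (tup p L 3) (B 1) ≤ η := by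
      have b3 := pmarg (tup_sub h0 L (M := 3) (N := 3) ![1, 0, 2, 3] (by decide))
        (fun w => ¬ ∀ u b, |((A (pt (w 0)))⁻¹ *ᵥ (M (w 0) *ᵥ d3 τ E u (w 1) (w 2) (w 3))) b| ≤ K)
      rw [hB]
      exact (le_of_eq b3).trans hbd
    have b2 : Pb (tup p L 3) (B 2) ≤ η := by
      have b3 := pmarg (tup_sub h0 L (M := 3) (N := 3) ![1, 2, 0, 3] (by decide))
        (fun w => ¬ ∀ u b, |((A (pt (w 0)))⁻¹ *ᵥ (M (w 0) *ᵥ d3 τ E u (w 1) (w 2) (w 3))) b| ≤ K)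
      rw [hB]
      exact (le_of_eq b3).trans hbd
    have b3 : Pb (tup p L 3) (B 3) ≤ η := by
      have b3 := pmarg (tup_sub h0 L (M := 1) (N := 3) ![2, 3] (by decide))
        (fun w => |((τ (w 0) - τ (w 1) : ℤ) : ℝ)| ≤ s * 2 ^ X)
      rw [hB]
      exact (le_of_eq b3).trans htm
    have b4 : ∀ j : Fin 4, Pb (tup p L 3) (fun w => ¬ Ev (w j)) ≤ η := fun j => by
      have b3 := pmarg (tup_marg h0 L 3 j) (fun ω => ¬ Ev ω)
      exact (le_of_eq b3).trans hEv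
    have b5 : Pb (tup p L 3) (B 4) ≤ η := by rw [hB]; exact b4 0
    have b6 : Pb (tup p L 3) (B 5) ≤ η := by rw [hB]; exact b4 1
    have b7 : Pb (tup p L 3) (B 6) ≤ η := by rw [hB]; exact b4 2
    have b8 : Pb (tup p L 3) (B 7) ≤ η := by rw [hB]; exact b4 3
    have b9 := pbad (tup_nonneg h0 L 3) univ (A := fun w =>
        MnF R S δ Fz l (A (pt (w 0))) (fD (pt (w 0))) ∧
          MnF R S δ Fz l (A (pt (w 1))) (fD (pt (w 1)))) (G := Gd) B (by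
      intro w _ hw
      by_cases hh : ∃ i ∈ (univ : Finset (Fin 8)), B i w
      · exact .inl hh
      · right
        push Not at hh
        have g0 := hh 0 (mem_univ _)
        have g1 := hh 1 (mem_univ _)
        have g2 := hh 2 (mem_univ _)
        have g3 := hh 3 (mem_univ _)
        have g4 := hh 4 (mem_univ _)
        have g5 := hh 5 (mem_univ _)
        have g6 := hh 6 (mem_univ _)
        have g7 := hh 7 (mem_univ _)
        rw [hB] at g0 g1 g2 g3 g4 g5 g6 g7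
        rw [hGd]
        refine ⟨hw.1, hw.2, not_not.1 g0, not_not.1 g1, not_not.1 g2, not_le.1 g3, ?_⟩
        intro j
        fin_cases j
        · exact not_not.1 g4
        · exact not_not.1 g5
        · exact not_not.1 g6
        · exact not_not.1 g7)
    rw [Fin.sum_univ_eight] at b9
    linarith
  obtain ⟨f, hfz, hfP⟩ := tup_fix hp L 3 Gd
  -- the functions of the line
  obtain ⟨ok, hok⟩ : ∃ ok : Λ → Prop, ok = fun z =>
    MnF R S δ Fz l (A (pt (f z 0))) (fD (pt (f z 0))) ∧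
    (∀ j, 0 < p (f z j)) ∧ s * 2 ^ X < |((τ (f z 1) - τ (f z 2) : ℤ) : ℝ)| := ⟨_, rfl⟩
  obtain ⟨n, hn⟩ : ∃ n : Λ → Fin c → ℝ, n = fun z => if ok z then
    nOfF R S δ Fz l (A (pt (f z 0))) (fD (pt (f z 0))) ᵥ* M (f z 0) else Pi.single l 1 := ⟨_, rfl⟩
  obtain ⟨e1, he1⟩ : ∃ e1 : Λ → Fin k → ℝ, e1 = fun z u => if ok z then
    (∑ i, n z i * E (f z 1) u i - ∑ i, n z i * E (f z 2) u i) /
      ((τ (f z 1) : ℝ) - τ (f z 2)) else 0 := ⟨_, rfl⟩
  obtain ⟨e0, he0⟩ : ∃ e0 : Λ → Fin k → ℝ, e0 = fun z u => if ok z then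
    ∑ i, n z i * E (f z 2) u i - (∑ i, n z i * E (f z 1) u i - ∑ i, n z i * E (f z 2) u i) /
      ((τ (f z 1) : ℝ) - τ (f z 2)) * τ (f z 2) else 0 := ⟨_, rfl⟩
  have hRG : 0 ≤ R l * G := mul_nonneg (by linarith only [hR l]) (by linarith only [hG1])
  have hnz : ∀ z, Ld l (n z) ∧ ∀ i, |n z i| ≤ c * (R l * G) := by
    intro z
    rw [hn]
    simp only
    split_ifs with h
    · refine ⟨(hM _).ld nOfF_ld, fun i => ?_⟩
      exact sum_abs_le (by linarith only [hR l]) (fun a => nOfF_le (hR l) a) (fun a => hG _ a i)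
    · refine ⟨single_ld l, fun i => single_le l ?_ i⟩
      have : 1 ≤ R l * G := one_le_mul_of_one_le_of_one_le (hR l) hG1
      nlinarith
  have hCE : ∀ ω, 0 < p ω → ∀ z u, |∑ i, n z i * E ω u i| ≤ c * (c * (R l * G) * CE) :=
    fun ω hω z u => sum_abs_le (by positivity) (hnz z).2 (fun i => hE ω hω u i)
  have hS0 : ∀ _ : Fin k, 0 ≤ c * (c * (R l * G) * CE) := fun u =>
    (abs_nonneg _).trans (hCE ω₀ hω₀ (L ω₀) u)
  have he1b : ∀ z u, |e1 z u| * 2 ^ X ≤ 2 * (c * (c * (R l * G) * CE)) / s := by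
    intro z u
    have hS := hS0 u
    rw [he1]
    simp only
    split_ifs with h
    · rw [hok] at h
      obtain ⟨-, h2, h3⟩ := h
      push_cast at h3
      have hX : (0 : ℝ) < 2 ^ X := by positivity
      have hD : 0 < |(τ (f z 1) : ℝ) - τ (f z 2)| := lt_of_le_of_lt (by positivity) h3
      rw [abs_div, div_mul_eq_mul_div, div_le_div_iff₀ hD hs]
      have h4 : |∑ i, n z i * E (f z 1) u i - ∑ i, n z i * E (f z 2) u i| ≤
          2 * (c * (c * (R l * G) * CE)) := by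
        refine (abs_sub _ _).trans ?_
        have := hCE _ (h2 1) z u
        have := hCE _ (h2 2) z u
        linarith
      have h5 : |∑ i, n z i * E (f z 1) u i - ∑ i, n z i * E (f z 2) u i| * (s * 2 ^ X) ≤
          2 * (c * (c * (R l * G) * CE)) * |(τ (f z 1) : ℝ) - τ (f z 2)| :=
        mul_le_mul h4 h3.le (by positivity) (by linarith)
      linarith
    · rw [abs_zero, zero_mul]
      positivity
  refine ⟨l, fun P => nOfF R S δ Fz l (A P) (fD P), n, e0, e1, hlF,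
    fun P => ⟨nOfF_ld, nOfF_red hlF, nOfF_le (hR l)⟩, hnz, fun z u => ⟨?_, he1b z u⟩, ?_⟩
  · have hS := hS0 u
    by_cases h : ok z
    · have e : e0 z u = ∑ i, n z i * E (f z 2) u i - e1 z u * τ (f z 2) := by
        rw [he0, he1]
        simp only [if_pos h]
      have h' := h
      rw [hok] at h'
      obtain ⟨-, h2, -⟩ := h'
      have h3 := hτ _ (h2 2)
      have h4 : |(τ (f z 2) : ℝ)| ≤ 2 ^ X := by
        rw [abs_of_nonneg (by exact_mod_cast h3.1)]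
        have : ((τ (f z 2) : ℤ) : ℝ) < ((2 ^ X : ℤ) : ℝ) := by exact_mod_cast h3.2
        push_cast at this
        exact this.le
      have h5 : |e1 z u * τ (f z 2)| ≤ 2 * (c * (c * (R l * G) * CE)) / s := by
        rw [abs_mul]
        exact (mul_le_mul_of_nonneg_left h4 (abs_nonneg _)).trans (he1b z u)
      have h6 : c * (c * (R l * G) * CE) ≤ c * (c * (R l * G) * CE) / s := by
        rw [le_div_iff₀ hs]
        nlinarith
      rw [e]
      refine (abs_sub _ _).trans ?_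
      have h7 := hCE _ (h2 2) z u
      have e3 : 3 * (c * (c * (R l * G) * CE)) / s = c * (c * (R l * G) * CE) / s +
          2 * (c * (c * (R l * G) * CE)) / s := by ring
      rw [e3]
      linarith
    · rw [he0]
      simp only [if_neg h, abs_zero]
      positivity
  · refine hPG.trans (hfP.trans (pmono h0 fun ω hω hg => ?_))
    rw [hGd] at hg
    have c0 : (Fin.cons ω (f (L ω)) : Fin 4 → Ω) 0 = ω := rfl
    have c1 : (Fin.cons ω (f (L ω)) : Fin 4 → Ω) 1 = f (L ω) 0 := rfl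
    have c2 : (Fin.cons ω (f (L ω)) : Fin 4 → Ω) 2 = f (L ω) 1 := rfl
    have c3 : (Fin.cons ω (f (L ω)) : Fin 4 → Ω) 3 = f (L ω) 2 := rfl
    obtain ⟨g0, g1, g2, g3, g4, g5, g6⟩ := hg
    have v0 := g6 0
    have v1 := g6 1
    have v2 := g6 2
    have v3 := g6 3
    simp only [c0, c1, c2, c3] at g0 g1 g2 g3 g4 g5 v0 v1 v2 v3
    have q0 := hfz ω hω 0
    have q1 := hfz ω hω 1
    have q2 := hfz ω hω 2
    have hokz : ok (L ω) := by
      rw [hok]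
      exact ⟨g1, fun j => (hfz ω hω j).2, g5⟩
    have a1 := nOfF_ad g1.1
    have a0 := nOfF_ad g0.1
    have en : n (L ω) = nOfF R S δ Fz l (A (pt (f (L ω) 0))) (fD (pt (f (L ω) 0))) ᵥ*
        M (f (L ω) 0) := by
      rw [hn]
      simp only [if_pos hokz]
    have f1L : ∀ g ∈ Fz, ∀ i, |(fD (pt (f (L ω) 0)) g ᵥ* M (f (L ω) 0)) i - fL (L ω) g i| ≤ ε := by
      intro g hg i
      have := hfL _ q0.2 v1 g hg i
      rwa [q0.1] at this
    refine ⟨?_, fun u => ?_⟩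
    · rw [en]
      exact two_ptsF (hC _) hR hρ (hdet _) (hM _) (hM _) (hG _) (hG _) (hGi _)
        (by linarith only [hG1]) (fun g hg => (hf _ g hg).1) (fun g hg => (hf _ g hg).2) hGf0 hε
        (hS l) (hfL ω hω v0) f1L a0 a1 g0.2 (hpr l) (hprS l) g2
    · have ee1 : e1 (L ω) u = (∑ i, n (L ω) i * E (f (L ω) 1) u i -
          ∑ i, n (L ω) i * E (f (L ω) 2) u i) / ((τ (f (L ω) 1) : ℝ) - τ (f (L ω) 2)) := by
        rw [he1]
        simp only [if_pos hokz]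
      have ee0 : e0 (L ω) u = ∑ i, n (L ω) i * E (f (L ω) 2) u i -
          (∑ i, n (L ω) i * E (f (L ω) 1) u i - ∑ i, n (L ω) i * E (f (L ω) 2) u i) /
            ((τ (f (L ω) 1) : ℝ) - τ (f (L ω) 2)) * τ (f (L ω) 2) := by
        rw [he0]
        simp only [if_pos hokz]
      rw [ee0, ee1]
      obtain ⟨_, _, a1s⟩ := a1.sm
      have hδ : 0 ≤ δ l := (abs_nonneg _).trans (a1s l)
      have hCE0 : 0 ≤ CE := (abs_nonneg _).trans (hE ω hω u l)
      have hK0 : 0 ≤ K := (abs_nonneg _).trans (g3 u l)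
      have w0 := fun g hg => hfE ω hω v0 g hg u
      have w2 : ∀ g ∈ Fz, |∑ i, fL (L ω) g i * E (f (L ω) 1) u i - φ0 (L ω) g u -
          φ1 (L ω) g u * τ (f (L ω) 1)| ≤ ε := by
        intro g hg
        have := hfE _ q1.2 v2 g hg u
        rwa [q1.1] at this
      have w3 : ∀ g ∈ Fz, |∑ i, fL (L ω) g i * E (f (L ω) 2) u i - φ0 (L ω) g u -
          φ1 (L ω) g u * τ (f (L ω) 2)| ≤ ε := by
        intro g hg
        have := hfE _ q2.2 v3 g hg u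
        rwa [q2.1] at this
      refine three_pts hs hs1 ?_ ?_ g5 ?_ ?_
      · have := hS l
        positivity
      · have t0 := hτ ω hω
        have t3 := hτ _ q2.2
        have : |τ ω - τ (f (L ω) 2)| ≤ 2 ^ X := by
          rw [abs_le]
          constructor <;> linarith
        exact_mod_cast this
      · rw [en]
        exact on_bodyF (hdet _) a1 (hS l) hε (by positivity) (by positivity) f1L (g3 u)
          (d3_le (hE ω hω u) (hE _ q1.2 u) (hE _ q2.2 u))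
          (fun g hg => fL_d3 hε (w0 g hg) (w2 g hg) (w3 g hg))
      · rw [en]
        exact on_bodyF (hdet _) a1 (hS l) hε (by positivity) (by positivity) f1L (g4 u)
          (d3_le (hE _ q1.2 u) (hE ω hω u) (hE _ q2.2 u))
          (fun g hg => fL_d3 hε (w2 g hg) (w0 g hg) (w3 g hg))

end last

end Pool.LBL
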