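import Pool.Agent.H36.LBL.Body

/-!
# The covector of a body, coarse lines for the body, exact lines for the known covectors (K_POT)

`cov_two`: the body `A (P ω)` is conserved along the lines `L` and contains the three-point vectors
of the slopes. The known covectors `fD (pt ω) g`, `fL (L' ω) g`, `g ∈ Fz`, are functions of the
exact point and of the exact line. The smallest leading coordinate modulo the known covectors gives
a covector which is a function of the exact point and, modulo the known ones, a function of the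
exact line, and which makes the slopes affine in the time.
-/

set_option autoImplicit false

namespace Pool.LBL

open Finset Real Matrix
open Pool.Agent.H49.Ent Pool.Agent.H32.Dense Pool.STK Pool.SLO
open Pool.BFL (Pb)
open Pool.QT64 (d3)

variable {c k : ℕ}

theorem tr_comp {A0 A1 Ar M0 M1 Mr : Matrix (Fin c) (Fin c) ℝ} {K : ℝ} (hK : 0 ≤ K)
    (hr : Ar.det ≠ 0) (ur : Uni Mr) (h1 : ∀ i j, |(A1⁻¹ * (M1 * Mr⁻¹ * Ar)) i j| ≤ K)
    (h0 : ∀ i j, |(Ar⁻¹ * (Mr * M0⁻¹ * A0)) i j| ≤ K) (i j : Fin c) :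
    |(A1⁻¹ * (M1 * M0⁻¹ * A0)) i j| ≤ c * (K * K) := by
  have hMr : IsUnit Mr.det := by
    rw [ur.det]
    exact isUnit_one
  have hAr : IsUnit Ar.det := isUnit_iff_ne_zero.2 hr
  have e : A1⁻¹ * (M1 * M0⁻¹ * A0) = (A1⁻¹ * (M1 * Mr⁻¹ * Ar)) * (Ar⁻¹ * (Mr * M0⁻¹ * A0)) := by
    rw [Matrix.mul_assoc A1⁻¹ (M1 * Mr⁻¹ * Ar), Matrix.mul_assoc (M1 * Mr⁻¹) Ar,
      ← Matrix.mul_assoc Ar, Matrix.mul_nonsing_inv _ hAr, Matrix.one_mul,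
      Matrix.mul_assoc M1 Mr⁻¹, ← Matrix.mul_assoc Mr⁻¹ (Mr * M0⁻¹), ← Matrix.mul_assoc Mr⁻¹ Mr,
      Matrix.nonsing_inv_mul _ hMr, Matrix.one_mul, ← Matrix.mul_assoc M1]
  rw [e, Matrix.mul_apply]
  exact sum_abs_le hK (fun b => h1 i b) (fun b => h0 b j)

theorem body_pt {A1 Ar M1 Mr : Matrix (Fin c) (Fin c) ℝ} {K K' : ℝ} {x : Fin c → ℝ} (hK : 0 ≤ K)
    (hr : Ar.det ≠ 0) (ur : Uni Mr) (h1 : ∀ i j, |(A1⁻¹ * (M1 * Mr⁻¹ * Ar)) i j| ≤ K)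
    (hx : ∀ b, |(Ar⁻¹ *ᵥ (Mr *ᵥ x)) b| ≤ K') (b : Fin c) :
    |(A1⁻¹ *ᵥ (M1 *ᵥ x)) b| ≤ c * (K * K') := by
  have hMr : IsUnit Mr.det := by
    rw [ur.det]
    exact isUnit_one
  have hAr : IsUnit Ar.det := isUnit_iff_ne_zero.2 hr
  have e0 : A1⁻¹ * M1 = (A1⁻¹ * (M1 * Mr⁻¹ * Ar)) * (Ar⁻¹ * Mr) := by
    rw [Matrix.mul_assoc A1⁻¹ (M1 * Mr⁻¹ * Ar), Matrix.mul_assoc (M1 * Mr⁻¹) Ar,
      ← Matrix.mul_assoc Ar, Matrix.mul_nonsing_inv _ hAr, Matrix.one_mul,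
      Matrix.mul_assoc M1 Mr⁻¹, Matrix.nonsing_inv_mul _ hMr, Matrix.mul_one]
  have e : A1⁻¹ *ᵥ (M1 *ᵥ x) = (A1⁻¹ * (M1 * Mr⁻¹ * Ar)) *ᵥ (Ar⁻¹ *ᵥ (Mr *ᵥ x)) := by
    rw [mulVec_mulVec, e0, mulVec_mulVec, mulVec_mulVec, Matrix.mul_assoc (A1⁻¹ * (M1 * Mr⁻¹ * Ar))]
  rw [e]
  exact sum_abs_le hK (fun a => h1 b a) (fun a => hx a)

/-- The covector `m` on a vector of the body. -/
theorem on_vec {A1 M1 : Matrix (Fin c) (Fin c) ℝ} {K' δ : ℝ} {m x : Fin c → ℝ}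
    (hdet : A1.det ≠ 0) (hδ : 0 ≤ δ) (hm : ∀ b, |∑ i, m i * A1 i b| ≤ δ)
    (hx : ∀ b, |(A1⁻¹ *ᵥ (M1 *ᵥ x)) b| ≤ K') : |∑ i, (m ᵥ* M1) i * x i| ≤ c * (δ * K') := by
  have hA1 : IsUnit A1.det := isUnit_iff_ne_zero.2 hdet
  have e1 : ∑ i, (m ᵥ* M1) i * x i = ∑ b, (m ᵥ* A1) b * (A1⁻¹ *ᵥ (M1 *ᵥ x)) b := by
    show (m ᵥ* M1) ⬝ᵥ x = (m ᵥ* A1) ⬝ᵥ (A1⁻¹ *ᵥ (M1 *ᵥ x))
    rw [← dotProduct_mulVec, ← dotProduct_mulVec, mulVec_mulVec, Matrix.mul_nonsing_inv _ hA1,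
      one_mulVec]
  rw [e1]
  exact sum_abs_le hδ (fun b => hm b) hx

section two

variable {Ω Λ Pt Λ' Ξ : Type} [Fintype Ω] {p : Ω → ℝ}

/-- The bound of the affine functions. -/
noncomputable def Be (c : ℕ) (R S G Gf CE Φ s : ℝ) : ℝ :=
  c * (c * ((R + c * (S * Gf)) * G) * (3 * CE / s)) + c * (S * Φ)

/-- **The covector**, coarse lines for the body, exact lines for the known covectors. -/
theorem cov_two (hp : IsLaw p) (L : Ω → Λ) (P : Ω → Pt) (L' : Ω → Λ') (pt : Ω → Ξ)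
    (hLL : Det p L' L) (hPP : Det p pt P)
    (A : Pt → Matrix (Fin c) (Fin c) ℝ) (M : Ω → Matrix (Fin c) (Fin c) ℝ) (τ : Ω → ℤ)
    (E : Ω → Fin k → Fin c → ℝ) (Fz : Finset (Fin c)) (fD : Ξ → Fin c → Fin c → ℝ)
    (fL : Λ' → Fin c → Fin c → ℝ) (φ0 φ1 : Λ' → Fin c → Fin k → ℝ) (Ev : Ω → Prop)
    {R S δ : Fin c → ℝ} {C G Gf CE K Φ ρ p0 η s ε : ℝ} {X : ℕ}
    (hdet : ∀ P, (A P).det ≠ 0) (hC : ∀ P i b, |A P i b| ≤ C) (hR : ∀ i, 1 ≤ R i)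
    (hS : ∀ i, 0 ≤ S i) (hρ : 0 < ρ) (hM : ∀ ω, Uni (M ω)) (hG : ∀ ω i j, |M ω i j| ≤ G)
    (hGi : ∀ ω i j, |(M ω)⁻¹ i j| ≤ G) (hG1 : 1 ≤ G) (hGf0 : 0 ≤ Gf) (hε : 0 ≤ ε) (hK : 0 ≤ K)
    (hCE : 0 ≤ CE) (hΦ : 0 ≤ Φ) (hE : ∀ ω, 0 < p ω → ∀ u i, |E ω u i| ≤ CE)
    (hτ : ∀ ω, 0 < p ω → 0 ≤ τ ω ∧ τ ω < 2 ^ X) (hs : 0 < s) (hs1 : s ≤ 1) (hp0 : 0 < p0)
    (hf : ∀ ξ, ∀ g ∈ Fz, Ld g (fD ξ g) ∧ ∀ i, |fD ξ g i| ≤ Gf)
    (hfL : ∀ ω, 0 < p ω → Ev ω → ∀ g ∈ Fz, ∀ i, |(fD (pt ω) g ᵥ* M ω) i - fL (L' ω) g i| ≤ ε)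
    (hfE : ∀ ω, 0 < p ω → Ev ω → ∀ g ∈ Fz, ∀ u,
      |∑ i, fL (L' ω) g i * E ω u i - φ0 (L' ω) g u - φ1 (L' ω) g u * τ ω| ≤ ε)
    (hφ : ∀ z, ∀ g ∈ Fz, ∀ u, |φ0 z g u| ≤ Φ ∧ |φ1 z g u| * 2 ^ X ≤ Φ)
    (hEv : Pb p (fun ω => ¬ Ev ω) ≤ η)
    (hcv : p0 ≤ Pb p (fun ω => ∃ l m, AdF (A (P ω)) Fz (fD (pt ω)) l (R l) (S l) (δ l) m))
    (htr : Pb (tup p L 1) (fun w => ¬ ∀ i j,
      |((A (P (w 0)))⁻¹ * (M (w 0) * (M (w 1))⁻¹ * A (P (w 1)))) i j| ≤ K) ≤ η)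
    (hbd : Pb (tup p L 3) (fun w => ¬ ∀ u b,
      |((A (P (w 0)))⁻¹ *ᵥ (M (w 0) *ᵥ d3 τ E u (w 1) (w 2) (w 3))) b| ≤ K) ≤ η)
    (htm : Pb (tup p L 1) (fun w => |((τ (w 0) - τ (w 1) : ℤ) : ℝ)| ≤ s * 2 ^ X) ≤ η)
    (hη : 6 * η ≤ p0 / c)
    (hpr : ∀ l, ∀ l' < l, (((c * (c * (K * K)) + 1) * δ l +
      c * (c * (S l * (c * (2 * ε * G))) * C)) / ρ +
      ∑ i ∈ univ.filter (fun i => l' < i ∧ i < l), C / R i) * R l' ≤ δ l')
    (hprS : ∀ l, ∀ l' < l,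
      (c * (c * (R l * G) * G) * (1 + Gf) ^ c + 2 * S l) / ρ * R l' ≤ S l') :
    ∃ (l : Fin c) (nD : Ξ → Fin c → ℝ) (n : Λ' → Fin c → ℝ) (e0 e1 : Λ' → Fin k → ℝ),
      l ∉ Fz ∧ (∀ ξ, Ld l (nD ξ) ∧ (∀ g ∈ Fz, nD ξ g = 0) ∧ ∀ i, |nD ξ i| ≤ R l) ∧
      (∀ z, Ld l (n z) ∧ ∀ i, |n z i| ≤ c * (R l * G)) ∧
      (∀ z u, |e0 z u| ≤ Be c (R l) (S l) G Gf CE Φ s ∧
        |e1 z u| * 2 ^ X ≤ Be c (R l) (S l) G Gf CE Φ s) ∧
      (p0 / c - 6 * η) ^ 2 ≤ Pb p (fun ω =>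
        (∃ r : Fin c → ℝ, (∀ g, |r g| ≤ c * (c * (R l * G) * G) * (1 + Gf) ^ c) ∧
          ∀ i, |(nD (pt ω) ᵥ* M ω) i - n (L' ω) i + ∑ g ∈ Fz, r g * fL (L' ω) g i| ≤
            c * (ρ * G) + c * (c * (c * (R l * G) * G) * (1 + Gf) ^ c * ε)) ∧
        ∀ u, |∑ i, n (L' ω) i * E ω u i - e0 (L' ω) u - e1 (L' ω) u * τ ω| ≤
          c * (δ l * (c * (K * (K / s)))) + c * (S l * (c * (ε * CE) + ε))) := by
  classical
  have h0 := hp.nonneg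
  obtain ⟨ω₀, hω₀⟩ : ∃ ω, 0 < p ω := by
    by_contra h
    push Not at h
    have h1 := hp.sum_one
    rw [Finset.sum_eq_zero fun ω _ => le_antisymm (h ω) (h0 ω)] at h1
    exact zero_ne_one h1
  -- the body as a function of the exact point
  obtain ⟨g0, hg0⟩ : ∃ g0 : Ξ → Pt, ∀ ω, 0 < p ω → g0 (pt ω) = P ω := by
    refine ⟨fun ξ => if h : ∃ ω, 0 < p ω ∧ pt ω = ξ then P h.choose else P ω₀, fun ω hω => ?_⟩
    have h : ∃ ω', 0 < p ω' ∧ pt ω' = pt ω := ⟨ω, hω, rfl⟩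
    simp only [dif_pos h]
    exact hPP _ _ h.choose_spec.1 hω h.choose_spec.2
  obtain ⟨A', hA'⟩ : ∃ A' : Ξ → Matrix (Fin c) (Fin c) ℝ, A' = fun ξ => A (g0 ξ) := ⟨_, rfl⟩
  have hA'P : ∀ ω, 0 < p ω → A' (pt ω) = A (P ω) := fun ω hω => by
    rw [hA']
    simp only [hg0 ω hω]
  have hdet' : ∀ ξ, (A' ξ).det ≠ 0 := fun ξ => by
    rw [hA']
    exact hdet _
  have hC' : ∀ ξ i b, |A' ξ i b| ≤ C := fun ξ i b => by
    rw [hA']
    exact hC _ i b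
  -- the body of the line
  obtain ⟨rf, v0, v1, hv, hG1⟩ := body_line hp L (fun ω => A (P ω)) M τ E (CE := CE) (K := K)
    (η := η) (s := s) (X := X) hE hτ hs hs1 hK hCE htr hbd htm
  obtain ⟨G1, hG1d⟩ : ∃ G1 : Ω → Prop, G1 = fun ω =>
      (∀ i j, |((A (P (rf (L ω))))⁻¹ * (M (rf (L ω)) * (M ω)⁻¹ * A (P ω))) i j| ≤ K) ∧
      (∀ i j, |((A (P ω))⁻¹ * (M ω * (M (rf (L ω)))⁻¹ * A (P (rf (L ω))))) i j| ≤ K) ∧
      ∀ u b, |((A (P (rf (L ω))))⁻¹ *ᵥ (M (rf (L ω)) *ᵥ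
        xv3 τ E (v0 (L ω)) (v1 (L ω)) ω u)) b| ≤ K / s := ⟨_, rfl⟩
  have hG1' : 1 - 5 * η ≤ Pb p G1 := by
    rw [hG1d]
    exact hG1
  have hG1n : Pb p (fun ω => ¬ G1 ω) ≤ 5 * η := by
    have h1 : Pb p G1 + Pb p (fun ω => ¬ G1 ω) = 1 := by
      rw [← hp.sum_one]
      unfold Pb
      rw [← Finset.sum_add_distrib]
      refine Finset.sum_congr rfl fun ω _ => ?_
      by_cases h : G1 ω
      · rw [if_pos h, if_neg (not_not.2 h), add_zero]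
      · rw [if_neg h, if_pos h, zero_add]
    linarith
  -- the leading coordinate
  obtain ⟨l, hl⟩ := Pb_pigeon h0 (fun l ω => MnF R S δ Fz l (A' (pt ω)) (fD (pt ω)))
    (hcv.trans (pmono h0 fun ω hω h => exists_mnF (by rw [hA'P ω hω]; exact h))) hp0
  have hc1 : (1 : ℝ) ≤ c := by
    have : 0 < c := Fin.pos l
    exact_mod_cast this
  have hpos : 0 < Pb p (fun ω => MnF R S δ Fz l (A' (pt ω)) (fD (pt ω))) :=
    lt_of_lt_of_le (by positivity) hl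
  have hlF : l ∉ Fz := by
    by_contra hlF
    have : Pb p (fun ω => MnF R S δ Fz l (A' (pt ω)) (fD (pt ω))) = 0 := by
      unfold Pb
      refine Finset.sum_eq_zero fun ω _ => if_neg ?_
      rintro ⟨⟨m, hm⟩, -⟩
      exact hm.notin hlF
    rw [this] at hpos
    exact lt_irrefl _ hpos
  obtain ⟨Hv, hHv⟩ : ∃ Hv : Ω → Prop, Hv = fun ω =>
    MnF R S δ Fz l (A' (pt ω)) (fD (pt ω)) ∧ G1 ω ∧ Ev ω := ⟨_, rfl⟩
  have hHvP : p0 / c - 6 * η ≤ Pb p Hv := by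
    obtain ⟨B, hB⟩ : ∃ B : Fin 2 → Ω → Prop, B = ![fun ω => ¬ G1 ω, fun ω => ¬ Ev ω] := ⟨_, rfl⟩
    have b1 := pbad h0 univ (A := fun ω => MnF R S δ Fz l (A' (pt ω)) (fD (pt ω))) (G := Hv) B (by
      intro ω _ hw
      by_cases hh : ∃ i ∈ (univ : Finset (Fin 2)), B i ω
      · exact .inl hh
      · right
        push Not at hh
        have g0 := hh 0 (mem_univ _)
        have g1 := hh 1 (mem_univ _)
        rw [hB] at g0 g1
        rw [hHv]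
        exact ⟨hw, not_not.1 g0, not_not.1 g1⟩)
    rw [Fin.sum_univ_two] at b1
    have b2 : Pb p (B 0) ≤ 5 * η := by rw [hB]; exact hG1n
    have b3 : Pb p (B 1) ≤ η := by rw [hB]; exact hEv
    linarith
  obtain ⟨f, hfz, hfP⟩ := tup_fix hp L' 1 (fun w => Hv (w 0) ∧ Hv (w 1))
  have hPG : (p0 / c - 6 * η) ^ 2 ≤ Pb p (fun ω => Hv ω ∧ Hv (f (L' ω) 0)) := by
    have b1 := pair_sq hp L' Hv
    have b2 : (p0 / c - 6 * η) ^ 2 ≤ Pb p Hv ^ 2 := pow_le_pow_left₀ (by linarith) hHvP 2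
    exact b2.trans (b1.trans hfP)
  -- the functions of the exact line
  obtain ⟨ok, hok⟩ : ∃ ok : Λ' → Prop, ok = fun z => Hv (f z 0) := ⟨_, rfl⟩
  have hsm : ∀ z, ok z → ∃ a : Fin c → ℝ, (∀ g, |a g| ≤ S l) ∧ ∀ b,
      |∑ i, (nOfF R S δ Fz l (A' (pt (f z 0))) (fD (pt (f z 0))) i +
        cmb Fz a (fD (pt (f z 0))) i) * A' (pt (f z 0)) i b| ≤ δ l := by
    intro z hz
    rw [hok, hHv] at hz
    exact (nOfF_ad hz.1.1).sm
  choose! a ha has using hsm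
  obtain ⟨n, hn⟩ : ∃ n : Λ' → Fin c → ℝ, n = fun z => if ok z then
    nOfF R S δ Fz l (A' (pt (f z 0))) (fD (pt (f z 0))) ᵥ* M (f z 0) else Pi.single l 1 := ⟨_, rfl⟩
  obtain ⟨mh, hmh⟩ : ∃ mh : Λ' → Fin c → ℝ, mh = fun z i =>
    nOfF R S δ Fz l (A' (pt (f z 0))) (fD (pt (f z 0))) i +
      cmb Fz (a z) (fD (pt (f z 0))) i := ⟨_, rfl⟩
  obtain ⟨e0, he0⟩ : ∃ e0 : Λ' → Fin k → ℝ, e0 = fun z u => if ok z then
    ∑ i, (mh z ᵥ* M (f z 0)) i * v0 (L (f z 0)) u i - ∑ g ∈ Fz, a z g * φ0 z g u else 0 := ⟨_, rfl⟩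
  obtain ⟨e1, he1⟩ : ∃ e1 : Λ' → Fin k → ℝ, e1 = fun z u => if ok z then
    ∑ i, (mh z ᵥ* M (f z 0)) i * v1 (L (f z 0)) u i - ∑ g ∈ Fz, a z g * φ1 z g u else 0 := ⟨_, rfl⟩
  have hRl : 0 ≤ R l := zero_le_one.trans (hR l)
  have hG0 : 0 ≤ G := zero_le_one.trans (by assumption)
  have hRG : 0 ≤ R l * G := mul_nonneg hRl hG0
  have hnz : ∀ z, Ld l (n z) ∧ ∀ i, |n z i| ≤ c * (R l * G) := by
    intro z
    rw [hn]
    simp only
    split_ifs with h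
    · refine ⟨(hM _).ld nOfF_ld, fun i => ?_⟩
      exact sum_abs_le hRl (fun a => nOfF_le (hR l) a) (fun a => hG _ a i)
    · refine ⟨single_ld l, fun i => single_le l ?_ i⟩
      have : 1 ≤ R l * G := one_le_mul_of_one_le_of_one_le (hR l) (by assumption)
      nlinarith
  have hmhb : ∀ z, ok z → ∀ i, |(mh z ᵥ* M (f z 0)) i| ≤ c * ((R l + c * (S l * Gf)) * G) := by
    intro z hz i
    refine sum_abs_le (by have := hS l; positivity) (fun j => ?_) (fun j => hG _ j i)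
    rw [hmh]
    exact (abs_add_le _ _).trans (add_le_add (nOfF_le (hR l) j)
      (cmb_le (fun g _ => ha z hz g) (fun g hg => (hf _ g hg).2 j) (hS l) hGf0))
  have hBe : 0 ≤ Be c (R l) (S l) G Gf CE Φ s := by
    unfold Be
    have := hS l
    positivity
  refine ⟨l, fun ξ => nOfF R S δ Fz l (A' ξ) (fD ξ), n, e0, e1, hlF,
    fun ξ => ⟨nOfF_ld, nOfF_red hlF, nOfF_le (hR l)⟩, hnz, fun z u => ⟨?_, ?_⟩, ?_⟩
  · rw [he0]
    simp only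
    split_ifs with h
    · refine (abs_sub _ _).trans (add_le_add ?_ ?_)
      · exact sum_abs_le (by have := hS l; positivity) (hmhb z h) (fun i => (hv _ u i).1)
      · exact sum_abs_le' (hS l) hΦ (fun g _ => ha z h g) (fun g hg => (hφ z g hg u).1)
    · rw [abs_zero]
      exact hBe
  · rw [he1]
    simp only
    split_ifs with h
    · have hX : (0 : ℝ) ≤ 2 ^ X := by positivity
      have t1 : |∑ i, (mh z ᵥ* M (f z 0)) i * v1 (L (f z 0)) u i| * 2 ^ X ≤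
          c * (c * ((R l + c * (S l * Gf)) * G) * (3 * CE / s)) := by
        have t0 : (∑ i, (mh z ᵥ* M (f z 0)) i * v1 (L (f z 0)) u i) * 2 ^ X =
            ∑ i, (mh z ᵥ* M (f z 0)) i * (v1 (L (f z 0)) u i * 2 ^ X) := by
          rw [Finset.sum_mul]
          exact Finset.sum_congr rfl fun i _ => by ring
        rw [← abs_of_nonneg hX, ← abs_mul, t0]
        refine sum_abs_le (by have := hS l; positivity) (hmhb z h) (fun i => ?_)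
        rw [abs_mul, abs_of_nonneg hX]
        refine (hv _ u i).2.trans ?_
        rw [div_le_div_iff₀ hs hs]
        nlinarith
      have t2 : |∑ g ∈ Fz, a z g * φ1 z g u| * 2 ^ X ≤ c * (S l * Φ) := by
        have t0 : (∑ g ∈ Fz, a z g * φ1 z g u) * 2 ^ X =
            ∑ g ∈ Fz, a z g * (φ1 z g u * 2 ^ X) := by
          rw [Finset.sum_mul]
          exact Finset.sum_congr rfl fun i _ => by ring
        rw [← abs_of_nonneg hX, ← abs_mul, t0]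
        refine sum_abs_le' (hS l) hΦ (fun g _ => ha z h g) (fun g hg => ?_)
        rw [abs_mul, abs_of_nonneg hX]
        exact (hφ z g hg u).2
      have t3 := abs_sub (∑ i, (mh z ᵥ* M (f z 0)) i * v1 (L (f z 0)) u i)
        (∑ g ∈ Fz, a z g * φ1 z g u)
      unfold Be
      nlinarith
    · rw [abs_zero, zero_mul]
      exact hBe
  · refine hPG.trans (pmono h0 fun ω hω hg => ?_)
    obtain ⟨x0, x1⟩ := hg
    obtain ⟨q1, q2⟩ := hfz ω hω 0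
    obtain ⟨ω1, hω1⟩ : ∃ ω1, ω1 = f (L' ω) 0 := ⟨_, rfl⟩
    rw [← hω1] at x1 q1 q2
    have hokz : ok (L' ω) := by
      rw [hok]
      simp only
      rw [← hω1]
      exact x1
    have hLe : L ω1 = L ω := hLL _ _ q2 hω q1
    rw [hHv] at x0 x1
    obtain ⟨y0, z0, w0⟩ := x0
    obtain ⟨y1, z1, w1⟩ := x1
    rw [hG1d] at z0 z1
    obtain ⟨a1, -, a3⟩ := z0
    obtain ⟨-, b2, b3⟩ := z1
    rw [hLe] at b2 b3
    obtain ⟨ωr, hωr⟩ : ∃ ωr, ωr = rf (L ω) := ⟨_, rfl⟩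
    rw [← hωr] at a1 a3 b2 b3
    rw [← hA'P ω hω] at a1
    rw [← hA'P ω1 q2] at b2
    have en : n (L' ω) = nOfF R S δ Fz l (A' (pt ω1)) (fD (pt ω1)) ᵥ* M ω1 := by
      rw [hn]
      simp only [if_pos hokz]
      rw [← hω1]
    have f1L : ∀ g ∈ Fz, ∀ i, |(fD (pt ω1) g ᵥ* M ω1) i - fL (L' ω) g i| ≤ ε := by
      intro g hg i
      have := hfL _ q2 w1 g hg i
      rwa [q1] at this
    refine ⟨?_, fun u => ?_⟩
    · rw [en]
      exact two_ptsF (K := c * (K * K)) (hC' _) hR hρ (hdet' _) (hM _) (hM _) (hG _) (hG _)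
        (hGi _) hG0 (fun g hg => (hf _ g hg).1) (fun g hg => (hf _ g hg).2) hGf0 hε
        (hS l) (hfL ω hω w0) f1L (nOfF_ad y0.1) (nOfF_ad y1.1) y0.2 (hpr l) (hprS l)
        (tr_comp hK (hdet _) (hM ωr) b2 a1)
    · have em : mh (L' ω) = fun i => nOfF R S δ Fz l (A' (pt ω1)) (fD (pt ω1)) i +
          cmb Fz (a (L' ω)) (fD (pt ω1)) i := by
        rw [hmh]
        simp only
        rw [← hω1]
      have has' := has (L' ω) hokz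
      rw [← hω1] at has'
      have ha' := ha (L' ω) hokz
      have hδ : 0 ≤ δ l := (abs_nonneg _).trans (has' l)
      have ee0 : e0 (L' ω) u = ∑ i, (mh (L' ω) ᵥ* M ω1) i * v0 (L ω) u i -
          ∑ g ∈ Fz, a (L' ω) g * φ0 (L' ω) g u := by
        rw [he0]
        simp only [if_pos hokz]
        rw [← hω1, hLe]
      have ee1 : e1 (L' ω) u = ∑ i, (mh (L' ω) ᵥ* M ω1) i * v1 (L ω) u i -
          ∑ g ∈ Fz, a (L' ω) g * φ1 (L' ω) g u := by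
        rw [he1]
        simp only [if_pos hokz]
        rw [← hω1, hLe]
      have k1 : ∀ b, |((A' (pt ω1))⁻¹ *ᵥ (M ω1 *ᵥ xv3 τ E (v0 (L ω)) (v1 (L ω)) ω u)) b| ≤
          c * (K * (K / s)) := body_pt hK (hdet _) (hM ωr) b2 (a3 u)
      have k2 : |∑ i, (mh (L' ω) ᵥ* M ω1) i * xv3 τ E (v0 (L ω)) (v1 (L ω)) ω u i| ≤
          c * (δ l * (c * (K * (K / s)))) := by
        refine on_vec (hdet' (pt ω1)) hδ (fun b => ?_) k1
        rw [em]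
        exact has' b
      -- the known covectors
      have k3 : |∑ g ∈ Fz, a (L' ω) g * (∑ i, (fD (pt ω1) g ᵥ* M ω1) i * E ω u i -
          φ0 (L' ω) g u - φ1 (L' ω) g u * τ ω)| ≤ c * (S l * (c * (ε * CE) + ε)) := by
        refine sum_abs_le' (hS l) (by positivity) (fun g _ => ha' g) fun g hg => ?_
        have j1 := hfE ω hω w0 g hg u
        have j2 : |∑ i, ((fD (pt ω1) g ᵥ* M ω1) i - fL (L' ω) g i) * E ω u i| ≤ c * (ε * CE) :=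
          sum_abs_le hε (f1L g hg) (fun i => hE ω hω u i)
        have j3 : ∑ i, (fD (pt ω1) g ᵥ* M ω1) i * E ω u i - φ0 (L' ω) g u -
            φ1 (L' ω) g u * τ ω = ∑ i, ((fD (pt ω1) g ᵥ* M ω1) i - fL (L' ω) g i) * E ω u i +
            (∑ i, fL (L' ω) g i * E ω u i - φ0 (L' ω) g u - φ1 (L' ω) g u * τ ω) := by
          have : ∑ i, (fD (pt ω1) g ᵥ* M ω1) i * E ω u i =
              ∑ i, ((fD (pt ω1) g ᵥ* M ω1) i - fL (L' ω) g i) * E ω u i +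
              ∑ i, fL (L' ω) g i * E ω u i := by
            rw [← Finset.sum_add_distrib]
            exact Finset.sum_congr rfl fun i _ => by ring
          rw [this]
          ring
        rw [j3]
        exact (abs_add_le _ _).trans (add_le_add j2 j1)
      have k4 : ∀ i, (mh (L' ω) ᵥ* M ω1) i = n (L' ω) i +
          ∑ g ∈ Fz, a (L' ω) g * (fD (pt ω1) g ᵥ* M ω1) i := by
        intro i
        have e4 : mh (L' ω) = nOfF R S δ Fz l (A' (pt ω1)) (fD (pt ω1)) +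
            fun i => cmb Fz (a (L' ω)) (fD (pt ω1)) i := by
          rw [em]
          rfl
        rw [e4, add_vecMul, Pi.add_apply, vecMul_cmb, ← en]
      have k5 : ∑ i, n (L' ω) i * E ω u i - e0 (L' ω) u - e1 (L' ω) u * τ ω =
          ∑ i, (mh (L' ω) ᵥ* M ω1) i * xv3 τ E (v0 (L ω)) (v1 (L ω)) ω u i -
          ∑ g ∈ Fz, a (L' ω) g * (∑ i, (fD (pt ω1) g ᵥ* M ω1) i * E ω u i -
            φ0 (L' ω) g u - φ1 (L' ω) g u * τ ω) := by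
        have s1 : ∑ i, (mh (L' ω) ᵥ* M ω1) i * xv3 τ E (v0 (L ω)) (v1 (L ω)) ω u i =
            ∑ i, (mh (L' ω) ᵥ* M ω1) i * E ω u i - ∑ i, (mh (L' ω) ᵥ* M ω1) i * v0 (L ω) u i -
              (∑ i, (mh (L' ω) ᵥ* M ω1) i * v1 (L ω) u i) * τ ω := by
          rw [Finset.sum_mul, ← Finset.sum_sub_distrib, ← Finset.sum_sub_distrib]
          refine Finset.sum_congr rfl fun i _ => ?_
          unfold xv3
          ring
        have s2 : ∑ i, (mh (L' ω) ᵥ* M ω1) i * E ω u i = ∑ i, n (L' ω) i * E ω u i +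
            ∑ g ∈ Fz, a (L' ω) g * ∑ i, (fD (pt ω1) g ᵥ* M ω1) i * E ω u i := by
          have s3 : ∑ g ∈ Fz, a (L' ω) g * ∑ i, (fD (pt ω1) g ᵥ* M ω1) i * E ω u i =
              ∑ i, (∑ g ∈ Fz, a (L' ω) g * (fD (pt ω1) g ᵥ* M ω1) i) * E ω u i := by
            simp only [Finset.mul_sum, Finset.sum_mul]
            rw [Finset.sum_comm]
            exact Finset.sum_congr rfl fun i _ => Finset.sum_congr rfl fun g _ => by ring
          rw [s3, ← Finset.sum_add_distrib]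
          refine Finset.sum_congr rfl fun i _ => ?_
          rw [k4 i]
          ring
        have s4 : ∑ g ∈ Fz, a (L' ω) g * (∑ i, (fD (pt ω1) g ᵥ* M ω1) i * E ω u i -
            φ0 (L' ω) g u - φ1 (L' ω) g u * τ ω) =
            ∑ g ∈ Fz, a (L' ω) g * ∑ i, (fD (pt ω1) g ᵥ* M ω1) i * E ω u i -
            ∑ g ∈ Fz, a (L' ω) g * φ0 (L' ω) g u -
            (∑ g ∈ Fz, a (L' ω) g * φ1 (L' ω) g u) * τ ω := by
          rw [Finset.sum_mul, ← Finset.sum_sub_distrib, ← Finset.sum_sub_distrib]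
          exact Finset.sum_congr rfl fun g _ => by ring
        rw [s4, s1, s2, ee0, ee1]
        ring
      rw [k5]
      exact (abs_sub _ _).trans (add_le_add k2 k3)

end two

end Pool.LBL
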