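import Pool.Agent.H36.LBL.CovX

/-!
# The covector of a body, with all the numbers chosen (K_POT)

`cov_par`: as `cov_two`, the sizes `R`, `S`, `δ`, `ρ` are chosen. All the constants are at most
`2 ^ (κ X)`, the covector of the body has entries at most `2 ^ (b₀ X)` and is `2 ^ (-x₁ X)` on the
body; the covector of the theorem has entries at most `2 ^ (w₀ X)` and errors `2 ^ (-x₀ X)`.
-/

set_option autoImplicit false

namespace Pool.LBL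

open Finset Real Matrix
open Pool.Agent.H49.Ent Pool.Agent.H32.Dense Pool.STK Pool.SLO
open Pool.BFL (Pb)
open Pool.QT64 (d3)

variable {c k : ℕ}

theorem AdF.mono {A : Matrix (Fin c) (Fin c) ℝ} {Fz : Finset (Fin c)} {f : Fin c → Fin c → ℝ}
    {l : Fin c} {R R' S S' δ δ' : ℝ} {m : Fin c → ℝ} (h : AdF A Fz f l R S δ m) (hR : R ≤ R')
    (hS : S ≤ S') (hδ : δ ≤ δ') : AdF A Fz f l R' S' δ' m :=
  ⟨h.one, h.zero, h.red, fun k => (h.le k).trans hR, by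
    obtain ⟨a, a1, a2⟩ := h.sm
    exact ⟨a, fun g => (a1 g).trans hS, fun b => (a2 b).trans hδ⟩⟩

/-! ### The sizes -/

/-- The sizes in powers of `U`. -/
structure Szs (c : ℕ) (T U : ℝ) : Prop where
  T2 : 2 ≤ T
  cT : (c : ℝ) ≤ T
  TU : T ^ (c + 12) * T ^ (c + 12) ≤ U

section

variable {T U : ℝ}

theorem Szs.T1 (h : Szs c T U) : 1 ≤ T := by linarith [h.T2]

theorem Szs.TN (h : Szs c T U) {N : ℕ} (hN : N ≤ c + 12) : T ^ N * T ^ (c + 12) ≤ U :=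
  (mul_le_mul_of_nonneg_right (pow_le_pow_right₀ h.T1 hN)
    (by have := h.T1; positivity)).trans h.TU

theorem Szs.TNU (h : Szs c T U) {N : ℕ} (hN : N ≤ c + 12) : T ^ N ≤ U := by
  have h1 := h.TN hN
  have h2 : (1 : ℝ) ≤ T ^ (c + 12) := one_le_pow₀ h.T1
  have h3 : (0 : ℝ) ≤ T ^ N := by have := h.T1; positivity
  nlinarith

theorem Szs.U1 (h : Szs c T U) : 1 ≤ U := by
  have h1 := h.TNU (N := 0) (by omega)
  simpa using h1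

theorem Szs.TNU2 (h : Szs c T U) {N : ℕ} (hN : N ≤ c + 11) : 2 * T ^ N ≤ U := by
  have h1 := h.TNU (N := N + 1) (by omega)
  have h2 : (0 : ℝ) ≤ T ^ N := by have := h.T1; positivity
  rw [pow_succ] at h1
  nlinarith [h.T2]

/-- The numbers of the leading coordinate `l`: the last coordinate `n₀` has the size `W`. -/
noncomputable def Rz (n₀ : Fin c) (U W : ℝ) (l : Fin c) : ℝ :=
  if l = n₀ then W else U ^ 4 ^ (l : ℕ)

/-- The numbers of the leading coordinate `l`. -/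
noncomputable def dz (U : ℝ) (l : Fin c) : ℝ := (U ^ (2 * 4 ^ (l : ℕ)))⁻¹

/-- The numbers of the leading coordinate `l`. -/
noncomputable def Sz (U W : ℝ) (l : Fin c) : ℝ := W * U ^ (2 * 4 ^ c - 4 ^ (l : ℕ))

theorem Rz_lt {n₀ : Fin c} (hn₀ : ∀ i, i ≤ n₀) {U W : ℝ} {l l' : Fin c} (h : l' < l) :
    Rz n₀ U W l' = U ^ 4 ^ (l' : ℕ) := by
  unfold Rz
  rw [if_neg]
  rintro rfl
  exact absurd (hn₀ l) (not_le.2 h)

theorem Rz_le {n₀ : Fin c} {U W : ℝ} (hU : 1 ≤ U) (hW : 1 ≤ W) (l : Fin c) :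
    Rz n₀ U W l ≤ W * U ^ 4 ^ (l : ℕ) := by
  have h1 : (1 : ℝ) ≤ U ^ 4 ^ (l : ℕ) := one_le_pow₀ hU
  unfold Rz
  split_ifs
  · nlinarith
  · nlinarith

theorem one_le_Rz {n₀ : Fin c} {U W : ℝ} (hU : 1 ≤ U) (hW : 1 ≤ W) (l : Fin c) :
    1 ≤ Rz n₀ U W l := by
  unfold Rz
  split_ifs
  · exact hW
  · exact one_le_pow₀ hU

theorem Sz_nonneg {U W : ℝ} (hU : 1 ≤ U) (hW : 1 ≤ W) (l : Fin c) : 0 ≤ Sz U W l := by
  unfold Sz
  positivity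

theorem p4_lt {l' l : Fin c} (h : l' < l) : 4 * 4 ^ (l' : ℕ) ≤ 4 ^ (l : ℕ) := by
  have h1 : (l' : ℕ) + 1 ≤ l := h
  calc 4 * 4 ^ (l' : ℕ) = 4 ^ ((l' : ℕ) + 1) := by ring
    _ ≤ 4 ^ (l : ℕ) := Nat.pow_le_pow_right (by norm_num) h1

theorem p4_c (l : Fin c) : 4 * 4 ^ (l : ℕ) ≤ 4 ^ c := by
  have h1 : (l : ℕ) + 1 ≤ c := l.2
  calc 4 * 4 ^ (l : ℕ) = 4 ^ ((l : ℕ) + 1) := by ring
    _ ≤ 4 ^ c := Nat.pow_le_pow_right (by norm_num) h1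

theorem Szs.pr (h : Szs c T U) {n₀ : Fin c} (hn₀ : ∀ i, i ≤ n₀) {W : ℝ} (hW : 1 ≤ W)
    {C G K ε : ℝ} (hC0 : 0 ≤ C) (hG0 : 0 ≤ G) (hK0 : 0 ≤ K)
    (hε0 : 0 ≤ ε) (hC : C ≤ T) (hG : G ≤ T) (hK : K ≤ T) (hε : ε ≤ (W * U ^ (4 * 4 ^ c))⁻¹)
    (l l' : Fin c) (hl : l' < l) :
    (((c * (c * (K * K)) + 1) * dz U l + c * (c * (Sz U W l * (c * (2 * ε * G))) * C)) / U⁻¹ +
      ∑ i ∈ univ.filter (fun i => l' < i ∧ i < l), C / Rz n₀ U W i) * Rz n₀ U W l' ≤ dz U l' := by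
  have hT2 := h.T2
  have hT1 := h.T1
  have hU1 := h.U1
  have hcT := h.cT
  have hT0 : 0 ≤ T := by linarith
  have hU0 : 0 < U := by linarith
  have hc0 : (0 : ℝ) ≤ c := Nat.cast_nonneg c
  obtain ⟨a, ha⟩ : ∃ a, a = 4 ^ (l' : ℕ) := ⟨_, rfl⟩
  obtain ⟨b, hb⟩ : ∃ b, b = 4 ^ (l : ℕ) := ⟨_, rfl⟩
  have ha1 : 1 ≤ a := by rw [ha]; exact Nat.one_le_pow _ _ (by norm_num)
  have hab : 4 * a ≤ b := by rw [ha, hb]; exact p4_lt hl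
  have hbD : 4 * b ≤ 4 ^ c := by rw [hb]; exact p4_c l
  obtain ⟨V, hV⟩ : ∃ V, V = U ^ a := ⟨_, rfl⟩
  have hVU : U ≤ V := by
    rw [hV]
    exact le_self_pow₀ hU1 (by omega)
  have hV0 : 0 < V := by linarith
  have eR : Rz n₀ U W l' = V := by rw [Rz_lt hn₀ hl, ← ha, hV]
  have ed : dz U l' = (V ^ 2)⁻¹ := by
    unfold dz
    rw [← ha, hV, ← pow_mul, mul_comm 2 a]
  have edl : dz U l ≤ (V ^ 8)⁻¹ := by
    unfold dz
    rw [← hb, hV, ← pow_mul]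
    exact inv_anti₀ (by positivity) (pow_le_pow_right₀ hU1 (by omega))
  have hdl0 : 0 ≤ dz U l := by unfold dz; positivity
  -- the first terms
  have k1 : c * (c * (K * K)) + 1 ≤ T ^ 5 := by
    have j1 : c * (c * (K * K)) ≤ T * (T * (T * T)) := by gcongr
    have j2 : (1 : ℝ) ≤ T ^ 4 := one_le_pow₀ hT1
    nlinarith
  have k2 : c * (c * (Sz U W l * (c * (2 * ε * G))) * C) ≤ T ^ 6 * (V ^ 8)⁻¹ := by
    have j1 : Sz U W l * ε ≤ (V ^ 8)⁻¹ := by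
      have j2 : Sz U W l * ε ≤ W * U ^ (2 * 4 ^ c - b) * (W * U ^ (4 * 4 ^ c))⁻¹ := by
        unfold Sz
        rw [← hb]
        exact mul_le_mul_of_nonneg_left hε (by positivity)
      refine j2.trans ?_
      rw [← div_eq_mul_inv, mul_div_mul_left _ _ (by linarith : W ≠ 0), div_le_iff₀ (by positivity),
        hV, ← pow_mul]
      have j3 : U ^ (2 * 4 ^ c - b) * U ^ (a * 8) ≤ U ^ (4 * 4 ^ c) := by
        rw [← pow_add]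
        exact pow_le_pow_right₀ hU1 (by omega)
      rw [inv_mul_eq_div, le_div_iff₀ (by positivity)]
      exact j3
    have hS0 : 0 ≤ Sz U W l := Sz_nonneg hU1 hW l
    have j4 : c * (c * (Sz U W l * (c * (2 * ε * G))) * C) =
        (c * c * c * 2 * G * C) * (Sz U W l * ε) := by ring
    rw [j4]
    have j5 : (c : ℝ) * c * c * 2 * G * C ≤ T * T * T * T * T * T := by gcongr
    calc (c : ℝ) * c * c * 2 * G * C * (Sz U W l * ε) ≤ (T * T * T * T * T * T) * (V ^ 8)⁻¹ :=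
          mul_le_mul j5 j1 (by positivity) (by positivity)
      _ = T ^ 6 * (V ^ 8)⁻¹ := by ring
  have k3 : (c * (c * (K * K)) + 1) * dz U l + c * (c * (Sz U W l * (c * (2 * ε * G))) * C) ≤
      T ^ 7 * (V ^ 8)⁻¹ := by
    have j1 : (c * (c * (K * K)) + 1) * dz U l ≤ T ^ 5 * (V ^ 8)⁻¹ :=
      mul_le_mul k1 edl hdl0 (by positivity)
    have j2 : (0 : ℝ) ≤ (V ^ 8)⁻¹ := by positivity
    have j3 : T ^ 5 + T ^ 6 ≤ T ^ 7 := by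
      have j4 : (0 : ℝ) ≤ T ^ 5 := by positivity
      have j5 : T ^ 5 + T ^ 6 = T ^ 5 * (1 + T) := by ring
      have j6 : T ^ 7 = T ^ 5 * (T * T) := by ring
      rw [j5, j6]
      exact mul_le_mul_of_nonneg_left (by nlinarith) j4
    nlinarith
  have k4 : ∑ i ∈ univ.filter (fun i => l' < i ∧ i < l), C / Rz n₀ U W i ≤ T ^ 2 * (V ^ 4)⁻¹ := by
    have j1 : ∀ i ∈ univ.filter (fun i => l' < i ∧ i < l), C / Rz n₀ U W i ≤ T * (V ^ 4)⁻¹ := by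
      intro i hi
      rw [mem_filter] at hi
      rw [div_eq_mul_inv]
      have hR1 := one_le_Rz (n₀ := n₀) hU1 hW i
      refine mul_le_mul hC ?_ (inv_nonneg.2 (by linarith)) hT0
      rw [Rz_lt hn₀ hi.2.2, hV, ← pow_mul]
      refine inv_anti₀ (by positivity) (pow_le_pow_right₀ hU1 ?_)
      have := p4_lt hi.2.1
      omega
    refine (Finset.sum_le_sum j1).trans ?_
    rw [Finset.sum_const, nsmul_eq_mul]
    have j2 : ((univ.filter (fun i => l' < i ∧ i < l)).card : ℝ) ≤ T := (card_le_c _).trans hcT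
    calc ((univ.filter (fun i => l' < i ∧ i < l)).card : ℝ) * (T * (V ^ 4)⁻¹) ≤
          T * (T * (V ^ 4)⁻¹) := mul_le_mul_of_nonneg_right j2 (by positivity)
      _ = T ^ 2 * (V ^ 4)⁻¹ := by ring
  have k5 : 2 * T ^ 7 ≤ U := h.TNU2 (by omega)
  have k6 : 2 * T ^ 2 ≤ U := h.TNU2 (by omega)
  rw [div_inv_eq_mul, eR, ed]
  have k7 : ((c * (c * (K * K)) + 1) * dz U l + c * (c * (Sz U W l * (c * (2 * ε * G))) * C)) * U +
      ∑ i ∈ univ.filter (fun i => l' < i ∧ i < l), C / Rz n₀ U W i ≤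
      T ^ 7 * (V ^ 8)⁻¹ * U + T ^ 2 * (V ^ 4)⁻¹ :=
    add_le_add (mul_le_mul_of_nonneg_right k3 hU0.le) k4
  refine (mul_le_mul_of_nonneg_right k7 hV0.le).trans ?_
  rw [le_inv_comm₀ (by positivity) (by positivity)]
  have k8 : (T ^ 7 * (V ^ 8)⁻¹ * U + T ^ 2 * (V ^ 4)⁻¹) * V * V ^ 2 ≤ 1 := by
    have j1 : (T ^ 7 * (V ^ 8)⁻¹ * U + T ^ 2 * (V ^ 4)⁻¹) * V * V ^ 2 =
        (T ^ 7 * U + T ^ 2 * V ^ 4) / V ^ 5 := by
      field_simp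
    rw [j1, div_le_one (by positivity)]
    have hV1 : 1 ≤ V := by linarith
    have j2 : T ^ 7 * U ≤ V ^ 5 / 2 := by
      have j3 : T ^ 7 * U ≤ (V / 2) * V :=
        mul_le_mul (by linarith) hVU hU0.le (by linarith)
      have j4 : V ^ 2 ≤ V ^ 5 := pow_le_pow_right₀ hV1 (by norm_num)
      nlinarith
    have j5 : T ^ 2 * V ^ 4 ≤ V ^ 5 / 2 := by
      have j6 : T ^ 2 ≤ V / 2 := by linarith
      have j7 : (0 : ℝ) ≤ V ^ 4 := by positivity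
      calc T ^ 2 * V ^ 4 ≤ V / 2 * V ^ 4 := mul_le_mul_of_nonneg_right j6 j7
        _ = V ^ 5 / 2 := by ring
    linarith
  rw [← one_div, le_div_iff₀ (by positivity)]
  calc V ^ 2 * ((T ^ 7 * (V ^ 8)⁻¹ * U + T ^ 2 * (V ^ 4)⁻¹) * V) =
        (T ^ 7 * (V ^ 8)⁻¹ * U + T ^ 2 * (V ^ 4)⁻¹) * V * V ^ 2 := by ring
    _ ≤ 1 := k8

theorem Szs.cG (h : Szs c T U) {G Gf : ℝ} (hG0 : 0 ≤ G) (hG : G ≤ T) (hGf0 : 0 ≤ Gf)
    (hGf : 1 + Gf ≤ T) {R : ℝ} (hR : 0 ≤ R) :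
    c * (c * (R * G) * G) * (1 + Gf) ^ c ≤ T ^ (c + 4) * R := by
  have hT1 := h.T1
  have hT0 : 0 ≤ T := by linarith
  have hcT := h.cT
  have hc0 : (0 : ℝ) ≤ c := Nat.cast_nonneg c
  have j1 : (1 + Gf) ^ c ≤ T ^ c := pow_le_pow_left₀ (by linarith) hGf c
  have j2 : c * (c * (R * G) * G) ≤ T ^ 4 * R := by
    have j3 : c * (c * (R * G) * G) = (c * c * G * G) * R := by ring
    have j4 : (c : ℝ) * c * G * G ≤ T * T * T * T := by gcongr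
    rw [j3]
    calc (c : ℝ) * c * G * G * R ≤ T * T * T * T * R := mul_le_mul_of_nonneg_right j4 hR
      _ = T ^ 4 * R := by ring
  calc c * (c * (R * G) * G) * (1 + Gf) ^ c ≤ T ^ 4 * R * T ^ c :=
        mul_le_mul j2 j1 (by positivity) (by positivity)
    _ = T ^ (c + 4) * R := by ring

theorem Szs.prS (h : Szs c T U) {n₀ : Fin c} (hn₀ : ∀ i, i ≤ n₀) {W : ℝ} (hW : 1 ≤ W) {G Gf : ℝ} (hG0 : 0 ≤ G) (hG : G ≤ T) (hGf0 : 0 ≤ Gf)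
    (hGf : 1 + Gf ≤ T) (l l' : Fin c) (hl : l' < l) :
    (c * (c * (Rz n₀ U W l * G) * G) * (1 + Gf) ^ c + 2 * Sz U W l) / U⁻¹ * Rz n₀ U W l' ≤ Sz U W l' := by
  have hT2 := h.T2
  have hT1 := h.T1
  have hU1 := h.U1
  have hU0 : 0 < U := by linarith
  obtain ⟨a, ha⟩ : ∃ a, a = 4 ^ (l' : ℕ) := ⟨_, rfl⟩
  obtain ⟨b, hb⟩ : ∃ b, b = 4 ^ (l : ℕ) := ⟨_, rfl⟩
  have ha1 : 1 ≤ a := by rw [ha]; exact Nat.one_le_pow _ _ (by norm_num)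
  have hab : 4 * a ≤ b := by rw [ha, hb]; exact p4_lt hl
  have hbD : 4 * b ≤ 4 ^ c := by rw [hb]; exact p4_c l
  have hR0 : 0 ≤ Rz n₀ U W l := by linarith [one_le_Rz (n₀ := n₀) hU1 hW l]
  have k1 := h.cG hG0 hG hGf0 hGf hR0
  have k2 : T ^ (c + 4) * Rz n₀ U W l ≤ Sz U W l := by
    have j1 : T ^ (c + 4) ≤ U := h.TNU (by omega)
    have j2 : Rz n₀ U W l ≤ W * U ^ b := by rw [hb]; exact Rz_le hU1 hW l
    unfold Sz
    rw [← hb]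
    calc T ^ (c + 4) * Rz n₀ U W l ≤ U * (W * U ^ b) :=
          mul_le_mul j1 j2 hR0 hU0.le
      _ = W * U ^ (b + 1) := by ring
      _ ≤ W * U ^ (2 * 4 ^ c - b) :=
          mul_le_mul_of_nonneg_left (pow_le_pow_right₀ hU1 (by omega)) (by linarith)
  have hS0 : 0 ≤ Sz U W l := Sz_nonneg hU1 hW l
  have k3 : c * (c * (Rz n₀ U W l * G) * G) * (1 + Gf) ^ c + 2 * Sz U W l ≤ T ^ 2 * Sz U W l := by
    have j1 : (3 : ℝ) ≤ T ^ 2 := by nlinarith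
    have j2 := mul_le_mul_of_nonneg_right j1 hS0
    linarith
  have k4 : T ^ 2 ≤ U := h.TNU (by omega)
  rw [div_inv_eq_mul]
  have hRl' : 0 ≤ Rz n₀ U W l' := by linarith [one_le_Rz (n₀ := n₀) hU1 hW l']
  calc (c * (c * (Rz n₀ U W l * G) * G) * (1 + Gf) ^ c + 2 * Sz U W l) * U * Rz n₀ U W l' ≤
        U * Sz U W l * U * Rz n₀ U W l' := by
        have j1 : c * (c * (Rz n₀ U W l * G) * G) * (1 + Gf) ^ c + 2 * Sz U W l ≤ U * Sz U W l :=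
          k3.trans (mul_le_mul_of_nonneg_right k4 hS0)
        exact mul_le_mul_of_nonneg_right (mul_le_mul_of_nonneg_right j1 hU0.le) hRl'
    _ = W * U ^ (2 * 4 ^ c - b + 2 + a) := by
        rw [Rz_lt hn₀ hl]
        unfold Sz
        rw [← ha, ← hb, pow_add, pow_add]
        ring
    _ ≤ Sz U W l' := by
        unfold Sz
        rw [← ha]
        exact mul_le_mul_of_nonneg_left (pow_le_pow_right₀ hU1 (by omega)) (by linarith)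

/-! ### The theorem in powers of `U` -/

theorem Szs.e1 (h : Szs c T U) {n₀ : Fin c} {W : ℝ} (hW : 1 ≤ W) {G Gf ε : ℝ} (hG0 : 0 ≤ G)
    (hG : G ≤ T) (hGf0 : 0 ≤ Gf)
    (hGf : 1 + Gf ≤ T) (hε0 : 0 ≤ ε) (hε : ε ≤ (W * U ^ (4 * 4 ^ c))⁻¹) (l : Fin c) :
    c * (U⁻¹ * G) + c * (c * (c * (Rz n₀ U W l * G) * G) * (1 + Gf) ^ c * ε) ≤ (T ^ (c + 12))⁻¹ := by
  have hT2 := h.T2
  have hT1 := h.T1
  have hU1 := h.U1
  have hU0 : 0 < U := by linarith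
  have hcT := h.cT
  have hT0 : 0 ≤ T := by linarith
  have hc0 : (0 : ℝ) ≤ c := Nat.cast_nonneg c
  have hR0 : 0 ≤ Rz n₀ U W l := by linarith [one_le_Rz (n₀ := n₀) hU1 hW l]
  have k1 := h.cG hG0 hG hGf0 hGf hR0
  have hb := p4_c l
  have h4 : 1 ≤ 4 ^ c := Nat.one_le_pow _ _ (by norm_num)
  have k2 : Rz n₀ U W l * ε ≤ (U ^ 2)⁻¹ := by
    have j1 : Rz n₀ U W l * ε ≤ W * U ^ 4 ^ (l : ℕ) * (W * U ^ (4 * 4 ^ c))⁻¹ :=
      mul_le_mul (Rz_le hU1 hW l) hε hε0 (by positivity)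
    refine j1.trans ?_
    rw [← div_eq_mul_inv, mul_div_mul_left _ _ (by linarith : W ≠ 0), div_le_iff₀ (by positivity),
      inv_mul_eq_div, le_div_iff₀ (by positivity), ← pow_add]
    exact pow_le_pow_right₀ hU1 (by omega)
  have k3 : c * (U⁻¹ * G) ≤ T ^ 2 * U⁻¹ := by
    calc (c : ℝ) * (U⁻¹ * G) ≤ T * (U⁻¹ * T) := by gcongr
      _ = T ^ 2 * U⁻¹ := by ring
  have k4 : c * (c * (c * (Rz n₀ U W l * G) * G) * (1 + Gf) ^ c * ε) ≤ T ^ 2 * U⁻¹ := by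
    have j1 : c * (c * (c * (Rz n₀ U W l * G) * G) * (1 + Gf) ^ c * ε) ≤
        T * (T ^ (c + 4) * Rz n₀ U W l * ε) := by
      gcongr
    have j2 : T ^ (c + 5) ≤ U := h.TNU (by omega)
    calc c * (c * (c * (Rz n₀ U W l * G) * G) * (1 + Gf) ^ c * ε) ≤
          T * (T ^ (c + 4) * Rz n₀ U W l * ε) := j1
      _ = T ^ (c + 5) * (Rz n₀ U W l * ε) := by ring
      _ ≤ U * (U ^ 2)⁻¹ := mul_le_mul j2 k2 (by positivity) hU0.le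
      _ = 1 * U⁻¹ := by field_simp
      _ ≤ T ^ 2 * U⁻¹ := mul_le_mul_of_nonneg_right (one_le_pow₀ hT1) (by positivity)
  have k5 : T ^ 3 * T ^ (c + 12) ≤ U := h.TN (by omega)
  have k6 : T ^ 3 * U⁻¹ ≤ (T ^ (c + 12))⁻¹ := by
    rw [← div_eq_mul_inv, div_le_iff₀ hU0, inv_mul_eq_div, le_div_iff₀ (by positivity)]
    exact k5
  refine le_trans ?_ k6
  have k7 : (0 : ℝ) ≤ T ^ 2 * U⁻¹ := by positivity
  have k8 : T ^ 3 * U⁻¹ = T * (T ^ 2 * U⁻¹) := by ring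
  rw [k8]
  nlinarith

theorem Szs.e2 (h : Szs c T U) {W : ℝ} (hW : 1 ≤ W) {CE K s ε : ℝ} (hCE0 : 0 ≤ CE)
    (hCE : CE ≤ T) (hK0 : 0 ≤ K)
    (hK : K ≤ T) (hs : 0 < s) (hsT : 1 / s ≤ T) (hε0 : 0 ≤ ε) (hε : ε ≤ (W * U ^ (4 * 4 ^ c))⁻¹)
    (l : Fin c) :
    c * (dz U l * (c * (K * (K / s)))) + c * (Sz U W l * (c * (ε * CE) + ε)) ≤
      (T ^ (c + 12))⁻¹ := by
  have hT2 := h.T2
  have hT1 := h.T1
  have hU1 := h.U1
  have hU0 : 0 < U := by linarith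
  have hcT := h.cT
  have hT0 : 0 ≤ T := by linarith
  have hc0 : (0 : ℝ) ≤ c := Nat.cast_nonneg c
  have hb := p4_c l
  have h4 : 1 ≤ 4 ^ (l : ℕ) := Nat.one_le_pow _ _ (by norm_num)
  have hs0 : 0 ≤ 1 / s := by positivity
  have k1 : dz U l ≤ (U ^ 2)⁻¹ := by
    unfold dz
    exact inv_anti₀ (by positivity) (pow_le_pow_right₀ hU1 (by omega))
  have hd0 : 0 ≤ dz U l := by unfold dz; positivity
  have hS0 : 0 ≤ Sz U W l := Sz_nonneg hU1 hW l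
  have k2 : Sz U W l * ε ≤ (U ^ 2)⁻¹ := by
    have j1 : Sz U W l * ε ≤ W * U ^ (2 * 4 ^ c - 4 ^ (l : ℕ)) * (W * U ^ (4 * 4 ^ c))⁻¹ := by
      unfold Sz
      exact mul_le_mul_of_nonneg_left hε (by positivity)
    refine j1.trans ?_
    rw [← div_eq_mul_inv, mul_div_mul_left _ _ (by linarith : W ≠ 0), div_le_iff₀ (by positivity),
      inv_mul_eq_div, le_div_iff₀ (by positivity), ← pow_add]
    exact pow_le_pow_right₀ hU1 (by omega)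
  have k3 : c * (dz U l * (c * (K * (K / s)))) ≤ T ^ 5 * (U ^ 2)⁻¹ := by
    have j1 : c * (dz U l * (c * (K * (K / s)))) = (c * c * K * K * (1 / s)) * dz U l := by ring
    have j2 : (c : ℝ) * c * K * K * (1 / s) ≤ T * T * T * T * T := by gcongr
    rw [j1]
    calc (c : ℝ) * c * K * K * (1 / s) * dz U l ≤ (T * T * T * T * T) * (U ^ 2)⁻¹ :=
          mul_le_mul j2 k1 hd0 (by positivity)
      _ = T ^ 5 * (U ^ 2)⁻¹ := by ring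
  have k4 : c * (Sz U W l * (c * (ε * CE) + ε)) ≤ T ^ 5 * (U ^ 2)⁻¹ := by
    have j1 : c * (Sz U W l * (c * (ε * CE) + ε)) = (c * (c * CE + 1)) * (Sz U W l * ε) := by ring
    have j2 : (c : ℝ) * (c * CE + 1) ≤ T ^ 5 := by
      have j3 : (c : ℝ) * (c * CE + 1) ≤ T * (T * T + 1) := by gcongr
      have j4 : T * (T * T + 1) ≤ T * (T * T * T) := by
        have : T * T + 1 ≤ T * T * T := by nlinarith
        exact mul_le_mul_of_nonneg_left this hT0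
      have j5 : T * (T * T * T) ≤ T ^ 5 := by
        have : T * (T * T * T) = T ^ 4 := by ring
        rw [this]
        exact pow_le_pow_right₀ hT1 (by norm_num)
      linarith
    rw [j1]
    exact mul_le_mul j2 k2 (by positivity) (by positivity)
  have k5 : 2 * T ^ 5 ≤ U := h.TNU2 (by omega)
  have k6 : T ^ (c + 12) ≤ U := h.TNU le_rfl
  calc c * (dz U l * (c * (K * (K / s)))) + c * (Sz U W l * (c * (ε * CE) + ε)) ≤
        T ^ 5 * (U ^ 2)⁻¹ + T ^ 5 * (U ^ 2)⁻¹ := add_le_add k3 k4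
    _ = 2 * T ^ 5 * (U ^ 2)⁻¹ := by ring
    _ ≤ U * (U ^ 2)⁻¹ := mul_le_mul_of_nonneg_right k5 (by positivity)
    _ = U⁻¹ := by field_simp
    _ ≤ (T ^ (c + 12))⁻¹ := inv_anti₀ (by positivity) k6

theorem Szs.be (h : Szs c T U) {n₀ : Fin c} {W : ℝ} (hW : 1 ≤ W) {G Gf CE Φ s : ℝ} (hG0 : 0 ≤ G) (hG : G ≤ T) (hGf0 : 0 ≤ Gf)
    (hGf : 1 + Gf ≤ T) (hCE0 : 0 ≤ CE) (hCE : CE ≤ T) (hΦ0 : 0 ≤ Φ) (hΦ : Φ ≤ T) (hs : 0 < s)
    (hsT : 1 / s ≤ T) (l : Fin c) :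
    Be c (Rz n₀ U W l) (Sz U W l) G Gf CE Φ s ≤ W * U ^ (4 * 4 ^ c) := by
  have hT2 := h.T2
  have hT1 := h.T1
  have hU1 := h.U1
  have hU0 : 0 < U := by linarith
  have hcT := h.cT
  have hT0 : 0 ≤ T := by linarith
  have hc0 : (0 : ℝ) ≤ c := Nat.cast_nonneg c
  have hb := p4_c l
  have h4 : 1 ≤ 4 ^ (l : ℕ) := Nat.one_le_pow _ _ (by norm_num)
  have hs0 : 0 ≤ 1 / s := by positivity
  have hS0 : 0 ≤ Sz U W l := Sz_nonneg hU1 hW l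
  have hR0 : 0 ≤ Rz n₀ U W l := by linarith [one_le_Rz (n₀ := n₀) hU1 hW l]
  have hRS : Rz n₀ U W l ≤ Sz U W l := by
    refine (Rz_le hU1 hW l).trans ?_
    unfold Sz
    exact mul_le_mul_of_nonneg_left (pow_le_pow_right₀ hU1 (by omega)) (by linarith)
  have hGfT : Gf ≤ T := by linarith
  have k1 : Rz n₀ U W l + c * (Sz U W l * Gf) ≤ T ^ 3 * Sz U W l := by
    have j1 : c * (Sz U W l * Gf) ≤ T * (Sz U W l * T) := by gcongr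
    have j2 : (1 : ℝ) + T * T ≤ T ^ 3 := by nlinarith
    nlinarith
  have k2 : c * (c * ((Rz n₀ U W l + c * (Sz U W l * Gf)) * G) * (3 * CE / s)) ≤ T ^ 10 * Sz U W l := by
    have j1 : c * (c * ((Rz n₀ U W l + c * (Sz U W l * Gf)) * G) * (3 * CE / s)) =
        (c * c * G * 3 * CE * (1 / s)) * (Rz n₀ U W l + c * (Sz U W l * Gf)) := by ring
    have j3 : (3 : ℝ) ≤ T * T := by nlinarith
    have j2 : (c : ℝ) * c * G * 3 * CE * (1 / s) ≤ T * T * T * (T * T) * T * T := by gcongr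
    rw [j1]
    calc (c : ℝ) * c * G * 3 * CE * (1 / s) * (Rz n₀ U W l + c * (Sz U W l * Gf)) ≤
          (T * T * T * (T * T) * T * T) * (T ^ 3 * Sz U W l) :=
          mul_le_mul j2 k1 (by positivity) (by positivity)
      _ = T ^ 10 * Sz U W l := by ring
  have k3 : c * (Sz U W l * Φ) ≤ T ^ 10 * Sz U W l := by
    have j1 : c * (Sz U W l * Φ) ≤ T * (Sz U W l * T) := by gcongr
    have j2 : T ^ 2 ≤ T ^ 10 := pow_le_pow_right₀ hT1 (by norm_num)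
    calc c * (Sz U W l * Φ) ≤ T * (Sz U W l * T) := j1
      _ = T ^ 2 * Sz U W l := by ring
      _ ≤ T ^ 10 * Sz U W l := mul_le_mul_of_nonneg_right j2 hS0
  have k4 : 2 * T ^ 10 ≤ U := h.TNU2 (by omega)
  unfold Be
  calc c * (c * ((Rz n₀ U W l + c * (Sz U W l * Gf)) * G) * (3 * CE / s)) + c * (Sz U W l * Φ) ≤
        T ^ 10 * Sz U W l + T ^ 10 * Sz U W l := add_le_add k2 k3
    _ = 2 * T ^ 10 * Sz U W l := by ring
    _ ≤ U * Sz U W l := mul_le_mul_of_nonneg_right k4 hS0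
    _ = W * U ^ (2 * 4 ^ c - 4 ^ (l : ℕ) + 1) := by
        unfold Sz
        rw [pow_succ]
        ring
    _ ≤ W * U ^ (4 * 4 ^ c) :=
        mul_le_mul_of_nonneg_left (pow_le_pow_right₀ hU1 (by omega)) (by linarith)

section main

variable {Ω Λ Pt Λ' Ξ : Type} [Fintype Ω] {p : Ω → ℝ}

/-- **The covector**, the sizes are powers of `U`. -/
theorem cov_szs (h : Szs c T U) (hp : IsLaw p) (L : Ω → Λ) (P : Ω → Pt) (L' : Ω → Λ')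
    (pt : Ω → Ξ) (hLL : Det p L' L) (hPP : Det p pt P)
    (A : Pt → Matrix (Fin c) (Fin c) ℝ) (M : Ω → Matrix (Fin c) (Fin c) ℝ) (τ : Ω → ℤ)
    (E : Ω → Fin k → Fin c → ℝ) (Fz : Finset (Fin c)) (fD : Ξ → Fin c → Fin c → ℝ)
    (fL : Λ' → Fin c → Fin c → ℝ) (φ0 φ1 : Λ' → Fin c → Fin k → ℝ) (Ev : Ω → Prop)
    {C G Gf CE K Φ p0 η s ε R0 δ0 W : ℝ} {X : ℕ} {n₀ : Fin c} (hn₀ : ∀ i, i ≤ n₀) (hW : 1 ≤ W)
    (hdet : ∀ P, (A P).det ≠ 0) (hC : ∀ P i b, |A P i b| ≤ C) (hM : ∀ ω, Uni (M ω))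
    (hG : ∀ ω i j, |M ω i j| ≤ G)
    (hGi : ∀ ω i j, |(M ω)⁻¹ i j| ≤ G) (hG1 : 1 ≤ G) (hGf0 : 0 ≤ Gf) (hε : 0 ≤ ε) (hK : 0 ≤ K)
    (hCE : 0 ≤ CE) (hΦ : 0 ≤ Φ) (hE : ∀ ω, 0 < p ω → ∀ u i, |E ω u i| ≤ CE)
    (hτ : ∀ ω, 0 < p ω → 0 ≤ τ ω ∧ τ ω < 2 ^ X) (hs : 0 < s) (hs1 : s ≤ 1) (hp0 : 0 < p0)
    (hf : ∀ ξ, ∀ g ∈ Fz, Ld g (fD ξ g) ∧ ∀ i, |fD ξ g i| ≤ Gf)
    (hfL : ∀ ω, 0 < p ω → Ev ω → ∀ g ∈ Fz, ∀ i, |(fD (pt ω) g ᵥ* M ω) i - fL (L' ω) g i| ≤ ε)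
    (hfE : ∀ ω, 0 < p ω → Ev ω → ∀ g ∈ Fz, ∀ u,
      |∑ i, fL (L' ω) g i * E ω u i - φ0 (L' ω) g u - φ1 (L' ω) g u * τ ω| ≤ ε)
    (hφ : ∀ z, ∀ g ∈ Fz, ∀ u, |φ0 z g u| ≤ Φ ∧ |φ1 z g u| * 2 ^ X ≤ Φ)
    (hEv : Pb p (fun ω => ¬ Ev ω) ≤ η) (hn0 : n₀ ∉ Fz)
    (hcv : p0 ≤ Pb p (fun ω => ∃ m, Ad (A (P ω)) n₀ R0 δ0 m))
    (htr : Pb (tup p L 1) (fun w => ¬ ∀ i j,
      |((A (P (w 0)))⁻¹ * (M (w 0) * (M (w 1))⁻¹ * A (P (w 1)))) i j| ≤ K) ≤ η)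
    (hbd : Pb (tup p L 3) (fun w => ¬ ∀ u b,
      |((A (P (w 0)))⁻¹ *ᵥ (M (w 0) *ᵥ d3 τ E u (w 1) (w 2) (w 3))) b| ≤ K) ≤ η)
    (htm : Pb (tup p L 1) (fun w => |((τ (w 0) - τ (w 1) : ℤ) : ℝ)| ≤ s * 2 ^ X) ≤ η)
    (hη : 6 * η ≤ p0 / c)
    (hCT : C ≤ T) (hGT : G ≤ T) (hGfT : 1 + Gf ≤ T) (hCET : CE ≤ T) (hKT : K ≤ T) (hΦT : Φ ≤ T)
    (hsT : 1 / s ≤ T) (hεU : ε ≤ (W * U ^ (4 * 4 ^ c))⁻¹) (hR0 : R0 * T ^ c ≤ W)
    (hδ0 : δ0 ≤ (U ^ (2 * 4 ^ c))⁻¹) :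
    ∃ (l : Fin c) (nD : Ξ → Fin c → ℝ) (n : Λ' → Fin c → ℝ) (e0 e1 : Λ' → Fin k → ℝ),
      l ∉ Fz ∧ (∀ ξ, Ld l (nD ξ) ∧ (∀ g ∈ Fz, nD ξ g = 0) ∧ ∀ i, |nD ξ i| ≤ W * U ^ (4 * 4 ^ c)) ∧
      (∀ z, Ld l (n z) ∧ ∀ i, |n z i| ≤ W * U ^ (4 * 4 ^ c)) ∧
      (∀ z u, |e0 z u| ≤ W * U ^ (4 * 4 ^ c) ∧ |e1 z u| * 2 ^ X ≤ W * U ^ (4 * 4 ^ c)) ∧
      (p0 / c - 6 * η) ^ 2 ≤ Pb p (fun ω =>
        (∃ r : Fin c → ℝ, (∀ g, |r g| ≤ W * U ^ (4 * 4 ^ c)) ∧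
          ∀ i, |(nD (pt ω) ᵥ* M ω) i - n (L' ω) i + ∑ g ∈ Fz, r g * fL (L' ω) g i| ≤
            (T ^ (c + 12))⁻¹) ∧
        ∀ u, |∑ i, n (L' ω) i * E ω u i - e0 (L' ω) u - e1 (L' ω) u * τ ω| ≤
          (T ^ (c + 12))⁻¹) := by
  classical
  have hT2 := h.T2
  have hT1 := h.T1
  have hU1 := h.U1
  have hU0 : 0 < U := by linarith
  have hT0 : 0 ≤ T := by linarith
  have hG0 : 0 ≤ G := by linarith
  have hC0 : 0 ≤ C := by
    obtain ⟨ω⟩ : Nonempty Ω := by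
      by_contra hne
      rw [not_nonempty_iff] at hne
      have := hp.sum_one
      simp at this
    exact (abs_nonneg _).trans (hC (P ω) n₀ n₀)
  have hp0' := hp.nonneg
  have hcv' : p0 ≤ Pb p (fun ω => ∃ l m,
      AdF (A (P ω)) Fz (fD (pt ω)) l (Rz n₀ U W l) (Sz U W l) (dz U l) m) := by
    refine hcv.trans (pmono hp0' fun ω _ hm => ?_)
    obtain ⟨m, hm⟩ := hm
    obtain ⟨m', hm'⟩ := adF_of (fun g hg => (hf (pt ω) g hg).1)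
      (fun g hg => (hf (pt ω) g hg).2) hGf0 hn0 hm
    have hR00 : 0 ≤ R0 := (abs_nonneg _).trans (hm.le n₀)
    have hcard : Fz.card ≤ c := by
      have := Finset.card_le_univ Fz
      rwa [Fintype.card_fin] at this
    have j1 : R0 * (1 + Gf) ^ Fz.card ≤ W := by
      have j2 : (1 + Gf) ^ Fz.card ≤ T ^ c :=
        (pow_le_pow_left₀ (by linarith) hGfT _).trans (pow_le_pow_right₀ hT1 hcard)
      exact (mul_le_mul_of_nonneg_left j2 hR00).trans hR0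
    have h4 : 1 ≤ 4 ^ (n₀ : ℕ) := Nat.one_le_pow _ _ (by norm_num)
    have hb := p4_c n₀
    refine ⟨n₀, m', hm'.mono (j1.trans (le_of_eq ?_)) (j1.trans ?_) (hδ0.trans ?_)⟩
    · unfold Rz
      rw [if_pos rfl]
    · unfold Sz
      have : (1 : ℝ) ≤ U ^ (2 * 4 ^ c - 4 ^ (n₀ : ℕ)) := one_le_pow₀ hU1
      nlinarith
    · unfold dz
      exact inv_anti₀ (by positivity) (pow_le_pow_right₀ hU1 (by omega))
  obtain ⟨l, nD, n, e0, e1, r1, r2, r3, r4, r5⟩ := cov_two hp L P L' pt hLL hPP A M τ E Fz fD fL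
    φ0 φ1 Ev (R := Rz n₀ U W) (S := Sz U W) (δ := dz U) (C := C) (G := G) (Gf := Gf) (CE := CE) (K := K)
    (Φ := Φ) (ρ := U⁻¹) (p0 := p0) (η := η) (s := s) (ε := ε) (X := X) hdet hC
    (fun i => one_le_Rz hU1 hW i) (fun i => Sz_nonneg hU1 hW i)
    (by positivity) hM hG hGi hG1 hGf0 hε hK hCE hΦ hE hτ hs hs1 hp0 hf hfL hfE hφ hEv hcv' htr
    hbd htm hη (fun l l' hl => h.pr hn₀ hW hC0 hG0 hK hε hCT hGT hKT hεU l l' hl)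
    (fun l l' hl => h.prS hn₀ hW hG0 hGT hGf0 hGfT l l' hl)
  have hb := p4_c l
  have h4 : 1 ≤ 4 ^ (l : ℕ) := Nat.one_le_pow _ _ (by norm_num)
  have hRl : 0 ≤ Rz n₀ U W l := by linarith [one_le_Rz (n₀ := n₀) hU1 hW l]
  have hRU : U * Rz n₀ U W l ≤ W * U ^ (4 * 4 ^ c) := by
    calc U * Rz n₀ U W l ≤ U * (W * U ^ 4 ^ (l : ℕ)) :=
          mul_le_mul_of_nonneg_left (Rz_le hU1 hW l) hU0.le
      _ = W * U ^ (4 ^ (l : ℕ) + 1) := by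
          rw [pow_succ]
          ring
      _ ≤ _ := mul_le_mul_of_nonneg_left (pow_le_pow_right₀ hU1 (by omega)) (by linarith)
  have m1 : Rz n₀ U W l ≤ W * U ^ (4 * 4 ^ c) := by nlinarith
  have m2 : c * (Rz n₀ U W l * G) ≤ W * U ^ (4 * 4 ^ c) := by
    have hcT := h.cT
    calc c * (Rz n₀ U W l * G) ≤ T * (Rz n₀ U W l * T) := by gcongr
      _ = T ^ 2 * Rz n₀ U W l := by ring
      _ ≤ U * Rz n₀ U W l := mul_le_mul_of_nonneg_right (h.TNU (by omega)) hRl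
      _ ≤ _ := hRU
  have m3 : c * (c * (Rz n₀ U W l * G) * G) * (1 + Gf) ^ c ≤ W * U ^ (4 * 4 ^ c) := by
    calc c * (c * (Rz n₀ U W l * G) * G) * (1 + Gf) ^ c ≤ T ^ (c + 4) * Rz n₀ U W l :=
          h.cG hG0 hGT hGf0 hGfT hRl
      _ ≤ U * Rz n₀ U W l := mul_le_mul_of_nonneg_right (h.TNU (by omega)) hRl
      _ ≤ _ := hRU
  have m4 := h.be (n₀ := n₀) hW hG0 hGT hGf0 hGfT hCE hCET hΦ hΦT hs hsT l
  have m5 := h.e1 (n₀ := n₀) hW hG0 hGT hGf0 hGfT hε hεU l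
  have m6 := h.e2 hW hCE hCET hK hKT hs hsT hε hεU l
  refine ⟨l, nD, n, e0, e1, r1, fun ξ => ⟨(r2 ξ).1, (r2 ξ).2.1, fun i => ((r2 ξ).2.2 i).trans m1⟩,
    fun z => ⟨(r3 z).1, fun i => ((r3 z).2 i).trans m2⟩,
    fun z u => ⟨(r4 z u).1.trans m4, (r4 z u).2.trans m4⟩, r5.trans (pmono hp0' ?_)⟩
  rintro ω - ⟨⟨r, q1, q2⟩, q3⟩
  exact ⟨⟨r, fun g => (q1 g).trans m3, fun i => (q2 i).trans m5⟩, fun u => (q3 u).trans m6⟩

end main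

end

end Pool.LBL
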