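import Pool.Agent.H36.LBL.Cov

/-!
# Covectors modulo known covectors

`Fz` is a set of coordinates with known covectors `f g`, `g ∈ Fz`. `AdF A Fz f l R S δ m`: the
covector `m` vanishes on `Fz`, has the leading coordinate `l`, and `m + ∑ a g • f g` is small on the
columns of `A` for some `a`. `unqF`: if no smaller leading coordinate is possible, then two such
covectors are close. `two_ptsF`, `on_bodyF`: the covectors of two points of a line.
-/

set_option autoImplicit false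

namespace Pool.LBL

open Finset Real Matrix

variable {c : ℕ}

/-- The combination of the known covectors. -/
noncomputable def cmb (Fz : Finset (Fin c)) (a : Fin c → ℝ) (f : Fin c → Fin c → ℝ) (k : Fin c) : ℝ :=
  ∑ g ∈ Fz, a g * f g k

theorem cmb_add (Fz : Finset (Fin c)) (a b : Fin c → ℝ) (f : Fin c → Fin c → ℝ) (k : Fin c) :
    cmb Fz (fun g => a g + b g) f k = cmb Fz a f k + cmb Fz b f k := by
  unfold cmb
  rw [← Finset.sum_add_distrib]
  exact Finset.sum_congr rfl fun g _ => by ring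

theorem cmb_smul (Fz : Finset (Fin c)) (a : Fin c → ℝ) (r : ℝ) (f : Fin c → Fin c → ℝ)
    (k : Fin c) : cmb Fz (fun g => a g / r) f k = cmb Fz a f k / r := by
  unfold cmb
  rw [Finset.sum_div]
  exact Finset.sum_congr rfl fun g _ => by ring

theorem card_le_c (Fz : Finset (Fin c)) : (Fz.card : ℝ) ≤ c := by
  have := Finset.card_le_univ Fz
  rw [Fintype.card_fin] at this
  exact_mod_cast this

theorem cmb_le {Fz : Finset (Fin c)} {a : Fin c → ℝ} {f : Fin c → Fin c → ℝ} {S G : ℝ}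
    {k : Fin c} (ha : ∀ g ∈ Fz, |a g| ≤ S) (hf : ∀ g ∈ Fz, |f g k| ≤ G) (hS : 0 ≤ S) (hG : 0 ≤ G) :
    |cmb Fz a f k| ≤ c * (S * G) := by
  unfold cmb
  refine (Finset.abs_sum_le_sum_abs _ _).trans ?_
  have h1 : ∀ g ∈ Fz, |a g * f g k| ≤ S * G := fun g hg => by
    rw [abs_mul]
    exact mul_le_mul (ha g hg) (hf g hg) (abs_nonneg _) hS
  refine (Finset.sum_le_sum h1).trans ?_
  rw [Finset.sum_const, nsmul_eq_mul]
  exact mul_le_mul_of_nonneg_right (card_le_c Fz) (mul_nonneg hS hG)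

/-- A covector modulo the known ones, with the leading coordinate `l`, small on `A`. -/
structure AdF (A : Matrix (Fin c) (Fin c) ℝ) (Fz : Finset (Fin c)) (f : Fin c → Fin c → ℝ)
    (l : Fin c) (R S δ : ℝ) (m : Fin c → ℝ) : Prop where
  one : m l = 1
  zero : ∀ k, l < k → m k = 0
  red : ∀ k ∈ Fz, m k = 0
  le : ∀ k, |m k| ≤ R
  sm : ∃ a : Fin c → ℝ, (∀ g, |a g| ≤ S) ∧ ∀ b, |∑ k, (m k + cmb Fz a f k) * A k b| ≤ δ

theorem AdF.ld {A : Matrix (Fin c) (Fin c) ℝ} {Fz : Finset (Fin c)} {f : Fin c → Fin c → ℝ}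
    {l : Fin c} {R S δ : ℝ} {m : Fin c → ℝ} (h : AdF A Fz f l R S δ m) : Ld l m := ⟨h.one, h.zero⟩

theorem AdF.notin {A : Matrix (Fin c) (Fin c) ℝ} {Fz : Finset (Fin c)} {f : Fin c → Fin c → ℝ}
    {l : Fin c} {R S δ : ℝ} {m : Fin c → ℝ} (h : AdF A Fz f l R S δ m) : l ∉ Fz := fun hl => by
  have := h.red l hl
  rw [h.one] at this
  exact one_ne_zero this

/-- **Uniqueness modulo the known covectors.** -/
theorem unqF {A : Matrix (Fin c) (Fin c) ℝ} {Fz : Finset (Fin c)} {f : Fin c → Fin c → ℝ}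
    {C Δ ρ Sd : ℝ} {R S δ : Fin c → ℝ} {l : Fin c}
    (hC : ∀ k b, |A k b| ≤ C) (hR : ∀ k, 1 ≤ R k) (hρ : 0 < ρ) (hSd : 0 ≤ Sd)
    (hno : ∀ l' < l, ∀ m, ¬ AdF A Fz f l' (R l') (S l') (δ l') m)
    (hp : ∀ l' < l, (Δ / ρ + ∑ k ∈ univ.filter (fun k => l' < k ∧ k < l), C / R k) * R l' ≤ δ l')
    (hpS : ∀ l' < l, Sd / ρ * R l' ≤ S l')
    {d : Fin c → ℝ} (hd : ∀ k, l ≤ k → d k = 0) (hdz : ∀ k ∈ Fz, d k = 0) {a : Fin c → ℝ}
    (ha : ∀ g, |a g| ≤ Sd) (hs : ∀ b, |∑ k, (d k + cmb Fz a f k) * A k b| ≤ Δ) (k : Fin c) :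
    |d k| ≤ ρ := by
  classical
  by_contra hk
  push Not at hk
  obtain ⟨j, -, hj⟩ := Finset.exists_max_image univ (fun k => |d k|) ⟨k, mem_univ k⟩
  have hD : ρ < |d j| := hk.trans_le (hj k (mem_univ k))
  have hD0 : 0 < |d j| := hρ.trans hD
  have hjl : j < l := by
    by_contra h
    rw [hd j (not_lt.1 h), abs_zero] at hD0
    exact lt_irrefl _ hD0
  obtain ⟨e, he⟩ : ∃ e : Fin c → ℝ, e = fun k => d k / |d j| := ⟨_, rfl⟩
  obtain ⟨a', ha'⟩ : ∃ a' : Fin c → ℝ, a' = fun g => a g / |d j| := ⟨_, rfl⟩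
  have ha'1 : ∀ g, |a' g| ≤ Sd / ρ := fun g => by
    rw [ha']
    simp only
    rw [abs_div, abs_abs]
    calc |a g| / |d j| ≤ Sd / |d j| := div_le_div_of_nonneg_right (ha g) hD0.le
      _ ≤ Sd / ρ := div_le_div_of_nonneg_left hSd hρ hD.le
  have he1 : ∀ k, |e k| ≤ 1 := fun k => by
    rw [he]
    simp only
    rw [abs_div, abs_abs, div_le_one hD0]
    exact hj k (mem_univ k)
  have hej : |e j| = 1 := by
    rw [he]
    simp only
    rw [abs_div, abs_abs, div_self hD0.ne']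
  have he0 : ∀ k, l ≤ k → e k = 0 := fun k hk => by
    rw [he]
    simp only
    rw [hd k hk, zero_div]
  have hez : ∀ k ∈ Fz, e k = 0 := fun k hk => by
    rw [he]
    simp only
    rw [hdz k hk, zero_div]
  have hes : ∀ b, |∑ k, (e k + cmb Fz a' f k) * A k b| ≤ Δ / ρ := fun b => by
    have h1 : ∑ k, (e k + cmb Fz a' f k) * A k b =
        (∑ k, (d k + cmb Fz a f k) * A k b) / |d j| := by
      rw [he, ha', Finset.sum_div]
      refine Finset.sum_congr rfl fun k _ => ?_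
      rw [cmb_smul]
      ring
    rw [h1, abs_div, abs_abs]
    have h2 : 0 ≤ Δ := (abs_nonneg _).trans (hs b)
    calc |∑ k, (d k + cmb Fz a f k) * A k b| / |d j| ≤ Δ / |d j| :=
          div_le_div_of_nonneg_right (hs b) hD0.le
      _ ≤ Δ / ρ := div_le_div_of_nonneg_left h2 hρ hD.le
  -- the last coordinate which is not tiny
  obtain ⟨l', hl', hmax⟩ : ∃ l', (l' < l ∧ 1 / R l' ≤ |e l'|) ∧
      ∀ k, l' < k → ¬ (k < l ∧ 1 / R k ≤ |e k|) := by
    have hne : (univ.filter fun k => k < l ∧ 1 / R k ≤ |e k|).Nonempty := by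
      refine ⟨j, ?_⟩
      rw [mem_filter]
      refine ⟨mem_univ j, hjl, ?_⟩
      rw [hej]
      exact (div_le_one (by linarith only [hR j])).2 (hR j)
    refine ⟨(univ.filter fun k => k < l ∧ 1 / R k ≤ |e k|).max' hne, ?_, ?_⟩
    · have := Finset.max'_mem _ hne
      rw [mem_filter] at this
      exact this.2
    · intro k hk h
      have h1 : k ∈ univ.filter fun k => k < l ∧ 1 / R k ≤ |e k| := by
        rw [mem_filter]
        exact ⟨mem_univ k, h⟩
      exact absurd hk (not_lt.2 (Finset.le_max' _ k h1))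
  have hR0 : 0 < R l' := by linarith only [hR l']
  have hel : 0 < |e l'| := lt_of_lt_of_le (by positivity) hl'.2
  have hinv : 1 / |e l'| ≤ R l' := by
    rw [div_le_iff₀ hel]
    have := hl'.2
    rw [div_le_iff₀ hR0] at this
    linarith only [this]
  have hinv' : ∀ x : ℝ, 0 ≤ x → x / |e l'| ≤ x * R l' := fun x hx => by
    rw [div_eq_mul_one_div]
    exact mul_le_mul_of_nonneg_left hinv hx
  obtain ⟨m, hm⟩ : ∃ m : Fin c → ℝ, m = fun k => if k ≤ l' then e k / e l' else 0 := ⟨_, rfl⟩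
  refine hno l' hl'.1 m ⟨?_, ?_, ?_, ?_, fun g => a' g / e l', ?_, ?_⟩
  · rw [hm]
    simp only [le_refl, if_true]
    exact div_self (abs_pos.1 hel)
  · intro k hk
    rw [hm]
    simp only
    rw [if_neg (not_le.2 hk)]
  · intro k hk
    rw [hm]
    simp only
    rw [hez k hk, zero_div, ite_self]
  · intro k
    rw [hm]
    simp only
    split_ifs
    · rw [abs_div]
      calc |e k| / |e l'| ≤ 1 / |e l'| := div_le_div_of_nonneg_right (he1 k) hel.le
        _ ≤ R l' := hinv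
    · rw [abs_zero]
      exact hR0.le
  · intro g
    rw [abs_div]
    calc |a' g| / |e l'| ≤ (Sd / ρ) / |e l'| := div_le_div_of_nonneg_right (ha'1 g) hel.le
      _ ≤ Sd / ρ * R l' := hinv' _ (by positivity)
      _ ≤ S l' := hpS l' hl'.1
  · intro b
    have h1 : ∑ k, (m k + cmb Fz (fun g => a' g / e l') f k) * A k b =
        (∑ k, (e k + cmb Fz a' f k) * A k b -
          ∑ k ∈ univ.filter (fun k => l' < k ∧ k < l), e k * A k b) / e l' := by
      rw [eq_div_iff (abs_pos.1 hel), eq_sub_iff_add_eq, Finset.sum_mul, Finset.sum_filter,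
        ← Finset.sum_add_distrib]
      refine Finset.sum_congr rfl fun k _ => ?_
      rw [cmb_smul, hm]
      simp only
      rcases le_or_gt k l' with h | h
      · rw [if_pos h, if_neg fun h2 => absurd h2.1 (not_lt.2 h)]
        field_simp [abs_pos.1 hel]
        ring
      · rw [if_neg (not_le.2 h)]
        rcases lt_or_ge k l with h2 | h2
        · rw [if_pos ⟨h, h2⟩]
          field_simp [abs_pos.1 hel]
          ring
        · rw [if_neg fun h3 => absurd h3.2 (not_lt.2 h2), he0 k h2]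
          field_simp [abs_pos.1 hel]
          ring
    have h2 : |∑ k ∈ univ.filter (fun k => l' < k ∧ k < l), e k * A k b| ≤
        ∑ k ∈ univ.filter (fun k => l' < k ∧ k < l), C / R k := by
      refine (Finset.abs_sum_le_sum_abs _ _).trans (Finset.sum_le_sum fun k hk => ?_)
      rw [mem_filter] at hk
      have h3 := hmax k hk.2.1
      have h4 : |e k| ≤ 1 / R k := by
        by_contra h
        exact h3 ⟨hk.2.2, (not_le.1 h).le⟩
      rw [abs_mul]
      have hRk : 0 < R k := by linarith only [hR k]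
      calc |e k| * |A k b| ≤ 1 / R k * C :=
            mul_le_mul h4 (hC k b) (abs_nonneg _) (by positivity)
        _ = C / R k := by ring
    have h5 := (abs_sub (∑ k, (e k + cmb Fz a' f k) * A k b)
      (∑ k ∈ univ.filter (fun k => l' < k ∧ k < l), e k * A k b)).trans (add_le_add (hes b) h2)
    rw [h1, abs_div]
    refine le_trans ?_ (hp l' hl'.1)
    rw [div_eq_mul_one_div]
    exact mul_le_mul h5 hinv (by positivity) ((abs_nonneg _).trans h5)

/-! ### Reduction -/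

/-- **Reduction** modulo the known covectors. -/
theorem red_ex (Fz : Finset (Fin c)) (f : Fin c → Fin c → ℝ) {G : ℝ}
    (hf : ∀ g ∈ Fz, Ld g (f g)) (hG : ∀ g ∈ Fz, ∀ k, |f g k| ≤ G) (hG0 : 0 ≤ G) :
    ∀ (x : Fin c → ℝ) (B : ℝ), (∀ k, |x k| ≤ B) → ∃ r : Fin c → ℝ,
      (∀ g, |r g| ≤ B * (1 + G) ^ Fz.card) ∧ (∀ g, (∀ k, g ≤ k → x k = 0) → r g = 0) ∧
      (∀ k ∈ Fz, x k - cmb Fz r f k = 0) ∧ ∀ k, |x k - cmb Fz r f k| ≤ B * (1 + G) ^ Fz.card := by
  classical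
  induction Fz using Finset.induction_on_max with
  | empty =>
    intro x B hB
    refine ⟨fun _ => 0, fun g => ?_, fun _ _ => rfl, fun k hk => absurd hk (by simp), fun k => ?_⟩
    · rw [abs_zero]
      simpa using (abs_nonneg _).trans (hB g)
    · unfold cmb
      simpa using hB k
  | insert g0 s hs ih =>
    intro x B hB
    have hg0 : g0 ∉ s := fun h => lt_irrefl _ (hs g0 h)
    have hB0 : 0 ≤ B := (abs_nonneg _).trans (hB g0)
    have i1 := ih (fun g hg => hf g (mem_insert_of_mem hg))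
      (fun g hg => hG g (mem_insert_of_mem hg))
    obtain ⟨x', hx'⟩ : ∃ x' : Fin c → ℝ, x' = fun k => x k - x g0 * f g0 k := ⟨_, rfl⟩
    have hB' : ∀ k, |x' k| ≤ B * (1 + G) := fun k => by
      rw [hx']
      simp only
      refine (abs_sub _ _).trans ?_
      rw [abs_mul]
      have h1 := hB k
      have h2 : |x g0| * |f g0 k| ≤ B * G :=
        mul_le_mul (hB g0) (hG g0 (mem_insert_self _ _) k) (abs_nonneg _) hB0
      linarith
    obtain ⟨r, r1, r2, r3, r4⟩ := i1 x' (B * (1 + G)) hB'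
    have hcard : (insert g0 s).card = s.card + 1 := Finset.card_insert_of_notMem hg0
    have hpow : B * (1 + G) ^ (insert g0 s).card = B * (1 + G) * (1 + G) ^ s.card := by
      rw [hcard, pow_succ]
      ring
    have hone : (1 : ℝ) ≤ (1 + G) ^ (insert g0 s).card := one_le_pow₀ (by linarith)
    obtain ⟨r', hr'⟩ : ∃ r' : Fin c → ℝ, r' = fun g => if g = g0 then x g0 else
      (if g ∈ s then r g else 0) := ⟨_, rfl⟩
    have hcmb : ∀ k, x k - cmb (insert g0 s) r' f k = x' k - cmb s r f k := by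
      intro k
      unfold cmb
      rw [Finset.sum_insert hg0]
      have e1 : ∑ g ∈ s, r' g * f g k = ∑ g ∈ s, r g * f g k := by
        refine Finset.sum_congr rfl fun g hg => ?_
        rw [hr']
        simp only
        rw [if_neg (fun h : g = g0 => hg0 (h ▸ hg)), if_pos hg]
      have e2 : r' g0 = x g0 := by
        rw [hr']
        simp only [if_true]
      rw [e1, e2, hx']
      ring
    refine ⟨r', fun g => ?_, fun g hg => ?_, fun k hk => ?_, fun k => ?_⟩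
    · rw [hr']
      simp only
      split_ifs with h1 h2
      · calc |x g0| ≤ B * 1 := by rw [mul_one]; exact hB g0
          _ ≤ _ := mul_le_mul_of_nonneg_left hone hB0
      · rw [hpow]
        exact r1 g
      · rw [abs_zero]
        positivity
    · rw [hr']
      simp only
      split_ifs with h1 h2
      · rw [← h1]
        exact hg g le_rfl
      · refine r2 g fun k hk => ?_
        rw [hx']
        simp only
        rw [hg k hk]
        have : x g0 = 0 := hg g0 (hs g h2).le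
        rw [this]
        ring
      · rfl
    · rw [hcmb]
      rw [mem_insert] at hk
      rcases hk with rfl | hk
      · have e1 : cmb s r f k = 0 := by
          unfold cmb
          refine Finset.sum_eq_zero fun g hg => ?_
          rw [(hf g (mem_insert_of_mem hg)).2 k (hs g hg), mul_zero]
        rw [e1, hx']
        simp only
        rw [(hf k (mem_insert_self _ _)).1]
        ring
      · exact r3 k hk
    · rw [hcmb, hpow]
      exact r4 k

/-- A small covector with the last coordinate `1` gives an admissible one. -/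
theorem adF_of {A : Matrix (Fin c) (Fin c) ℝ} {Fz : Finset (Fin c)} {f : Fin c → Fin c → ℝ}
    {l : Fin c} {G R δ : ℝ} {m : Fin c → ℝ} (hf : ∀ g ∈ Fz, Ld g (f g))
    (hG : ∀ g ∈ Fz, ∀ k, |f g k| ≤ G) (hG0 : 0 ≤ G) (hl : l ∉ Fz) (h : Ad A l R δ m) :
    ∃ m', AdF A Fz f l (R * (1 + G) ^ Fz.card) (R * (1 + G) ^ Fz.card) δ m' := by
  obtain ⟨r, r1, r2, r3, r4⟩ := red_ex Fz f hf hG hG0 m R h.le
  refine ⟨fun k => m k - cmb Fz r f k, ?_, ?_, r3, r4, r, r1, fun b => ?_⟩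
  · have e1 : cmb Fz r f l = 0 := by
      unfold cmb
      refine Finset.sum_eq_zero fun g hg => ?_
      rcases lt_trichotomy g l with h1 | h1 | h1
      · rw [(hf g hg).2 l h1, mul_zero]
      · exact absurd (h1 ▸ hg) hl
      · rw [r2 g (fun k hk => h.zero k (h1.trans_le hk)), zero_mul]
    rw [e1, h.one, sub_zero]
  · intro k hk
    have e1 : cmb Fz r f k = 0 := by
      unfold cmb
      refine Finset.sum_eq_zero fun g hg => ?_
      rcases lt_or_ge g k with h1 | h1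
      · rw [(hf g hg).2 k h1, mul_zero]
      · rw [r2 g (fun k' hk' => h.zero k' (hk.trans_le (h1.trans hk'))), zero_mul]
    rw [e1, h.zero k hk, sub_zero]
  · have e1 : ∑ k, (m k - cmb Fz r f k + cmb Fz r f k) * A k b = ∑ k, m k * A k b :=
      Finset.sum_congr rfl fun k _ => by ring
    rw [e1]
    exact h.sm b

/-! ### Two points of a line -/

theorem vecMul_cmb (Fz : Finset (Fin c)) (a : Fin c → ℝ) (f : Fin c → Fin c → ℝ)
    (M : Matrix (Fin c) (Fin c) ℝ) (i : Fin c) :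
    ((fun k => cmb Fz a f k) ᵥ* M) i = ∑ g ∈ Fz, a g * (f g ᵥ* M) i := by
  show ∑ k, cmb Fz a f k * M k i = ∑ g ∈ Fz, a g * ∑ k, f g k * M k i
  unfold cmb
  simp only [Finset.sum_mul, Finset.mul_sum]
  rw [Finset.sum_comm]
  exact Finset.sum_congr rfl fun g _ => Finset.sum_congr rfl fun k _ => by ring

theorem sum_abs_le' {Fz : Finset (Fin c)} {x y : Fin c → ℝ} {a b : ℝ} (ha : 0 ≤ a) (hb : 0 ≤ b)
    (hx : ∀ i ∈ Fz, |x i| ≤ a) (hy : ∀ i ∈ Fz, |y i| ≤ b) : |∑ i ∈ Fz, x i * y i| ≤ c * (a * b) := by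
  refine (Finset.abs_sum_le_sum_abs _ _).trans ?_
  have h1 : ∀ i ∈ Fz, |x i * y i| ≤ a * b := fun i hi => by
    rw [abs_mul]
    exact mul_le_mul (hx i hi) (hy i hi) (abs_nonneg _) ha
  refine (Finset.sum_le_sum h1).trans ?_
  rw [Finset.sum_const, nsmul_eq_mul]
  exact mul_le_mul_of_nonneg_right (card_le_c Fz) (mul_nonneg ha hb)

/-- **The covectors of two points of a line**, modulo the known covectors. -/
theorem two_ptsF {A0 A1 M0 M1 : Matrix (Fin c) (Fin c) ℝ} {Fz : Finset (Fin c)}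
    {f0 f1 fL : Fin c → Fin c → ℝ} {C K G Gf ρ ε : ℝ} {R S δ : Fin c → ℝ}
    {l : Fin c} {n0 n1 : Fin c → ℝ} (hC : ∀ i b, |A0 i b| ≤ C) (hR : ∀ i, 1 ≤ R i) (hρ : 0 < ρ)
    (hdet : A1.det ≠ 0) (u0 : Uni M0) (u1 : Uni M1) (hG : ∀ i j, |M0 i j| ≤ G)
    (hG1 : ∀ i j, |M1 i j| ≤ G) (hGi : ∀ i j, |M0⁻¹ i j| ≤ G) (hG0 : 0 ≤ G)
    (hf : ∀ g ∈ Fz, Ld g (f0 g)) (hGf : ∀ g ∈ Fz, ∀ k, |f0 g k| ≤ Gf) (hGf0 : 0 ≤ Gf)
    (hε : 0 ≤ ε) (hS : 0 ≤ S l)
    (h0L : ∀ g ∈ Fz, ∀ i, |(f0 g ᵥ* M0) i - fL g i| ≤ ε)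
    (h1L : ∀ g ∈ Fz, ∀ i, |(f1 g ᵥ* M1) i - fL g i| ≤ ε)
    (h0 : AdF A0 Fz f0 l (R l) (S l) (δ l) n0) (h1 : AdF A1 Fz f1 l (R l) (S l) (δ l) n1)
    (hno : ∀ l' < l, ∀ m, ¬ AdF A0 Fz f0 l' (R l') (S l') (δ l') m)
    (hp : ∀ l' < l, (((c * K + 1) * δ l + c * (c * (S l * (c * (2 * ε * G))) * C)) / ρ +
      ∑ i ∈ univ.filter (fun i => l' < i ∧ i < l), C / R i) * R l' ≤ δ l')
    (hpS : ∀ l' < l, (c * (c * (R l * G) * G) * (1 + Gf) ^ c + 2 * S l) / ρ * R l' ≤ S l')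
    (htr : ∀ i j, |(A1⁻¹ * (M1 * M0⁻¹ * A0)) i j| ≤ K) :
    ∃ r : Fin c → ℝ, (∀ g, |r g| ≤ c * (c * (R l * G) * G) * (1 + Gf) ^ c) ∧ ∀ i,
      |(n0 ᵥ* M0) i - (n1 ᵥ* M1) i + ∑ g ∈ Fz, r g * fL g i| ≤
        c * (ρ * G) + c * (c * (c * (R l * G) * G) * (1 + Gf) ^ c * ε) := by
  classical
  have hM0 : IsUnit M0.det := by
    rw [u0.det]
    exact isUnit_one
  have hA1 : IsUnit A1.det := isUnit_iff_ne_zero.2 hdet
  have hlF : l ∉ Fz := h0.notin
  obtain ⟨a0, a0b, a0s⟩ := h0.sm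
  obtain ⟨a1, a1b, a1s⟩ := h1.sm
  have hδ : 0 ≤ δ l := (abs_nonneg _).trans (a0s l)
  have hRl : 0 ≤ R l := zero_le_one.trans (hR l)
  obtain ⟨y, hy⟩ : ∃ y, y = n1 ᵥ* (M1 * M0⁻¹) := ⟨_, rfl⟩
  have hyM : y ᵥ* M0 = n1 ᵥ* M1 := by
    rw [hy, vecMul_vecMul, Matrix.mul_assoc, Matrix.nonsing_inv_mul _ hM0, Matrix.mul_one]
  have hyl : Ld l y := u0.ld_of (by rw [hyM]; exact u1.ld h1.ld)
  have hyb : ∀ k, |y k| ≤ c * (c * (R l * G) * G) := by
    intro k
    have e1 : y = (n1 ᵥ* M1) ᵥ* M0⁻¹ := by rw [hy, vecMul_vecMul]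
    rw [e1]
    exact sum_abs_le (by positivity)
      (fun a => sum_abs_le hRl h1.le (fun b => hG1 b a)) (fun a => hGi a k)
  -- the reduction of `y`
  obtain ⟨r, r1, r2, r3, r4⟩ := red_ex Fz f0 hf hGf hGf0 y _ hyb
  have hcard : Fz.card ≤ c := by
    have := Finset.card_le_univ Fz
    rwa [Fintype.card_fin] at this
  have hpow : (1 + Gf) ^ Fz.card ≤ (1 + Gf) ^ c := pow_le_pow_right₀ (by linarith) hcard
  have r1' : ∀ g, |r g| ≤ c * (c * (R l * G) * G) * (1 + Gf) ^ c := fun g =>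
    (r1 g).trans (mul_le_mul_of_nonneg_left hpow (by positivity))
  -- the error of the transport of the known covectors
  obtain ⟨w, hw⟩ : ∃ w : Fin c → ℝ, w = fun k =>
    ((fun k => cmb Fz a1 f1 k) ᵥ* (M1 * M0⁻¹)) k - cmb Fz a1 f0 k := ⟨_, rfl⟩
  have hwb : ∀ k, |w k| ≤ c * (S l * (c * (2 * ε * G))) := by
    intro k
    have e1 : w k = ∑ g ∈ Fz, a1 g * (((fun i => (f1 g ᵥ* M1) i - (f0 g ᵥ* M0) i) ᵥ* M0⁻¹) k) := by
      rw [hw]
      simp only
      rw [vecMul_cmb]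
      unfold cmb
      rw [← Finset.sum_sub_distrib]
      refine Finset.sum_congr rfl fun g _ => ?_
      have e2 : (fun i => (f1 g ᵥ* M1) i - (f0 g ᵥ* M0) i) ᵥ* M0⁻¹ =
          f1 g ᵥ* (M1 * M0⁻¹) - f0 g := by
        have e3 : (fun i => (f1 g ᵥ* M1) i - (f0 g ᵥ* M0) i) = f1 g ᵥ* M1 - f0 g ᵥ* M0 := rfl
        rw [e3, sub_vecMul, vecMul_vecMul, vecMul_vecMul, Matrix.mul_nonsing_inv _ hM0,
          vecMul_one]
      rw [e2, Pi.sub_apply]
      ring
    rw [e1]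
    refine sum_abs_le' hS (by positivity) (fun g _ => a1b g) fun g hg => ?_
    refine sum_abs_le (by positivity) (fun i => ?_) (fun i => hGi i k)
    have e4 : (f1 g ᵥ* M1) i - (f0 g ᵥ* M0) i = ((f1 g ᵥ* M1) i - fL g i) -
        ((f0 g ᵥ* M0) i - fL g i) := by ring
    rw [e4]
    refine (abs_sub _ _).trans ?_
    linarith [h1L g hg i, h0L g hg i]
  -- the lift of `y`
  have hyA : ∀ b, |∑ k, (y k + cmb Fz a1 f0 k + w k) * A0 k b| ≤ c * (δ l * K) := by
    intro b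
    have e1 : (fun k => y k + cmb Fz a1 f0 k + w k) =
        (fun k => n1 k + cmb Fz a1 f1 k) ᵥ* (M1 * M0⁻¹) := by
      have e2 : (fun k => n1 k + cmb Fz a1 f1 k) = n1 + fun k => cmb Fz a1 f1 k := rfl
      rw [e2, add_vecMul, ← hy, hw]
      funext k
      rw [Pi.add_apply]
      ring
    have e3 : ∑ k, (y k + cmb Fz a1 f0 k + w k) * A0 k b =
        (((fun k => n1 k + cmb Fz a1 f1 k) ᵥ* A1) ᵥ* (A1⁻¹ * (M1 * M0⁻¹ * A0))) b := by
      rw [vecMul_vecMul, ← Matrix.mul_assoc, Matrix.mul_nonsing_inv _ hA1, Matrix.one_mul,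
        ← vecMul_vecMul, ← e1]
      rfl
    rw [e3]
    exact sum_abs_le hδ (fun a => a1s a) (fun a => htr a b)
  have hd : ∀ j, |y j - cmb Fz r f0 j - n0 j| ≤ ρ := by
    refine unqF (A := A0) (Fz := Fz) (f := f0) (S := S) (δ := δ)
      (Sd := c * (c * (R l * G) * G) * (1 + Gf) ^ c + 2 * S l)
      (Δ := (c * K + 1) * δ l + c * (c * (S l * (c * (2 * ε * G))) * C))
      (a := fun g => r g + a1 g + -a0 g) hC hR hρ (by positivity) hno hp hpS ?_ ?_ ?_ ?_
    · intro j hj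
      have e1 : cmb Fz r f0 j = 0 := by
        unfold cmb
        refine Finset.sum_eq_zero fun g hg => ?_
        rcases lt_or_ge g j with h | h
        · rw [(hf g hg).2 j h, mul_zero]
        · have hlg : l < g := lt_of_le_of_ne (hj.trans h) fun h' => hlF (h' ▸ hg)
          rw [r2 g (fun k' hk' => hyl.2 k' (hlg.trans_le hk')), zero_mul]
      rw [e1]
      rcases hj.eq_or_lt with h | h
      · rw [← h, hyl.1, h0.one]
        ring
      · rw [hyl.2 j h, h0.zero j h]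
        ring
    · intro k hk
      rw [r3 k hk, h0.red k hk, sub_zero]
    · intro g
      refine (abs_add_le _ _).trans ?_
      rw [abs_neg]
      have := abs_add_le (r g) (a1 g)
      linarith [r1' g, a1b g, a0b g]
    · intro b
      have e1 : ∑ k, (y k - cmb Fz r f0 k - n0 k + cmb Fz (fun g => r g + a1 g + -a0 g) f0 k) *
          A0 k b = ∑ k, (y k + cmb Fz a1 f0 k + w k) * A0 k b -
          ∑ k, (n0 k + cmb Fz a0 f0 k) * A0 k b - ∑ k, w k * A0 k b := by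
        rw [← Finset.sum_sub_distrib, ← Finset.sum_sub_distrib]
        refine Finset.sum_congr rfl fun k _ => ?_
        rw [cmb_add, cmb_add]
        have e2 : cmb Fz (fun g => -a0 g) f0 k = -cmb Fz a0 f0 k := by
          unfold cmb
          rw [← Finset.sum_neg_distrib]
          exact Finset.sum_congr rfl fun g _ => by ring
        rw [e2]
        ring
      have e3 : |∑ k, w k * A0 k b| ≤ c * (c * (S l * (c * (2 * ε * G))) * C) :=
        sum_abs_le (by positivity) hwb (fun k => hC k b)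
      rw [e1]
      refine (abs_sub _ _).trans ?_
      have e4 := abs_sub (∑ k, (y k + cmb Fz a1 f0 k + w k) * A0 k b)
        (∑ k, (n0 k + cmb Fz a0 f0 k) * A0 k b)
      have e5 : (c * K + 1) * δ l = c * (δ l * K) + δ l := by ring
      rw [e5]
      linarith [hyA b, a0s b]
  refine ⟨r, r1', fun i => ?_⟩
  have e1 : (n0 ᵥ* M0) i - (n1 ᵥ* M1) i + ∑ g ∈ Fz, r g * fL g i =
      -∑ k, (y k - cmb Fz r f0 k - n0 k) * M0 k i -
        ∑ g ∈ Fz, r g * ((f0 g ᵥ* M0) i - fL g i) := by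
    have e2 : ∑ k, cmb Fz r f0 k * M0 k i = ∑ g ∈ Fz, r g * (f0 g ᵥ* M0) i :=
      vecMul_cmb Fz r f0 M0 i
    have e3 : ∑ k, (y k - cmb Fz r f0 k - n0 k) * M0 k i = ∑ k, y k * M0 k i -
        ∑ k, cmb Fz r f0 k * M0 k i - ∑ k, n0 k * M0 k i := by
      rw [← Finset.sum_sub_distrib, ← Finset.sum_sub_distrib]
      exact Finset.sum_congr rfl fun k _ => by ring
    have e4 : ∑ g ∈ Fz, r g * ((f0 g ᵥ* M0) i - fL g i) =
        ∑ g ∈ Fz, r g * (f0 g ᵥ* M0) i - ∑ g ∈ Fz, r g * fL g i := by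
      rw [← Finset.sum_sub_distrib]
      exact Finset.sum_congr rfl fun g _ => by ring
    have e5 : ∑ k, y k * M0 k i = (n1 ᵥ* M1) i := congrFun hyM i
    have e6 : (n0 ᵥ* M0) i = ∑ k, n0 k * M0 k i := rfl
    rw [e3, e4, e5, e2, e6]
    ring
  rw [e1]
  refine (abs_sub _ _).trans (add_le_add ?_ ?_)
  · rw [abs_neg]
    exact sum_abs_le hρ.le hd (fun k => hG k i)
  · exact sum_abs_le' (by positivity) hε (fun g _ => r1' g) (fun g hg => h0L g hg i)

/-- The covector on a vector of the body, modulo the known covectors. -/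
theorem on_bodyF {A1 M1 : Matrix (Fin c) (Fin c) ℝ} {Fz : Finset (Fin c)}
    {f1 fL : Fin c → Fin c → ℝ} {K R S δ ε ε' D : ℝ} {l : Fin c} {n1 d : Fin c → ℝ}
    (hdet : A1.det ≠ 0) (h1 : AdF A1 Fz f1 l R S δ n1) (hS : 0 ≤ S) (hε : 0 ≤ ε)
    (hε' : 0 ≤ ε') (hD : 0 ≤ D)
    (h1L : ∀ g ∈ Fz, ∀ i, |(f1 g ᵥ* M1) i - fL g i| ≤ ε)
    (hd : ∀ b, |(A1⁻¹ *ᵥ (M1 *ᵥ d)) b| ≤ K) (hdD : ∀ i, |d i| ≤ D)
    (hfd : ∀ g ∈ Fz, |∑ i, fL g i * d i| ≤ ε') :
    |∑ i, (n1 ᵥ* M1) i * d i| ≤ c * (δ * K) + c * (S * (c * (ε * D) + ε')) := by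
  have hA1 : IsUnit A1.det := isUnit_iff_ne_zero.2 hdet
  obtain ⟨a, ab, as⟩ := h1.sm
  have hδ : 0 ≤ δ := (abs_nonneg _).trans (as l)
  have e1 : ∑ i, (n1 ᵥ* M1) i * d i =
      ∑ b, ((fun k => n1 k + cmb Fz a f1 k) ᵥ* A1) b * (A1⁻¹ *ᵥ (M1 *ᵥ d)) b -
        ∑ g ∈ Fz, a g * ∑ i, (f1 g ᵥ* M1) i * d i := by
    have e2 : ∑ b, ((fun k => n1 k + cmb Fz a f1 k) ᵥ* A1) b * (A1⁻¹ *ᵥ (M1 *ᵥ d)) b =
        ∑ i, ((fun k => n1 k + cmb Fz a f1 k) ᵥ* M1) i * d i := by
      show ((fun k => n1 k + cmb Fz a f1 k) ᵥ* A1) ⬝ᵥ (A1⁻¹ *ᵥ (M1 *ᵥ d)) =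
        ((fun k => n1 k + cmb Fz a f1 k) ᵥ* M1) ⬝ᵥ d
      rw [← dotProduct_mulVec, ← dotProduct_mulVec, mulVec_mulVec, Matrix.mul_nonsing_inv _ hA1,
        one_mulVec]
    have e3 : ∀ i, ((fun k => n1 k + cmb Fz a f1 k) ᵥ* M1) i =
        (n1 ᵥ* M1) i + ∑ g ∈ Fz, a g * (f1 g ᵥ* M1) i := by
      intro i
      have e4 : (fun k => n1 k + cmb Fz a f1 k) = n1 + fun k => cmb Fz a f1 k := rfl
      rw [e4, add_vecMul, Pi.add_apply, vecMul_cmb]
    rw [e2]
    simp only [e3, add_mul, Finset.sum_add_distrib]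
    have e5 : ∑ i, (∑ g ∈ Fz, a g * (f1 g ᵥ* M1) i) * d i =
        ∑ g ∈ Fz, a g * ∑ i, (f1 g ᵥ* M1) i * d i := by
      simp only [Finset.sum_mul, Finset.mul_sum]
      rw [Finset.sum_comm]
      exact Finset.sum_congr rfl fun g _ => Finset.sum_congr rfl fun i _ => by ring
    rw [e5]
    ring
  rw [e1]
  refine (abs_sub _ _).trans (add_le_add (sum_abs_le hδ (fun b => as b) hd) ?_)
  refine sum_abs_le' hS (by positivity) (fun g _ => ab g) fun g hg => ?_
  have e6 : ∑ i, (f1 g ᵥ* M1) i * d i = ∑ i, ((f1 g ᵥ* M1) i - fL g i) * d i +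
      ∑ i, fL g i * d i := by
    rw [← Finset.sum_add_distrib]
    exact Finset.sum_congr rfl fun i _ => by ring
  rw [e6]
  exact (abs_add_le _ _).trans (add_le_add (sum_abs_le hε (h1L g hg) hdD) (hfd g hg))

end Pool.LBL
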